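import Pool.Agent.HeckeRQ.ArtHK
import Pool.Agent.StarkRQ.Split

/-!
# HQ19: the Artin symbol of `(p)` for a prime number `p` whose Frobenius elements are in `Gal(M/K)`

`Q` a prime of `M` over `p` (`exists` as in `StarkRQ`), `φ` its Frobenius element in `Gal(M/ℚ)`
(`Cong φ Q p`, `toG`, `fixG` in `StarkRQ/Base.lean`), `φ = toG ψ` with `ψ ∈ Gal(M/K)`, `t ∉ fixG K M`,
`t φ t⁻¹ = toG ψ'`. `𝔭 = Q ∩ K`, `𝔭' = (t Q) ∩ K`. `x^p ≡ φ x = x` modulo `Q` for `x ∈ 𝓞 K`, so `𝓞 K / 𝔭` has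
`p` elements (all satisfy `x^p = x`), `absNorm 𝔭 = p`, similarly `absNorm 𝔭' = p` (`t φ t⁻¹` is a Frobenius
element at `t Q`, `Cong.conj`). `t` induces the nontrivial automorphism `τ` of `K`, `𝔭' = τ 𝔭`, and
`𝔭 𝔭' = (p)`: both primes contain `p`; if `𝔭 ≠ 𝔭'` then `𝔭 𝔭' ∣ (p)` and the norms agree (`absNorm (p) = p²`);
`𝔭 = 𝔭'` is impossible: `p` is unramified and `τ` would be in the inertia..: if `𝔭' = 𝔭`, then `𝔭` is the only prime over
`p` (`Gal(K/ℚ) = {1, τ}` is transitive on the primes over `p`), so `(p) = 𝔭²` (norms), ramified,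
`p ∣ discr K ∣ discr M`, a contradiction. See `StarkRQ/Split.lean`, where the ideals of norm `p^e` are
counted with the same arguments (private lemmas may be copied). `ψ` is a Frobenius element for `𝔭` and `ψ'` for `𝔭'`
(`IsFrob`, `absNorm = p`), so their restrictions to `H` are (`restrict_isFrob` in `StarkRQ/Restrict.lean`, copy it).
-/

set_option autoImplicit false
set_option linter.unusedSectionVars false

noncomputable section

open NumberField Module Pool.Agent.StarkRQ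
open scoped Pointwise

namespace Pool.Agent.HeckeRQ

section restrict

variable {K H M : Type*} [Field K] [NumberField K] [Field H] [NumberField H]
    [Field M] [NumberField M] [Algebra K M] [Algebra K H] [Algebra H M] [IsScalarTower K H M]

/-- The restriction of the action to `H`. -/
private theorem restrict_smul [Normal K H] (ψ : Gal(M/K)) (x : 𝓞 H) :
    algebraMap (𝓞 H) (𝓞 M) (AlgEquiv.restrictNormalHom H ψ • x) = ψ • algebraMap (𝓞 H) (𝓞 M) x := by
  apply NumberField.RingOfIntegers.ext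
  change algebraMap H M ((AlgEquiv.restrictNormalHom H ψ) (x : H)) = ψ (algebraMap H M (x : H))
  exact AlgEquiv.restrictNormal_commutes ψ H (x : H)

private theorem restrict_algebraMap :
    algebraMap (𝓞 K) (𝓞 M) = (algebraMap (𝓞 H) (𝓞 M)).comp (algebraMap (𝓞 K) (𝓞 H)) := by
  ext x
  change algebraMap K M (x : K) = algebraMap H M (algebraMap K H (x : K))
  rw [← IsScalarTower.algebraMap_apply K H M]

private theorem restrict_isFrob [Normal K H] {𝔮 : Ideal (𝓞 K)} {ψ : Gal(M/K)}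
    (h : IsFrob 𝔮 ψ) : IsFrob 𝔮 (AlgEquiv.restrictNormalHom H ψ) := by
  obtain ⟨Q, hQ, hQ𝔮, hx⟩ := h
  refine ⟨Q.comap (algebraMap (𝓞 H) (𝓞 M)), Ideal.comap_isPrime _ _, ?_, fun x => ?_⟩
  · rw [Ideal.comap_comap, ← restrict_algebraMap, hQ𝔮]
  · rw [Ideal.mem_comap, map_sub, map_pow, restrict_smul]
    exact hx _

end restrict

theorem artin_p {M K H : Type} [Field M] [NumberField M] [IsGalois ℚ M] [Field K] [NumberField K]
    [Field H] [NumberField H] [Algebra K M] [Algebra K H] [Algebra H M] [IsScalarTower K H M]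
    (hK : finrank ℚ K = 2) [IsGalois K M] [IsAbelianGalois K H] {p : ℕ} (hp : p.Prime)
    (hpM : ¬ (p : ℤ) ∣ discr M) {Q : Ideal (𝓞 M)} [Q.IsPrime] (hpQ : (p : 𝓞 M) ∈ Q)
    {φ t : Gal(M/ℚ)} (hφ : Cong φ Q p) (ht : t ∉ fixG K M) {ψ ψ' : Gal(M/K)}
    (h : toG K M ψ = φ) (h' : toG K M ψ' = t * φ * t⁻¹) :
    HasArtinSymbol (Ideal.span {(p : 𝓞 K)})
      (AlgEquiv.restrictNormalHom H ψ * AlgEquiv.restrictNormalHom H ψ' : Gal(H/K)) := by
  have hφF : φ ∈ fixG K M := ⟨ψ, h⟩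
  set N : ℕ := (discr M).natAbs with hN
  have hram : ∀ q : ℕ, q.Prime → (q : ℤ) ∣ discr M → q ∣ N := fun q _ hq =>
    Int.natCast_dvd.1 hq
  have hpN : p.Coprime N := (Nat.Prime.coprime_iff_not_dvd hp).2 fun hd => hpM (Int.natCast_dvd.2 hd)
  have hQ2 : (t • Q).IsPrime := inferInstance
  have hpQ2 : (p : 𝓞 M) ∈ t • Q := by
    rw [Ideal.mem_pointwise_smul_iff_inv_smul_mem]
    have : t⁻¹ • (p : 𝓞 M) = (p : 𝓞 M) :=
      map_natCast (MulSemiringAction.toRingHom Gal(M/ℚ) (𝓞 M) t⁻¹) p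
    rw [this]
    exact hpQ
  have hφ2 : Cong (t * φ * t⁻¹) (t • Q) p := hφ.conj t
  set 𝔮₁ := Q.comap (algebraMap (𝓞 K) (𝓞 M)) with h𝔮₁
  set 𝔮₂ := (t • Q).comap (algebraMap (𝓞 K) (𝓞 M)) with h𝔮₂
  have hP1 : 𝔮₁.IsPrime := Ideal.comap_isPrime _ _
  have hP2 : 𝔮₂.IsPrime := Ideal.comap_isPrime _ _
  have hp1 : (p : 𝓞 K) ∈ 𝔮₁ := split_mem_iff.1 hpQ
  have hp2 : (p : 𝓞 K) ∈ 𝔮₂ := split_mem_iff.1 hpQ2
  have hn1 : Ideal.absNorm 𝔮₁ = p := split_norm hK hp hpQ hφ hφF hP1 hp1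
  have hn2 : Ideal.absNorm 𝔮₂ = p := split_norm hK hp hpQ hφ hφF hP2 hp2
  -- the product of the two primes
  have hprod : 𝔮₁ * 𝔮₂ = Ideal.span {(p : 𝓞 K)} := by
    have hdvd : 𝔮₁ ∣ Ideal.span {(p : 𝓞 K)} := by
      rw [Ideal.dvd_span_singleton]
      exact hp1
    obtain ⟨J, hJ⟩ := hdvd
    have hJn : Ideal.absNorm J = p := by
      have h1 : Ideal.absNorm (Ideal.span {(p : 𝓞 K)}) = p ^ 2 := by
        rw [Ideal.absNorm_span_natCast, RingOfIntegers.rank, hK]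
      rw [hJ, map_mul, hn1, pow_two] at h1
      exact Nat.eq_of_mul_eq_mul_left hp.pos h1
    have hJp : J.IsPrime := Ideal.isPrime_of_irreducible_absNorm (by rw [hJn]; exact hp)
    have hpJ : (p : 𝓞 K) ∈ J := by
      have := Ideal.absNorm_mem J
      rwa [hJn] at this
    rcases split_two hK hp hpQ ht hJp hpJ with h1 | h1
    · exact (split_unram (M := M) hram hp hpN hP1 hp1 (by rw [hJ, h1])).elim
    · rw [hJ, h1]
  have hF1 : IsFrob 𝔮₁ ψ := by
    refine ⟨Q, inferInstance, rfl, fun x => ?_⟩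
    rw [hn1]
    have h1 := hφ x
    rw [← h, toG_smul] at h1
    exact h1
  have hF2 : IsFrob 𝔮₂ ψ' := by
    refine ⟨t • Q, hQ2, rfl, fun x => ?_⟩
    rw [hn2]
    have h1 := hφ2 x
    rw [← h', toG_smul] at h1
    exact h1
  refine ⟨[(𝔮₁, AlgEquiv.restrictNormalHom H ψ), (𝔮₂, AlgEquiv.restrictNormalHom H ψ')], ?_, ?_, ?_⟩
  · intro x hx
    simp only [List.mem_cons, List.not_mem_nil, or_false] at hx
    rcases hx with rfl | rfl
    · exact ⟨hP1, split_ne_bot hp hp1, restrict_isFrob hF1⟩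
    · exact ⟨hP2, split_ne_bot hp hp2, restrict_isFrob hF2⟩
  · simp [hprod]
  · simp

end Pool.Agent.HeckeRQ
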