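import Pool.Agent.HeckeRQ.Transfer
import Pool.Agent.HeckeRQ.SplitP
import Pool.Agent.StarkRQ.ChiFrob
import Pool.Agent.StarkRQ.Galois

/-!
# HQ20: `R` is the complex conjugation at the places over `∞₂`

`p` a prime number `≡ -1` modulo `N f` (`Nat.forall_exists_prime_gt_and_eq_mod`), `p > 2`, so prime to `N f` and
(by `hram`) not dividing `discr M`, `discr H`. `α = -p`: `N ∣ α - 1 = -(p + 1)`, `ι₂ α < 0`, so `R` is an Artin symbol of
`(-p) = (p)`. Let `Q`, `φ` be as in `artin_p`; `c ∈ Gal(M/ℚ)` the complex conjugation, `ι (c x) = conj (ι x)`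
(`exists_cc` in `StarkRQ` or `CMG`). On `ζ` both `φ` and `c` are `ζ ↦ ζ⁻¹`: `φ ζ = ζ^p` because
`φ ζ ≡ ζ^p` modulo `Q` and the `f`-th roots of unity are distinct modulo `Q` (`p ∤ f`; `StarkRQ` has such a lemma for
`Cong`, see `FrobQ.lean`, `CycCount.lean`). The field fixed by the commutator subgroup `[G, G]` consists of
the `x` with `σ (τ x) = τ (σ x)` for all `σ, τ`, it is in `ℚ(ζ)` by `hmax`, so `φ c⁻¹` fixes it and
`φ c⁻¹ ∈ [G, G]` (`IsGalois` correspondence, `IntermediateField.fixingSubgroup_fixedField`). `c ∈ A = fixG K M` as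
`K` is totally real; `K` is in the fixed field of `[G, G]` (`A` is normal of index 2, quotient abelian), so `φ ∈ A`.
`transfer_two` with `π : A → Gal(H/K)` the restriction to `H` (`A ≃ Gal(M/K)` by `toG`, injective with
range `fixG K M`, and `AlgEquiv.restrictNormalHom H`; `Gal(H/K)` is commutative): for every `t ∉ A`,
`π φ * π (t φ t⁻¹) = π c * π (t c t⁻¹) = π (t c t⁻¹)` (`π c = 1`: `H` is real at `ι`). With `artin_p` and
`artin_unique` (for `N f` instead of `N`: `absNorm (p) = p²` is prime to `N f`, `discr H ∣ discr M`):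
`R = π (t c t⁻¹)`. Given `g`: extend it to `M` (`IsAlgClosed.lift` or
`NumberField.Embeddings`..): `g = ι ∘ τ` on `H` for some `τ ∈ Gal(M/ℚ)` (`M/ℚ` is normal; see how this is
done in `StarkRQ/Oct/Final.lean` or `CMK/Core.lean`), `τ ∉ A` by `hg` and `hι₂`; take `t = τ⁻¹`:
`g (R y) = ι (τ (τ⁻¹ c τ y)) = ι (c (τ y)) = conj (g y)`.
-/

set_option autoImplicit false

noncomputable section

open NumberField Module Pool.Agent.StarkRQ

namespace Pool.Agent.HeckeRQ

/-- the commutator subgroup is contained in a subgroup of index 2 -/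
private theorem cj_comm_le {G : Type*} [Group G] {A : Subgroup G} (hA : A.index = 2) :
    commutator G ≤ A := by
  rw [commutator_def, Subgroup.commutator_le]
  intro g _ h _
  rw [commutatorElement_def, Subgroup.mul_mem_iff_of_index_two hA,
    Subgroup.mul_mem_iff_of_index_two hA, Subgroup.mul_mem_iff_of_index_two hA,
    inv_mem_iff, inv_mem_iff]
  tauto

/-- complex conjugation fixes a totally real field -/
private theorem cj_mem {M K : Type} [Field M] [NumberField M] [Field K] [NumberField K]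
    [Algebra K M] [IsTotallyReal K] {ι : M →+* ℂ} {c : Gal(M/ℚ)}
    (hc : ∀ x, ι (c x) = starRingEnd ℂ (ι x)) : c ∈ fixG K M := by
  rw [mem_fixG]
  intro x
  apply ι.injective
  rw [hc]
  have h := IsTotallyReal.complexEmbedding_isReal (ι.comp (algebraMap K M))
  rw [ComplexEmbedding.isReal_iff] at h
  have := congrArg (fun f : K →+* ℂ => f x) h
  simpa using this

/-- the action on a root of unity of the complex conjugation -/
private theorem cj_zeta {M : Type} [Field M] [NumberField M] {ι : M →+* ℂ} {c : Gal(M/ℚ)}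
    (hc : ∀ x, ι (c x) = starRingEnd ℂ (ι x)) {f : ℕ} (hf : f ≠ 0) {ζ : M} (hζ : ζ ^ f = 1) :
    c ζ = ζ⁻¹ := by
  apply ι.injective
  have h1 : (ι ζ) ^ f = 1 := by rw [← map_pow, hζ, map_one]
  have h2 : ‖ι ζ‖ = 1 := Complex.norm_eq_one_of_pow_eq_one h1 hf
  rw [hc, map_inv₀, Complex.inv_eq_conj h2]

/-- the action on a root of unity of a Frobenius element at `p ≡ -1` -/
private theorem cj_frob {M : Type} [Field M] [NumberField M] {f : ℕ} (hf : f ≠ 0) {ζ : M}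
    (hζ : IsPrimitiveRoot ζ f) {p : ℕ} (hp : p.Prime) (hpf : f ∣ p + 1) {Q : Ideal (𝓞 M)}
    [Q.IsPrime] (hpQ : (p : 𝓞 M) ∈ Q) {φ : Gal(M/ℚ)} (hφ : Cong φ Q p) : φ ζ = ζ⁻¹ := by
  have : NeZero f := ⟨hf⟩
  have hcop : p.Coprime f := by
    refine Nat.Coprime.coprime_dvd_right hpf ?_
    simp
  have h1 := chi_frob hζ hp hcop hpQ hφ
  have h2 := hζ.autToPow_spec ℚ φ
  have h3 : ζ ^ p = φ ζ := by
    rw [← h2]
    have h4 : IsOfFinOrder ζ :=
      isOfFinOrder_iff_pow_eq_one.2 ⟨f, Nat.pos_of_ne_zero hf, hζ.pow_eq_one⟩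
    rw [h4.pow_eq_pow_iff_modEq, ← hζ.eq_orderOf, ← ZMod.natCast_eq_natCast_iff,
      ZMod.natCast_zmod_val, h1]
  rw [← h3]
  apply eq_inv_of_mul_eq_one_left
  rw [← pow_succ]
  exact (hζ.pow_eq_one_iff_dvd _).2 hpf

/-- an automorphism that agrees with `c` on `ζ` agrees with it modulo the commutator subgroup -/
private theorem cj_modcomm {M : Type} [Field M] [NumberField M] [IsGalois ℚ M] {ζ : M}
    (hmax : ∀ x : M, (∀ σ τ : Gal(M/ℚ), σ (τ x) = τ (σ x)) → x ∈ IntermediateField.adjoin ℚ {ζ})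
    {φ c : Gal(M/ℚ)} (h : φ ζ = c ζ) : φ * c⁻¹ ∈ commutator Gal(M/ℚ) := by
  have key : ∀ x ∈ IntermediateField.adjoin ℚ {ζ}, φ x = c x := by
    intro x hx
    have h1 : IntermediateField.adjoin ℚ {ζ} ≤
        IntermediateField.fixedField (Subgroup.zpowers (c⁻¹ * φ)) := by
      rw [IntermediateField.adjoin_simple_le_iff]
      rintro ⟨g, hg⟩
      rw [Subgroup.mem_zpowers_iff] at hg
      obtain ⟨k, rfl⟩ := hg
      have h2 : (c⁻¹ * φ) • ζ = ζ := by
        change c⁻¹ (φ ζ) = ζ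
        rw [h]
        exact c.symm_apply_apply ζ
      have h3 : (c⁻¹ * φ) ∈ MulAction.stabilizer Gal(M/ℚ) ζ := h2
      exact (Subgroup.zpow_mem _ h3 k : _)
    have h2 := h1 hx ⟨c⁻¹ * φ, Subgroup.mem_zpowers _⟩
    have h3 : c⁻¹ (φ x) = x := h2
    calc φ x = c (c⁻¹ (φ x)) := (c.apply_symm_apply (φ x)).symm
      _ = c x := by rw [h3]
  have h1 : φ * c⁻¹ ∈
      (IntermediateField.fixedField (commutator Gal(M/ℚ))).fixingSubgroup := by
    rw [IntermediateField.mem_fixingSubgroup_iff]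
    intro x hx
    have hx' : ∀ g ∈ commutator Gal(M/ℚ), g x = x := fun g hg => hx ⟨g, hg⟩
    have hcomm : ∀ σ τ : Gal(M/ℚ), σ (τ x) = τ (σ x) := by
      intro σ τ
      have h2 : σ⁻¹ * τ⁻¹ * σ * τ ∈ commutator Gal(M/ℚ) := by
        have h3 := Subgroup.commutator_mem_commutator (H₁ := (⊤ : Subgroup Gal(M/ℚ)))
          (H₂ := ⊤) (Subgroup.mem_top σ⁻¹) (Subgroup.mem_top τ⁻¹)
        rw [commutatorElement_def, inv_inv, inv_inv] at h3
        exact h3
      have h3 := hx' _ h2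
      have h4 : (τ * σ) ((σ⁻¹ * τ⁻¹ * σ * τ) x) = (τ * σ) x := by rw [h3]
      have h5 : (τ * σ) ((σ⁻¹ * τ⁻¹ * σ * τ) x) = (τ * σ * (σ⁻¹ * τ⁻¹ * σ * τ)) x := rfl
      have h6 : τ * σ * (σ⁻¹ * τ⁻¹ * σ * τ) = σ * τ := by group
      rw [h5, h6] at h4
      exact h4
    have hx2 : c⁻¹ x ∈ IntermediateField.adjoin ℚ {ζ} := by
      apply hmax
      intro σ τ
      have h2 : σ (τ (c⁻¹ x)) = c⁻¹ ((σ * τ) x) := (hcomm (σ * τ) c⁻¹)
      have h3 : τ (σ (c⁻¹ x)) = c⁻¹ ((τ * σ) x) := (hcomm (τ * σ) c⁻¹)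
      rw [h2, h3]
      congr 1
      exact hcomm σ τ
    change φ (c⁻¹ x) = x
    rw [key _ hx2]
    exact c.apply_symm_apply x
  rwa [IntermediateField.fixingSubgroup_fixedField] at h1

theorem artin_conj' {M K H : Type} [Field M] [NumberField M] [IsGalois ℚ M] [Field K]
    [NumberField K] [Field H] [NumberField H] [Algebra K M] [Algebra K H] [Algebra H M]
    [IsScalarTower K H M] [IsTotallyReal K] (hK : finrank ℚ K = 2) [IsAbelianGalois K H]
    (ι : M →+* ℂ) (hH : ∀ y : H, (ι (algebraMap H M y)).im = 0) {f : ℕ} (hf : f ≠ 0) {ζ : M}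
    (hζ : IsPrimitiveRoot ζ f)
    (hmax : ∀ x : M, (∀ σ τ : Gal(M/ℚ), σ (τ x) = τ (σ x)) → x ∈ IntermediateField.adjoin ℚ {ζ})
    {N : ℕ} (hram : ∀ p : ℕ, p.Prime → (p : ℤ) ∣ discr M → p ∣ N * f) (hN : N ≠ 0) (ι₂ : K →+* ℝ)
    (hι₂ : ∃ x : K, ((ι₂ x : ℝ) : ℂ) ≠ ι (algebraMap K M x)) {R : Gal(H/K)}
    (hR : ∀ α : 𝓞 K, (N : 𝓞 K) ∣ α - 1 → ι₂ (α : K) < 0 → HasArtinSymbol (Ideal.span {α}) R)
    {g : H →+* ℂ} (hg : ∃ x : K, g (algebraMap K H x) ≠ ι (algebraMap K M x)) (y : H) :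
    g (R y) = starRingEnd ℂ (g y) := by
  classical
  have hKM : IsGalois K M := IsGalois.tower_top_of_isGalois ℚ K M
  -- the prime number
  have hNf : N * f ≠ 0 := mul_ne_zero hN hf
  have : NeZero (N * f) := ⟨hNf⟩
  obtain ⟨p, -, hp, hpm⟩ := Nat.forall_exists_prime_gt_and_eq_mod (q := N * f) (a := -1)
    isUnit_one.neg 0
  have hdvd : N * f ∣ p + 1 := by
    rw [← ZMod.natCast_eq_zero_iff]
    push_cast
    rw [hpm]
    ring
  have hpN : ¬ p ∣ N * f := by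
    intro h
    have h1 := h.trans hdvd
    have h2 := (Nat.dvd_add_right (dvd_refl p)).1 h1
    exact hp.one_lt.ne' (Nat.dvd_one.1 h2)
  have hpM : ¬ (p : ℤ) ∣ discr M := fun h => hpN (hram p hp h)
  have hramH : ∀ q : ℕ, q.Prime → (q : ℤ) ∣ discr H → q ∣ N * f := fun q hq h =>
    hram q hq (h.trans (discr_dvd_discr H M))
  -- the Artin symbol of `(-p)`
  have hR1 : HasArtinSymbol (Ideal.span {(p : 𝓞 K)}) R := by
    have h1 := hR (-(p : 𝓞 K)) (by
      obtain ⟨k, hk⟩ := (Dvd.intro f rfl : N ∣ N * f).trans hdvd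
      refine ⟨-(k : 𝓞 K), ?_⟩
      have h2 := congrArg (fun n : ℕ => (n : 𝓞 K)) hk
      push_cast at h2
      linear_combination -h2) (by
      have h2 : (((-(p : 𝓞 K) : 𝓞 K)) : K) = -(p : K) := by
        push_cast
        rfl
      rw [h2, map_neg, map_natCast]
      have : (0 : ℝ) < p := by exact_mod_cast hp.pos
      linarith)
    rwa [Ideal.span_singleton_neg] at h1
  obtain ⟨Q, hQ, hpQ⟩ := exists_prime_over (M := M) hp
  obtain ⟨φ, hφ⟩ := exists_cong hp hpQ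
  obtain ⟨c, hc⟩ := exists_cc ι
  have hcK : c ∈ fixG K M := cj_mem hc
  have hφc : φ ζ = c ζ := by
    rw [cj_frob hf hζ hp ((Dvd.intro_left N rfl).trans hdvd) hpQ hφ,
      cj_zeta hc hf hζ.pow_eq_one]
  have hmod := cj_modcomm hmax hφc
  have hA : (fixG K M).index = 2 := fixG_index (F := K) (M := M) hK
  have hφK : φ ∈ fixG K M := by
    have h1 := mul_mem (cj_comm_le hA hmod) hcK
    rwa [inv_mul_cancel_right] at h1
  -- the restriction to `H`
  let e : Gal(M/K) ≃* fixG K M := MonoidHom.ofInjective (toG_injective (F := K) (M := M))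
  let _ : CommGroup Gal(H/K) := { (inferInstance : Group Gal(H/K)) with mul_comm := mul_comm' }
  let π : fixG K M →* Gal(H/K) := (AlgEquiv.restrictNormalHom H).comp e.symm.toMonoidHom
  have hπ : ∀ ψ : Gal(M/K), ∀ a (ha : a ∈ fixG K M), toG K M ψ = a →
      π ⟨a, ha⟩ = AlgEquiv.restrictNormalHom H ψ := by
    intro ψ a ha h
    have h1 : e.symm ⟨a, ha⟩ = ψ := by
      rw [MulEquiv.symm_apply_eq]
      exact Subtype.ext h.symm
    change AlgEquiv.restrictNormalHom H (e.symm ⟨a, ha⟩) = _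
    rw [h1]
  have hπa : ∀ a (ha : a ∈ fixG K M) (z : H),
      algebraMap H M ((π ⟨a, ha⟩) z) = a (algebraMap H M z) := by
    intro a ha z
    obtain ⟨ψ, hψ⟩ := id ha
    rw [hπ ψ a ha hψ, ← hψ]
    exact AlgEquiv.restrictNormal_commutes ψ H z
  have hnorm : (fixG K M).Normal := Subgroup.normal_of_index_eq_two hA
  have hRt : ∀ t : Gal(M/ℚ), t ∉ fixG K M → ∀ z : H,
      algebraMap H M (R z) = (t * c * t⁻¹) (algebraMap H M z) := by
    intro t ht z
    have hcK' := hnorm.conj_mem c hcK t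
    have hφK' := hnorm.conj_mem φ hφK t
    have h1 := transfer_two (fixG K M) hA π ht hφK hcK hφK' hcK' hmod
    obtain ⟨ψ, hψ⟩ := id hφK
    obtain ⟨ψ', hψ'⟩ := id hφK'
    have h2 := artin_p (H := H) hK hp hpM hpQ hφ ht hψ hψ'
    rw [← hπ ψ φ hφK hψ, ← hπ ψ' _ hφK' hψ'] at h2
    have h3 : π ⟨c, hcK⟩ = 1 := by
      ext w
      apply (algebraMap H M).injective
      rw [hπa]
      apply ι.injective
      rw [hc]
      exact Complex.conj_eq_iff_im.2 (hH w)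
    have h4 : R = π ⟨φ, hφK⟩ * π ⟨t * φ * t⁻¹, hφK'⟩ := by
      refine artin_unique hramH ?_ hR1 h2
      rw [Ideal.absNorm_span_natCast, RingOfIntegers.rank, hK]
      exact Nat.Coprime.pow_left 2 ((Nat.Prime.coprime_iff_not_dvd hp).2 hpN)
    have h5 : R = π ⟨t * c * t⁻¹, hcK'⟩ := by
      rw [h4]
      refine Eq.trans h1 ?_
      rw [h3]
      exact one_mul _
    rw [h5, hπa]
  -- the embedding `g`
  obtain ⟨γ, hγ⟩ : ∃ γ : Gal(M/ℚ), ∀ y : H, g y = ι (γ (algebraMap H M y)) := by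
    let _ : Algebra H ℂ := g.toAlgebra
    have : Algebra.IsAlgebraic H M := Algebra.IsAlgebraic.of_finite H M
    obtain ⟨γ, hγ⟩ := exists_comp ι (IsAlgClosed.lift : M →ₐ[H] ℂ).toRingHom
    refine ⟨γ, fun y => ?_⟩
    rw [← hγ]
    exact ((IsAlgClosed.lift : M →ₐ[H] ℂ).commutes y).symm
  have hγK : γ ∉ fixG K M := by
    intro h
    rw [mem_fixG] at h
    obtain ⟨x₀, hx₀⟩ := hg
    apply hx₀
    rw [hγ, ← IsScalarTower.algebraMap_apply, h]
  have hγK' : γ⁻¹ ∉ fixG K M := fun h => hγK (inv_mem_iff.1 h)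
  rw [hγ, hγ, hRt γ⁻¹ hγK' y, ← hc]
  congr 1
  change (γ * (γ⁻¹ * c * γ⁻¹⁻¹)) (algebraMap H M y) = (c * γ) (algebraMap H M y)
  congr 1
  group

theorem artin_conj {M K H : Type} [Field M] [NumberField M] [IsGalois ℚ M] [Field K]
    [NumberField K] [Field H] [NumberField H] [Algebra K M] [Algebra K H] [Algebra H M]
    [IsScalarTower K H M] [IsTotallyReal K] (hK : finrank ℚ K = 2) [IsAbelianGalois K H]
    (ι : M →+* ℂ) (hH : ∀ y : H, (ι (algebraMap H M y)).im = 0) {f : ℕ} (hf : f ≠ 0) {ζ : M}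
    (hζ : IsPrimitiveRoot ζ f)
    (hmax : ∀ x : M, (∀ σ τ : Gal(M/ℚ), σ (τ x) = τ (σ x)) → x ∈ IntermediateField.adjoin ℚ {ζ})
    (hram : ∀ p : ℕ, p.Prime → (p : ℤ) ∣ discr M → p ∣ f) {N : ℕ} (hN : N ≠ 0) (ι₂ : K →+* ℝ)
    (hι₂ : ∃ x : K, ((ι₂ x : ℝ) : ℂ) ≠ ι (algebraMap K M x)) {R : Gal(H/K)}
    (hR : ∀ α : 𝓞 K, (N : 𝓞 K) ∣ α - 1 → ι₂ (α : K) < 0 → HasArtinSymbol (Ideal.span {α}) R)
    {g : H →+* ℂ} (hg : ∃ x : K, g (algebraMap K H x) ≠ ι (algebraMap K M x)) (y : H) :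
    g (R y) = starRingEnd ℂ (g y) :=
  artin_conj' hK ι hH hf hζ hmax (fun p hp h => (hram p hp h).trans (Dvd.intro_left N rfl)) hN ι₂ hι₂
    hR hg y

end Pool.Agent.HeckeRQ
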