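import Pool.Agent.HeckeRQ.Hecke

/-!
# HQ26: the literal form of the question
-/

set_option autoImplicit false

noncomputable section

open NumberField Module Pool.Agent.StarkRQ

namespace Pool.Agent.HeckeRQ

theorem exists_embedding_over {K H : Type} [Field K] [NumberField K] [Field H] [NumberField H]
    [Algebra K H] (ι₂ : K →+* ℝ) : ∃ g : H →+* ℂ, ∀ x : K, g (algebraMap K H x) = ((ι₂ x : ℝ) : ℂ) := by
  letI : Algebra K ℂ := (Complex.ofRealHom.comp ι₂).toAlgebra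
  have : Algebra.IsAlgebraic K H := Algebra.IsAlgebraic.of_finite K H
  let g : H →ₐ[K] ℂ := IsAlgClosed.lift
  exact ⟨g.toRingHom, fun x => g.commutes x⟩

theorem exists_real_embedding {K H : Type} [Field K] [NumberField K] [Field H] [NumberField H]
    [Algebra K H] (i : H →+* ℂ) (hi : ∀ y, (i y).im = 0) :
    ∃ ι₁ : K →+* ℝ, ∀ x : K, ((ι₁ x : ℝ) : ℂ) = i (algebraMap K H x) := by
  have h : ComplexEmbedding.IsReal (i.comp (algebraMap K H)) := by
    rw [ComplexEmbedding.isReal_iff]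
    ext x
    rw [ComplexEmbedding.conjugate_coe_eq]
    exact Complex.conj_eq_iff_im.2 (hi _)
  exact ⟨h.embedding, fun x => h.coe_embedding_apply x⟩

/-- The partial zeta functions of `H/K`, modulus `N ∞₂`, if the elements `R` with the property of
`exists_R` act as complex conjugation at the embeddings over `∞₂`. -/
theorem literal {K H : Type} [Field K] [NumberField K] [Field H] [NumberField H] [Algebra K H]
    [IsAbelianGalois K H] (hK : finrank ℚ K = 2) (i : H →+* ℂ) (hi : ∀ y, (i y).im = 0)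
    {ι₂ : K →+* ℝ} (hι₂ : ∃ x : K, ((ι₂ x : ℝ) : ℂ) ≠ i (algebraMap K H x)) {N : ℕ} (hN : 3 ≤ N)
    (hram : ∀ p : ℕ, p.Prime → (p : ℤ) ∣ discr H → p ∣ N)
    (hmod : ∀ α : 𝓞 K, (N : 𝓞 K) ∣ α - 1 → 0 < ι₂ (α : K) →
      HasArtinSymbol (Ideal.span {α}) (1 : Gal(H/K)))
    (hconj : ∀ R : Gal(H/K), (∀ α : 𝓞 K, (N : 𝓞 K) ∣ α - 1 → ι₂ (α : K) < 0 →
        HasArtinSymbol (Ideal.span {α}) R) →
      ∀ g : H →+* ℂ, (∃ x : K, g (algebraMap K H x) ≠ i (algebraMap K H x)) →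
        ∀ y, g (R y) = starRingEnd ℂ (g y)) :
    ∃ G : Gal(H/K) → ℂ → ℂ, (∀ σ, IsPartialZeta N σ (G σ)) ∧
      ∀ R : Gal(H/K), (∀ g : H →+* ℂ, (∃ x : K, g (algebraMap K H x) ≠ i (algebraMap K H x)) →
        ∀ y, g (R y) = starRingEnd ℂ (g y)) →
      ∀ σ, G σ 0 + G (R * σ) 0 = 0 ∧ deriv (G σ) 0 + deriv (G (R * σ)) 0 = 0 := by
  obtain ⟨ι₁, hι₁⟩ := exists_real_embedding (K := K) i hi
  have hι : ι₁ ≠ ι₂ := by
    rintro rfl
    obtain ⟨x, hx⟩ := hι₂
    exact hx (hι₁ x)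
  obtain ⟨R', -, hR', hZ, hsum⟩ := hecke hK hι hN hram hmod
  choose G hG using hZ
  refine ⟨G, hG, fun R hR σ => ?_⟩
  obtain ⟨g, hg⟩ := exists_embedding_over (H := H) ι₂
  have hg' : ∃ x : K, g (algebraMap K H x) ≠ i (algebraMap K H x) := by
    obtain ⟨x, hx⟩ := hι₂
    exact ⟨x, by rw [hg]; exact hx⟩
  have hRR : R = R' := by
    ext y
    apply g.injective
    rw [hR g hg' y, hconj R' hR' g hg' y]
  rw [hRR]
  exact hsum σ _ _ (hG _) (hG _)

end Pool.Agent.HeckeRQ
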