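import Pool.Agent.StarkRQ.ArtSpec

/-!
# HQ15: Artin symbols of `H/K` (`H` is not assumed to be Galois over `ℚ`)

`artin_mul`, `artin_one`: append the lists, the empty list. `exists_isFrob_HK`: for a nonzero prime `𝔮` of `K`
choose a prime `P` of `H` over `𝔮` (`Ideal.exists_ideal_over_prime..`) and a Frobenius element of `Gal(H/K)`
at `P`: Mathlib `IsArithFrobAt.exists_of_isInvariant` / `AlgHom.IsArithFrobAt`, `arithFrobAt` (see how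
`exists_cong_over` in `StarkRQ` is proved); `Nat.card (𝓞 K ⧸ P.under (𝓞 K)) = absNorm 𝔮`.
`isFrob_unique`: two Frobenius elements at primes `P`, `P'` over `𝔮`: `Gal(H/K)` acts transitively on the primes over
`𝔮` (`Ideal.exists_smul_eq_of_under_eq` / `IsGaloisGroup` API), conjugation is trivial (abelian), so both
are Frobenius elements at `P'`, and `H/K` is unramified at `P'` (the prime `p ∈ P'` divides `absNorm 𝔮`, prime to
`N`, so it does not divide `discr H`): copy `restrict_unique` and the end of `restrict_frob_eq` of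
`StarkRQ/Restrict.lean`. `artin_exists`: factor `𝔞`. `artin_unique`: as `artSpec_unique` in
`StarkRQ/ArtSpec.lean` (`(normalizedFactors 𝔞).map fr`). Then `art` (a choice) is as stated.
-/

set_option autoImplicit false

noncomputable section

open NumberField Module Pool.Agent.StarkRQ

namespace Pool.Agent.HeckeRQ

variable {K H : Type} [Field K] [NumberField K] [Field H] [NumberField H] [Algebra K H]

theorem artin_mul {𝔞 𝔟 : Ideal (𝓞 K)} {σ τ : Gal(H/K)} (h : HasArtinSymbol 𝔞 σ)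
    (h' : HasArtinSymbol 𝔟 τ) : HasArtinSymbol (𝔞 * 𝔟) (σ * τ) := by
  obtain ⟨l, hl, hp, hs⟩ := h
  obtain ⟨l', hl', hp', hs'⟩ := h'
  refine ⟨l ++ l', ?_, ?_, ?_⟩
  · intro x hx
    rcases List.mem_append.1 hx with h | h
    · exact hl x h
    · exact hl' x h
  · rw [List.map_append, List.prod_append, hp, hp']
  · rw [List.map_append, List.prod_append, hs, hs']

theorem artin_top : HasArtinSymbol (⊤ : Ideal (𝓞 K)) (1 : Gal(H/K)) := by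
  refine ⟨[], ?_, ?_, ?_⟩
  · intro x hx
    exact absurd hx List.not_mem_nil
  · rw [List.map_nil, List.prod_nil, Ideal.one_eq_top]
  · rw [List.map_nil, List.prod_nil]

theorem artin_ne_bot {𝔞 : Ideal (𝓞 K)} {σ : Gal(H/K)} (h : HasArtinSymbol 𝔞 σ) : 𝔞 ≠ ⊥ := by
  obtain ⟨l, hl, hp, -⟩ := h
  rw [← hp, ← Ideal.zero_eq_bot]
  intro h0
  rw [List.prod_eq_zero_iff, List.mem_map] at h0
  obtain ⟨x, hx, h1⟩ := h0
  exact (hl x hx).2.1 (by rw [h1, Ideal.zero_eq_bot])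

/-- Uniqueness of the Frobenius element at an unramified prime. -/
private theorem artHK_unique [IsGalois K H] {𝔮 : Ideal (𝓞 K)} {P : Ideal (𝓞 H)} [P.IsPrime]
    [Algebra.IsUnramifiedAt ℤ P] (hP : P.comap (algebraMap (𝓞 K) (𝓞 H)) = 𝔮) {σ σ' : Gal(H/K)}
    (h : ∀ x : 𝓞 H, σ • x - x ^ Ideal.absNorm 𝔮 ∈ P)
    (h' : ∀ x : 𝓞 H, σ' • x - x ^ Ideal.absNorm 𝔮 ∈ P) : σ = σ' := by
  have hu : Algebra.IsUnramifiedAt (𝓞 K) P := Algebra.IsUnramifiedAt.of_restrictScalars ℤ P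
  have hcard : Nat.card (𝓞 K ⧸ P.under (𝓞 K)) = Ideal.absNorm 𝔮 := by
    rw [Ideal.under_def, hP]
    rfl
  have hcomm : SMulCommClass Gal(H/K) (𝓞 K) (𝓞 H) := IsGaloisGroup.commutes
  have hfaith : FaithfulSMul Gal(H/K) (𝓞 H) := IsGaloisGroup.faithful (𝓞 K)
  have h1 : IsArithFrobAt (𝓞 K) σ P := by
    intro x
    rw [hcard]
    exact h x
  have h2 : IsArithFrobAt (𝓞 K) σ' P := by
    intro x
    rw [hcard]
    exact h' x
  have h3 := AlgHom.IsArithFrobAt.eq_of_isUnramifiedAt h1 h2 P.primeCompl_le_nonZeroDivisors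
  have h4 : ∀ x : 𝓞 H, σ • x = σ' • x := fun x => congrArg (fun f => f x) h3
  exact FaithfulSMul.eq_of_smul_eq_smul (α := 𝓞 H) h4

/-- a prime number in a prime ideal which does not divide the discriminant of `H` -/
private theorem artHK_unram {N : ℕ} (hram : ∀ p : ℕ, p.Prime → (p : ℤ) ∣ discr H → p ∣ N)
    {𝔮 : Ideal (𝓞 K)} (h𝔮 : 𝔮.IsPrime) (h0 : 𝔮 ≠ ⊥) (hN : (Ideal.absNorm 𝔮).Coprime N)
    {P : Ideal (𝓞 H)} [hP : P.IsPrime] (hP𝔮 : P.comap (algebraMap (𝓞 K) (𝓞 H)) = 𝔮) :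
    Algebra.IsUnramifiedAt ℤ P := by
  obtain ⟨p, hp, hp𝔮⟩ : ∃ p ∈ (Ideal.absNorm 𝔮).primeFactorsList, (p : 𝓞 K) ∈ 𝔮 := by
    have h1 : ((Ideal.absNorm 𝔮 : ℕ) : 𝓞 K) ∈ 𝔮 := Ideal.absNorm_mem 𝔮
    have hne : Ideal.absNorm 𝔮 ≠ 0 := by
      rw [Ne, Ideal.absNorm_eq_zero_iff]
      exact h0
    rw [← Nat.prod_primeFactorsList hne, Nat.cast_list_prod, ← Multiset.prod_coe,
      h𝔮.multiset_prod_mem_iff_exists_mem] at h1
    obtain ⟨a, ha, ha𝔮⟩ := h1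
    rw [Multiset.mem_coe, List.mem_map] at ha
    obtain ⟨p, hp, rfl⟩ := ha
    exact ⟨p, hp, ha𝔮⟩
  have hpp : p.Prime := Nat.prime_of_mem_primeFactorsList hp
  have hpn : p ∣ Ideal.absNorm 𝔮 := Nat.dvd_of_mem_primeFactorsList hp
  have hpH : ¬ (p : ℤ) ∣ discr H := by
    intro h
    exact hpp.one_lt.ne' (Nat.eq_one_of_dvd_coprimes hN hpn (hram p hpp h))
  refine (not_dvd_discr_iff_forall_mem H (𝓞 H) (Nat.prime_iff_prime_int.1 hpp)).1 hpH P hP ?_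
  rw [← hP𝔮, Ideal.mem_comap, map_natCast] at hp𝔮
  rw [Int.cast_natCast]
  exact hp𝔮

variable [IsAbelianGalois K H]

private theorem artHK_comm (σ τ : Gal(H/K)) : σ * τ = τ * σ := IsMulCommutative.is_comm.comm σ τ

open Pointwise in
private theorem artHK_isFrob_unique {N : ℕ}
    (hram : ∀ p : ℕ, p.Prime → (p : ℤ) ∣ discr H → p ∣ N) {𝔮 : Ideal (𝓞 K)} (h𝔮 : 𝔮.IsPrime)
    (h0 : 𝔮 ≠ ⊥) (hN : (Ideal.absNorm 𝔮).Coprime N) {ψ ψ' : Gal(H/K)} (h : IsFrob 𝔮 ψ)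
    (h' : IsFrob 𝔮 ψ') : ψ = ψ' := by
  obtain ⟨Q, hQ, hQ𝔮, hc⟩ := h
  obtain ⟨Q', hQ', hQ'𝔮, hc'⟩ := h'
  have h1 : Cong (toG K H ψ) Q (Ideal.absNorm 𝔮) := hc
  obtain ⟨ρ, hρ⟩ := exists_smul_eq_over hQ𝔮 hQ'𝔮
  have h3 := h1.conj (toG K H ρ)
  rw [hρ, ← map_inv, ← map_mul, ← map_mul, artHK_comm ρ ψ, mul_inv_cancel_right] at h3
  have := artHK_unram hram h𝔮 h0 hN hQ'𝔮
  exact artHK_unique hQ'𝔮 h3 hc'

private theorem artHK_exists_isFrob {𝔮 : Ideal (𝓞 K)} (h𝔮 : 𝔮.IsPrime) (h0 : 𝔮 ≠ ⊥) :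
    ∃ ψ : Gal(H/K), IsFrob 𝔮 ψ := by
  obtain ⟨Q, hQ, hQ𝔮⟩ := exists_over (M := H) 𝔮
  obtain ⟨ψ, hψ⟩ := exists_cong_over h0 hQ𝔮
  exact ⟨ψ, Q, hQ, hQ𝔮, hψ⟩

theorem artin_exists {𝔞 : Ideal (𝓞 K)} (h0 : 𝔞 ≠ ⊥) : ∃ σ : Gal(H/K), HasArtinSymbol 𝔞 σ := by
  classical
  let fr : Ideal (𝓞 K) → Gal(H/K) := fun 𝔮 =>
    if h : 𝔮.IsPrime ∧ 𝔮 ≠ ⊥ then (artHK_exists_isFrob (H := H) h.1 h.2).choose else 1
  have hfr : ∀ 𝔮 : Ideal (𝓞 K), 𝔮.IsPrime → 𝔮 ≠ ⊥ → IsFrob 𝔮 (fr 𝔮) := by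
    intro 𝔮 h1 h2
    have h3 : 𝔮.IsPrime ∧ 𝔮 ≠ ⊥ := ⟨h1, h2⟩
    simp only [fr, dif_pos h3]
    exact (artHK_exists_isFrob (H := H) h3.1 h3.2).choose_spec
  let l : List (Ideal (𝓞 K)) := (UniqueFactorizationMonoid.normalizedFactors 𝔞).toList
  refine ⟨_, l.map (fun 𝔮 => (𝔮, fr 𝔮)), ?_, ?_, rfl⟩
  · intro x hx
    obtain ⟨𝔮, hq, rfl⟩ := List.mem_map.1 hx
    have h1 := UniqueFactorizationMonoid.prime_of_normalized_factor 𝔮 (Multiset.mem_toList.1 hq)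
    have h2 := Ideal.isPrime_of_prime h1
    exact ⟨h2, h1.ne_zero, hfr 𝔮 h2 h1.ne_zero⟩
  · rw [List.map_map]
    have h1 : (Prod.fst ∘ fun 𝔮 : Ideal (𝓞 K) => (𝔮, fr 𝔮)) = id := rfl
    rw [h1, List.map_id, Multiset.prod_toList]
    exact (UniqueFactorizationMonoid.prod_normalizedFactors_eq h0).trans (normalize_eq 𝔞)

theorem artin_unique {N : ℕ} (hram : ∀ p : ℕ, p.Prime → (p : ℤ) ∣ discr H → p ∣ N)
    {𝔞 : Ideal (𝓞 K)} (hN : (Ideal.absNorm 𝔞).Coprime N) {σ τ : Gal(H/K)}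
    (h : HasArtinSymbol 𝔞 σ) (h' : HasArtinSymbol 𝔞 τ) : σ = τ := by
  classical
  let fr : Ideal (𝓞 K) → Gal(H/K) := fun 𝔮 =>
    if h : 𝔮.IsPrime ∧ 𝔮 ≠ ⊥ then (artHK_exists_isFrob (H := H) h.1 h.2).choose else 1
  have hfr : ∀ 𝔮 : Ideal (𝓞 K), 𝔮.IsPrime → 𝔮 ≠ ⊥ → IsFrob 𝔮 (fr 𝔮) := by
    intro 𝔮 h1 h2
    have h3 : 𝔮.IsPrime ∧ 𝔮 ≠ ⊥ := ⟨h1, h2⟩
    simp only [fr, dif_pos h3]
    exact (artHK_exists_isFrob (H := H) h3.1 h3.2).choose_spec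
  have key : ∀ l : List (Ideal (𝓞 K) × Gal(H/K)),
      (∀ x ∈ l, x.1.IsPrime ∧ x.1 ≠ ⊥ ∧ IsFrob x.1 x.2) → (l.map Prod.fst).prod = 𝔞 →
      l.map Prod.snd = (l.map Prod.fst).map fr := by
    intro l hl hp
    rw [List.map_map]
    refine List.map_congr_left fun x hx => ?_
    obtain ⟨h1, h2, h3⟩ := hl x hx
    refine artHK_isFrob_unique hram h1 h2 ?_ h3 (hfr _ h1 h2)
    refine Nat.Coprime.coprime_dvd_left ?_ hN
    apply Ideal.absNorm_dvd_absNorm_of_le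
    rw [← Ideal.dvd_iff_le, ← hp]
    exact List.dvd_prod (List.mem_map_of_mem hx)
  obtain ⟨l, hl, hp, rfl⟩ := h
  obtain ⟨l', hl', hp', rfl⟩ := h'
  rw [key l hl hp, key l' hl' hp']
  have hperm : (l.map Prod.fst).Perm (l'.map Prod.fst) := by
    apply perm_of_prod_eq_prod (hp.trans hp'.symm)
    · intro q hq
      obtain ⟨x, hx, rfl⟩ := List.mem_map.1 hq
      exact Ideal.prime_of_isPrime (hl x hx).2.1 (hl x hx).1
    · intro q hq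
      obtain ⟨x, hx, rfl⟩ := List.mem_map.1 hq
      exact Ideal.prime_of_isPrime (hl' x hx).2.1 (hl' x hx).1
  refine (hperm.map fr).prod_eq' ?_
  exact List.pairwise_of_forall (fun a b => artHK_comm a b)

theorem artin_iff {N : ℕ} (hram : ∀ p : ℕ, p.Prime → (p : ℤ) ∣ discr H → p ∣ N)
    {𝔞 : Ideal (𝓞 K)} (h0 : 𝔞 ≠ ⊥) (hN : (Ideal.absNorm 𝔞).Coprime N) (σ : Gal(H/K)) :
    HasArtinSymbol 𝔞 σ ↔ σ = art 𝔞 := by
  have h1 : ∃ σ : Gal(H/K), HasArtinSymbol 𝔞 σ := artin_exists h0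
  have h2 : HasArtinSymbol 𝔞 (art 𝔞 : Gal(H/K)) := by
    rw [art, dif_pos h1]
    exact h1.choose_spec
  constructor
  · intro h
    exact artin_unique hram hN h h2
  · intro h
    rw [h]
    exact h2

end Pool.Agent.HeckeRQ
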