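import Pool.Agent.HeckeRQ.ConjA

/-!
# `R` is the complex conjugation at the places over `∞₂`, for `M` abelian over `K` and over `k`
-/

set_option autoImplicit false

noncomputable section

open NumberField Module Pool.Agent.StarkRQ

namespace Pool.Agent.HeckeRQ

theorem artin_conj_s {M K k H : Type} [Field M] [NumberField M] [IsGalois ℚ M] [Field K]
    [NumberField K] [Field k] [NumberField k] [Field H] [NumberField H] [Algebra K M] [Algebra k M]
    [Algebra K H] [Algebra H M] [IsScalarTower K H M] [IsTotallyReal K] [IsTotallyComplex k]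
    (hK : finrank ℚ K = 2) (hk : finrank ℚ k = 2) [IsAbelianGalois K M] [IsAbelianGalois k M]
    [IsAbelianGalois K H] (ι : M →+* ℂ) (hH : ∀ y : H, (ι (algebraMap H M y)).im = 0)
    {N : ℕ} (hram : ∀ p : ℕ, p.Prime → (p : ℤ) ∣ discr M → p ∣ N) (hN : N ≠ 0)
    (hmod : ∀ a : 𝓞 k, a ≠ 0 → (N : 𝓞 k) ∣ a - 1 →
      HasArtinSymbol (Ideal.span {a}) (1 : Gal(M/k))) (ι₂ : K →+* ℝ)
    (hι₂ : ∃ x : K, ((ι₂ x : ℝ) : ℂ) ≠ ι (algebraMap K M x)) {R : Gal(H/K)}
    (hR : ∀ α : 𝓞 K, (N : 𝓞 K) ∣ α - 1 → ι₂ (α : K) < 0 → HasArtinSymbol (Ideal.span {α}) R)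
    {g : H →+* ℂ} (hg : ∃ x : K, g (algebraMap K H x) ≠ ι (algebraMap K M x)) (y : H) :
    g (R y) = starRingEnd ℂ (g y) := by
  classical
  obtain ⟨D₁, hD₁, hm1⟩ := exists_mod_neg (M := M) (F := K) hK
  obtain ⟨D₂, hD₂, hm2⟩ := exists_mod_neg (M := M) (F := k) hk
  -- the prime number
  have hND : N * (D₁ * D₂) ≠ 0 := mul_ne_zero hN (mul_ne_zero hD₁ hD₂)
  have : NeZero (N * (D₁ * D₂)) := ⟨hND⟩
  obtain ⟨p, -, hp, hpm⟩ := Nat.forall_exists_prime_gt_and_eq_mod (q := N * (D₁ * D₂)) (a := -1)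
    isUnit_one.neg 0
  have hdvd : N * (D₁ * D₂) ∣ p + 1 := by
    rw [← ZMod.natCast_eq_zero_iff]
    push_cast
    rw [hpm]
    ring
  have hdN : N ∣ p + 1 := (Dvd.intro _ rfl).trans hdvd
  have hd1 : D₁ ∣ p + 1 := ((Dvd.intro _ rfl).trans (Dvd.intro_left _ rfl)).trans hdvd
  have hd2 : D₂ ∣ p + 1 := ((Dvd.intro_left _ rfl).trans (Dvd.intro_left _ rfl)).trans hdvd
  have hpN : ¬ p ∣ N := by
    intro h
    have h1 := h.trans hdN
    have h2 := (Nat.dvd_add_right (dvd_refl p)).1 h1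
    exact hp.one_lt.ne' (Nat.dvd_one.1 h2)
  have hpM : ¬ (p : ℤ) ∣ discr M := fun h => hpN (hram p hp h)
  have hpN' : p.Coprime N := (Nat.Prime.coprime_iff_not_dvd hp).2 hpN
  have hramH : ∀ q : ℕ, q.Prime → (q : ℤ) ∣ discr H → q ∣ N := fun q hq h =>
    hram q hq (h.trans (discr_dvd_discr H M))
  -- the Artin symbol of `(-p)`
  have hR1 : HasArtinSymbol (Ideal.span {(p : 𝓞 K)}) R := by
    have h1 := hR (-(p : 𝓞 K)) (by
      obtain ⟨k, hk⟩ := hdN
      refine ⟨-(k : 𝓞 K), ?_⟩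
      have h2 := congrArg (fun n : ℕ => (n : 𝓞 K)) hk
      push_cast at h2
      linear_combination -h2) (by
      have h2 : (((-(p : 𝓞 K) : 𝓞 K)) : K) = -(p : K) := by
        push_cast
        rfl
      rw [h2, map_neg, map_natCast]
      have : (0 : ℝ) < p := by exact_mod_cast hp.pos
      linarith)
    rwa [Ideal.span_singleton_neg] at h1
  have hk1 : HasArtinSymbol (Ideal.span {(p : 𝓞 k)}) (1 : Gal(M/k)) := by
    have h1 := hmod (-(p : 𝓞 k)) (by
      rw [neg_ne_zero]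
      exact_mod_cast hp.ne_zero) (by
      obtain ⟨j, hj⟩ := hdN
      refine ⟨-(j : 𝓞 k), ?_⟩
      have h2 := congrArg (fun n : ℕ => (n : 𝓞 k)) hj
      push_cast at h2
      linear_combination -h2)
    rwa [Ideal.span_singleton_neg] at h1
  obtain ⟨Q, hQ, hpQ⟩ := exists_prime_over (M := M) hp
  obtain ⟨φ, hφ⟩ := exists_cong hp hpQ
  obtain ⟨c, hc⟩ := exists_cc ι
  have hcK : c ∈ fixG K M := by
    rw [mem_fixG]
    intro x
    apply ι.injective
    rw [hc]
    have h := IsTotallyReal.complexEmbedding_isReal (ι.comp (algebraMap K M))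
    rw [ComplexEmbedding.isReal_iff] at h
    have := congrArg (fun f : K →+* ℂ => f x) h
    simpa using this
  have hck : c ∉ fixG k M := by
    intro h1
    rw [mem_fixG] at h1
    have h := IsTotallyComplex.complexEmbedding_not_isReal (ι.comp (algebraMap k M))
    apply h
    rw [ComplexEmbedding.isReal_iff]
    ext x
    change starRingEnd ℂ (ι (algebraMap k M x)) = ι (algebraMap k M x)
    rw [← hc, h1]
  have hφK : φ ∈ fixG K M := (hm1 ι c hc p hp hd1 Q hpQ φ hφ).2 hcK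
  have hφk : φ ∉ fixG k M := fun h => hck ((hm2 ι c hc p hp hd2 Q hpQ φ hφ).1 h)
  have hA : (fixG K M).index = 2 := fixG_index (F := K) (M := M) hK
  have hB : (fixG k M).index = 2 := fixG_index (F := k) (M := M) hk
  -- squares
  have hφ2 : φ ^ 2 = 1 := by
    have hab : ∀ σ τ : Gal(M/k), σ * τ = τ * σ := fun σ τ => mul_comm' σ τ
    rw [← art_inert hk hab hram hp hpN' hpQ hφ hφk]
    have h1 : (1 : Gal(M/k)) = art (Ideal.span {(p : 𝓞 k)}) := by
      have h2 := (art_spec (F := k) (M := M) hab hram (𝔞 := Ideal.span {(p : 𝓞 k)}) ?_ ?_ 1).1 hk1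
      · exact h2
      · rw [Ne, Ideal.span_singleton_eq_bot]
        exact_mod_cast hp.ne_zero
      · rw [Ideal.absNorm_span_natCast]
        exact Nat.Coprime.pow_left _ hpN'
    rw [← h1, map_one]
  have hc2 : c * c = 1 := by
    ext x
    apply ι.injective
    change ι (c (c x)) = ι x
    rw [hc, hc, Complex.conj_conj]
  have hcommK : ∀ a b : Gal(M/ℚ), a ∈ fixG K M → b ∈ fixG K M → a * b = b * a := by
    rintro _ _ ⟨a, rfl⟩ ⟨b, rfl⟩
    rw [← map_mul, ← map_mul, mul_comm']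
  have hcommk : ∀ a b : Gal(M/ℚ), a ∈ fixG k M → b ∈ fixG k M → a * b = b * a := by
    rintro _ _ ⟨a, rfl⟩ ⟨b, rfl⟩
    rw [← map_mul, ← map_mul, mul_comm']
  -- `s = c φ`
  obtain ⟨s, hs⟩ : ∃ s, s = c * φ := ⟨_, rfl⟩
  have hsK : s ∈ fixG K M := hs ▸ mul_mem hcK hφK
  have hsk : s ∈ fixG k M := by
    rw [hs, Subgroup.mul_mem_iff_of_index_two hB]
    tauto
  have hφs : φ = c * s := by
    rw [hs, ← mul_assoc, hc2, one_mul]
  have hss : s * s = 1 := by
    have h1 : s * s = (c * c) * (φ * φ) := by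
      rw [hs]
      have h2 := hcommK φ c hφK hcK
      calc c * φ * (c * φ) = c * (φ * c) * φ := by group
        _ = c * (c * φ) * φ := by rw [h2]
        _ = (c * c) * (φ * φ) := by group
    rw [h1, hc2, ← pow_two, hφ2, one_mul]
  have hst : ∀ t : Gal(M/ℚ), t ∉ fixG K M → t * s = s * t := by
    intro t ht
    by_cases htk : t ∈ fixG k M
    · exact hcommk t s htk hsk
    · have h1 : t * c ∈ fixG k M := by
        rw [Subgroup.mul_mem_iff_of_index_two hB]
        tauto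
      have h2 := hcommk _ _ h1 hsk
      have h3 := hcommK c s hcK hsK
      have h4 : t = t * c * c := by rw [mul_assoc, hc2, mul_one]
      calc t * s = t * c * c * s := by rw [← h4]
        _ = t * c * (c * s) := by group
        _ = t * c * (s * c) := by rw [h3]
        _ = (t * c * s) * c := by group
        _ = (s * (t * c)) * c := by rw [h2]
        _ = s * (t * c * c) := by group
        _ = s * t := by rw [← h4]
  -- the restriction to `H`
  let e : Gal(M/K) ≃* fixG K M := MonoidHom.ofInjective (toG_injective (F := K) (M := M))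
  let _ : CommGroup Gal(H/K) := { (inferInstance : Group Gal(H/K)) with mul_comm := mul_comm' }
  let π : fixG K M →* Gal(H/K) := (AlgEquiv.restrictNormalHom H).comp e.symm.toMonoidHom
  have hπ : ∀ ψ : Gal(M/K), ∀ a (ha : a ∈ fixG K M), toG K M ψ = a →
      π ⟨a, ha⟩ = AlgEquiv.restrictNormalHom H ψ := by
    intro ψ a ha h
    have h1 : e.symm ⟨a, ha⟩ = ψ := by
      rw [MulEquiv.symm_apply_eq]
      exact Subtype.ext h.symm
    change AlgEquiv.restrictNormalHom H (e.symm ⟨a, ha⟩) = _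
    rw [h1]
  have hπa : ∀ a (ha : a ∈ fixG K M) (z : H),
      algebraMap H M ((π ⟨a, ha⟩) z) = a (algebraMap H M z) := by
    intro a ha z
    obtain ⟨ψ, hψ⟩ := id ha
    rw [hπ ψ a ha hψ, ← hψ]
    exact AlgEquiv.restrictNormal_commutes ψ H z
  have hnorm : (fixG K M).Normal := Subgroup.normal_of_index_eq_two hA
  have hRt : ∀ t : Gal(M/ℚ), t ∉ fixG K M → ∀ z : H,
      algebraMap H M (R z) = (t * c * t⁻¹) (algebraMap H M z) := by
    intro t ht z
    have hcK' := hnorm.conj_mem c hcK t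
    have hφK' := hnorm.conj_mem φ hφK t
    have h1 : π ⟨φ, hφK⟩ * π ⟨t * φ * t⁻¹, hφK'⟩ = π ⟨c, hcK⟩ * π ⟨t * c * t⁻¹, hcK'⟩ := by
      rw [← map_mul, ← map_mul]
      congr 1
      apply Subtype.ext
      change φ * (t * φ * t⁻¹) = c * (t * c * t⁻¹)
      have h2 := hst t ht
      have h3 := hcommK _ s hcK' hsK
      rw [hφs]
      calc c * s * (t * (c * s) * t⁻¹) = c * s * (t * c * (s * t⁻¹)) := by group
        _ = c * s * (t * c * (t⁻¹ * (t * s) * t⁻¹)) := by group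
        _ = c * s * (t * c * (t⁻¹ * (s * t) * t⁻¹)) := by rw [h2]
        _ = c * (s * (t * c * t⁻¹ * s)) := by group
        _ = c * (s * (s * (t * c * t⁻¹))) := by rw [h3]
        _ = c * ((s * s) * (t * c * t⁻¹)) := by group
        _ = c * (t * c * t⁻¹) := by rw [hss, one_mul]
    obtain ⟨ψ, hψ⟩ := id hφK
    obtain ⟨ψ', hψ'⟩ := id hφK'
    have h2 := artin_p (H := H) hK hp hpM hpQ hφ ht hψ hψ'
    rw [← hπ ψ φ hφK hψ, ← hπ ψ' _ hφK' hψ'] at h2
    have h3 : π ⟨c, hcK⟩ = 1 := by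
      ext w
      apply (algebraMap H M).injective
      rw [hπa]
      apply ι.injective
      rw [hc]
      exact Complex.conj_eq_iff_im.2 (hH w)
    have h4 : R = π ⟨φ, hφK⟩ * π ⟨t * φ * t⁻¹, hφK'⟩ := by
      refine artin_unique hramH ?_ hR1 h2
      rw [Ideal.absNorm_span_natCast, RingOfIntegers.rank, hK]
      exact Nat.Coprime.pow_left 2 hpN'
    have h5 : R = π ⟨t * c * t⁻¹, hcK'⟩ := by
      rw [h4]
      refine Eq.trans h1 ?_
      rw [h3]
      exact one_mul _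
    rw [h5, hπa]
  -- the embedding `g`
  obtain ⟨γ, hγ⟩ : ∃ γ : Gal(M/ℚ), ∀ y : H, g y = ι (γ (algebraMap H M y)) := by
    let _ : Algebra H ℂ := g.toAlgebra
    have : Algebra.IsAlgebraic H M := Algebra.IsAlgebraic.of_finite H M
    obtain ⟨γ, hγ⟩ := exists_comp ι (IsAlgClosed.lift : M →ₐ[H] ℂ).toRingHom
    refine ⟨γ, fun y => ?_⟩
    rw [← hγ]
    exact ((IsAlgClosed.lift : M →ₐ[H] ℂ).commutes y).symm
  have hγK : γ ∉ fixG K M := by
    intro h
    rw [mem_fixG] at h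
    obtain ⟨x₀, hx₀⟩ := hg
    apply hx₀
    rw [hγ, ← IsScalarTower.algebraMap_apply, h]
  have hγK' : γ⁻¹ ∉ fixG K M := fun h => hγK (inv_mem_iff.1 h)
  rw [hγ, hγ, hRt γ⁻¹ hγK' y, ← hc]
  congr 1
  change (γ * (γ⁻¹ * c * γ⁻¹⁻¹)) (algebraMap H M y) = (c * γ) (algebraMap H M y)
  congr 1
  group

end Pool.Agent.HeckeRQ
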