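import Pool.Agent.HeckeRQ.Defs

/-!
# HQ12: Dirichlet series over ideals

Group the ideals by their norm (model: `StarkRQ/Analytic.lean`, `Analytic.card_summable`, and
`CMR/ZPart.lean`, `partial_zeta`: `HasSum.sigma` with `Equiv.sigmaFiberEquiv`). The coefficient of `n` is
bounded by the number of ideals of norm `n` (`finsum` = finite sum:
`Ideal.finite_setOf_absNorm_eq`, `finsum_eq_sum_of_fintype`). The ideal `⊥` has norm `0` and the term `0` of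
an `LSeries` is `0`.
-/

set_option autoImplicit false

noncomputable section

open NumberField Module Pool.Agent.StarkRQ

namespace Pool.Agent.HeckeRQ

variable {K : Type} [Field K] [NumberField K]

private theorem ls_congr {α β : Type*} [AddCommMonoid α] [TopologicalSpace α]
    {f g : β → α} {a : α} (h : HasSum f a) (hg : ∀ b, g b = f b) : HasSum g a := by
  rwa [funext hg]

private theorem ls_norm_le {c : Ideal (𝓞 K) → ℤ} (hc : ∀ 𝔞, |c 𝔞| ≤ 1) (n : ℕ) :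
    ‖((∑ᶠ 𝔞 : {𝔞 : Ideal (𝓞 K) // Ideal.absNorm 𝔞 = n}, c 𝔞 : ℤ) : ℂ)‖ ≤
      ‖(Nat.card {𝔞 : Ideal (𝓞 K) // Ideal.absNorm 𝔞 = n} : ℂ)‖ := by
  have hfin : Finite {𝔞 : Ideal (𝓞 K) // Ideal.absNorm 𝔞 = n} :=
    (Ideal.finite_setOfPred_absNorm_eq n).to_subtype
  let := Fintype.ofFinite {𝔞 : Ideal (𝓞 K) // Ideal.absNorm 𝔞 = n}
  rw [finsum_eq_sum_of_fintype, Complex.norm_intCast, Complex.norm_natCast]
  have h1 : |∑ 𝔞 : {𝔞 : Ideal (𝓞 K) // Ideal.absNorm 𝔞 = n}, c 𝔞| ≤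
      (Nat.card {𝔞 : Ideal (𝓞 K) // Ideal.absNorm 𝔞 = n} : ℤ) := by
    refine (Finset.abs_sum_le_sum_abs _ _).trans ?_
    have h2 : ∑ a : {𝔞 : Ideal (𝓞 K) // Ideal.absNorm 𝔞 = n}, |c a| ≤
        ∑ _a : {𝔞 : Ideal (𝓞 K) // Ideal.absNorm 𝔞 = n}, (1 : ℤ) :=
      Finset.sum_le_sum fun a _ => hc _
    refine h2.trans ?_
    simp [Nat.card_eq_fintype_card]
  exact_mod_cast h1

theorem lseriesSummable_ideals {c : Ideal (𝓞 K) → ℤ} (hc : ∀ 𝔞, |c 𝔞| ≤ 1) {s : ℂ}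
    (hs : 1 < s.re) : LSeriesSummable
      (fun n => ((∑ᶠ 𝔞 : {𝔞 : Ideal (𝓞 K) // Ideal.absNorm 𝔞 = n}, c 𝔞 : ℤ) : ℂ)) s := by
  refine Summable.of_norm_bounded (Analytic.card_summable K hs).norm fun n => ?_
  exact LSeries.norm_term_le s (ls_norm_le hc n)

set_option linter.unusedVariables false in
theorem lseries_ideals {c : Ideal (𝓞 K) → ℤ} (hc : ∀ 𝔞, |c 𝔞| ≤ 1) {P : Ideal (𝓞 K) → Prop}
    (hP : ∀ 𝔞, P 𝔞 → 𝔞 ≠ ⊥) (hcP : ∀ 𝔞, 𝔞 ≠ ⊥ → ¬ P 𝔞 → c 𝔞 = 0) {s : ℂ} (hs : 1 < s.re)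
    {X : ℂ} (hX : HasSum (fun 𝔞 : {𝔞 : Ideal (𝓞 K) // P 𝔞} =>
      (c 𝔞 : ℂ) * (Ideal.absNorm (𝔞 : Ideal (𝓞 K)) : ℂ) ^ (-s)) X) :
    LSeries (fun n => ((∑ᶠ 𝔞 : {𝔞 : Ideal (𝓞 K) // Ideal.absNorm 𝔞 = n}, c 𝔞 : ℤ) : ℂ)) s =
      X := by
  classical
  have hs0 : -s ≠ 0 := by
    intro h
    rw [neg_eq_zero] at h
    rw [h, Complex.zero_re] at hs
    linarith
  have h2 : HasSum (fun 𝔞 : Ideal (𝓞 K) => (c 𝔞 : ℂ) * (Ideal.absNorm 𝔞 : ℂ) ^ (-s)) X := by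
    have hinj : Function.Injective (Subtype.val : {𝔞 : Ideal (𝓞 K) // P 𝔞} → Ideal (𝓞 K)) :=
      Subtype.val_injective
    rw [← hinj.hasSum_iff]
    · exact ls_congr hX fun 𝔞 => rfl
    · intro 𝔞 h𝔞
      by_cases h0 : 𝔞 = ⊥
      · rw [h0, Ideal.absNorm_bot, Nat.cast_zero, Complex.zero_cpow hs0, mul_zero]
      · rw [hcP 𝔞 h0 fun h => h𝔞 ⟨⟨𝔞, h⟩, rfl⟩, Int.cast_zero, zero_mul]
  have h3 : HasSum (fun n : ℕ => LSeries.term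
      (fun n => ((∑ᶠ 𝔞 : {𝔞 : Ideal (𝓞 K) // Ideal.absNorm 𝔞 = n}, c 𝔞 : ℤ) : ℂ)) s n) X := by
    refine HasSum.sigma
      ((Equiv.sigmaFiberEquiv (fun 𝔞 : Ideal (𝓞 K) => Ideal.absNorm 𝔞)).hasSum_iff.2 h2) ?_
    intro n
    rcases eq_or_ne n 0 with rfl | hn
    · rw [LSeries.term_zero]
      refine ls_congr (hasSum_zero (α := ℂ)) ?_
      rintro ⟨𝔞, h𝔞⟩
      show (c 𝔞 : ℂ) * (Ideal.absNorm 𝔞 : ℂ) ^ (-s) = 0
      rw [h𝔞, Nat.cast_zero, Complex.zero_cpow hs0, mul_zero]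
    · have hfin : Finite {𝔞 : Ideal (𝓞 K) // Ideal.absNorm 𝔞 = n} :=
        (Ideal.finite_setOfPred_absNorm_eq n).to_subtype
      let := Fintype.ofFinite {𝔞 : Ideal (𝓞 K) // Ideal.absNorm 𝔞 = n}
      have h4 : (∑ a : {𝔞 : Ideal (𝓞 K) // Ideal.absNorm 𝔞 = n},
          (c a : ℂ) * (Ideal.absNorm (a : Ideal (𝓞 K)) : ℂ) ^ (-s)) =
          LSeries.term (fun n => ((∑ᶠ 𝔞 : {𝔞 : Ideal (𝓞 K) // Ideal.absNorm 𝔞 = n},
            c 𝔞 : ℤ) : ℂ)) s n := by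
        rw [LSeries.term_of_ne_zero hn, finsum_eq_sum_of_fintype, div_eq_mul_inv,
          ← Complex.cpow_neg, Int.cast_sum, Finset.sum_mul]
        exact Finset.sum_congr rfl fun a _ => by rw [a.2]
      rw [← h4]
      exact hasSum_fintype _
  exact h3.tsum_eq

end Pool.Agent.HeckeRQ
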