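import Pool.Agent.HeckeRQ.Defs

/-!
# HQ07: the beta integral

Substitution `u = |β/α| v`: `u α² + β²/u = |α β| (v + 1/v)`, so the integral is
`sign(β)^j |α β|^(-s) c` with `c = ∫_0^∞ (v + 1/v)^(-r) v^(-j/2-1) dv`, `r = s + j/2` (exponents:
`|β|^j |α β|^(-s-j/2) |β/α|^(-j/2) = |α β|^(-s)`). With `x = v² / (1 + v²)` (or `x = 1/(1 + v²)`):
`(v + 1/v)^(-r) = v^r (1 + v²)^(-r)`, `c = (1/2) ∫_0^1 x^(s/2-1) (1-x)^((s+j)/2-1) dx` up to the
order of the two exponents, which is `(1/2) betaIntegral (s/2) ((s+j)/2)` and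
`Complex.Gamma_mul_Gamma_eq_betaIntegral` gives the value. (For `j = 1`: `v^(r - j/2) = v^s`.)
Change of variables: `MeasureTheory.integral_image_eq_integral_abs_deriv_smul`, or
`integral_comp_rpow_Ioi` and a Moebius substitution. Alternative without beta: multiply by
`Γ(r) = ∫ t^(r-1) e^(-t)`, Fubini, and substitute `(t, v) ↦ (t v, t / v)`.
-/

set_option autoImplicit false

noncomputable section

open Set

namespace Pool.Agent.HeckeRQ

private theorem Beta_cpow {t : ℝ} (ht : 0 < t) (z : ℂ) :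
    ((t : ℝ) : ℂ) ^ z = Complex.exp ((Real.log t : ℂ) * z) := by
  rw [Complex.cpow_def_of_ne_zero (Complex.ofReal_ne_zero.2 ht.ne'), Complex.ofReal_log ht.le]

private theorem Beta_pos {t : ℝ} (ht : 0 < t) : ((t : ℝ) : ℂ) = Complex.exp (Real.log t : ℂ) := by
  rw [← Complex.ofReal_exp, Real.exp_log ht]

/-- the substitution -/
private def Beta_f (A B u : ℝ) : ℝ := u ^ 2 * A / (u ^ 2 * A + B)

private theorem Beta_image {A B : ℝ} (hA : 0 < A) (hB : 0 < B) :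
    Beta_f A B '' Ioi 0 = Ioo 0 1 := by
  ext y
  constructor
  · rintro ⟨u, hu, rfl⟩
    have hu0 : (0 : ℝ) < u := hu
    have h1 : 0 < u ^ 2 * A := by positivity
    have h2 : 0 < u ^ 2 * A + B := by positivity
    unfold Beta_f
    refine ⟨div_pos h1 h2, ?_⟩
    rw [div_lt_one h2]
    linarith
  · rintro ⟨h0, h1⟩
    have h2 : 0 < 1 - y := by linarith
    refine ⟨Real.sqrt (B * y / (A * (1 - y))), Real.sqrt_pos.2 (by positivity), ?_⟩
    unfold Beta_f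
    rw [Real.sq_sqrt (by positivity)]
    have h3 : B * y / (A * (1 - y)) * A = B * y / (1 - y) := by
      field_simp
    rw [h3]
    have h4 : B * y / (1 - y) + B = B / (1 - y) := by
      field_simp
      ring
    rw [h4]
    field_simp

private theorem Beta_inj {A B : ℝ} (hA : 0 < A) (hB : 0 < B) :
    InjOn (Beta_f A B) (Ioi 0) := by
  intro u hu v hv h
  have hu0 : (0 : ℝ) < u := hu
  have hv0 : (0 : ℝ) < v := hv
  unfold Beta_f at h
  have h2 : 0 < u ^ 2 * A + B := by positivity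
  have h3 : 0 < v ^ 2 * A + B := by positivity
  rw [div_eq_div_iff h2.ne' h3.ne'] at h
  have h4 : (u ^ 2 - v ^ 2) * (A * B) = 0 := by linear_combination h
  have h5 : u ^ 2 = v ^ 2 := by
    rcases mul_eq_zero.1 h4 with h6 | h6
    · linarith
    · exact absurd h6 (by positivity)
  exact (sq_eq_sq₀ hu0.le hv0.le).1 h5

private theorem Beta_deriv {A B : ℝ} (hA : 0 < A) (hB : 0 < B) {u : ℝ} (hu : 0 < u) :
    HasDerivAt (Beta_f A B) (2 * u * A * B / (u ^ 2 * A + B) ^ 2) u := by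
  have h2 : 0 < u ^ 2 * A + B := by positivity
  have h3 : HasDerivAt (fun u : ℝ => u ^ 2 * A) (2 * u * A) u := by
    have := (hasDerivAt_pow 2 u).mul_const A
    simpa using this
  have h4 := h3.div (h3.add_const B) h2.ne'
  have e : (2 * u * A * (u ^ 2 * A + B) - u ^ 2 * A * (2 * u * A)) / (u ^ 2 * A + B) ^ 2 =
      2 * u * A * B / (u ^ 2 * A + B) ^ 2 := by
    congr 1
    ring
  rw [← e]
  exact h4

private theorem Beta_sign {β : ℝ} (hβ : β ≠ 0) (j : ℕ) :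
    ((β ^ j : ℝ) : ℂ) = ((SignType.sign β : ℤ) : ℂ) ^ j *
      Complex.exp ((Real.log |β| : ℂ) * j) := by
  have h1 : Complex.exp ((Real.log |β| : ℂ) * j) = ((|β| : ℝ) : ℂ) ^ j := by
    rw [Beta_pos (abs_pos.2 hβ), ← Complex.exp_nat_mul]
    congr 1
    rw [mul_comm]
  rw [h1, ← mul_pow, Complex.ofReal_pow]
  congr 1
  rcases lt_or_gt_of_ne hβ with h | h
  · rw [sign_neg h, abs_of_neg h]
    simp
  · rw [sign_pos h, abs_of_pos h]
    simp

private theorem Beta_point {j : ℕ} {α β : ℝ} (hα : α ≠ 0) (hβ : β ≠ 0) (s : ℂ) {u : ℝ}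
    (hu : 0 < u) :
    fJ j α β s u = ((SignType.sign β : ℤ) : ℂ) ^ j * ((|α * β| : ℝ) : ℂ) ^ (-s) * (1 / 2) *
      (|2 * u * α ^ 2 * β ^ 2 / (u ^ 2 * α ^ 2 + β ^ 2) ^ 2| •
        (((Beta_f (α ^ 2) (β ^ 2) u : ℝ) : ℂ) ^ (s / 2 - 1) *
          (1 - ((Beta_f (α ^ 2) (β ^ 2) u : ℝ) : ℂ)) ^ ((s + j) / 2 - 1))) := by
  have hA : 0 < α ^ 2 := by positivity
  have hB : 0 < β ^ 2 := by positivity
  have hW : 0 < u ^ 2 * α ^ 2 + β ^ 2 := by positivity
  have hd : 0 < 2 * u * α ^ 2 * β ^ 2 / (u ^ 2 * α ^ 2 + β ^ 2) ^ 2 := by positivity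
  have hx : 0 < u ^ 2 * α ^ 2 / (u ^ 2 * α ^ 2 + β ^ 2) := by positivity
  have hy : 0 < β ^ 2 / (u ^ 2 * α ^ 2 + β ^ 2) := by positivity
  have hab : 0 < |α * β| := abs_pos.2 (mul_ne_zero hα hβ)
  have e1 : u * α ^ 2 + β ^ 2 / u = (u ^ 2 * α ^ 2 + β ^ 2) / u := by
    field_simp
  have e2 : (1 - ((Beta_f (α ^ 2) (β ^ 2) u : ℝ) : ℂ)) =
      ((β ^ 2 / (u ^ 2 * α ^ 2 + β ^ 2) : ℝ) : ℂ) := by
    have : 1 - Beta_f (α ^ 2) (β ^ 2) u = β ^ 2 / (u ^ 2 * α ^ 2 + β ^ 2) := by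
      unfold Beta_f
      field_simp
      ring
    rw [← this]
    push_cast
    rfl
  have hlog2 : (Complex.exp (Real.log 2 : ℂ)) = 2 := by
    rw [← Complex.ofReal_exp, Real.exp_log (by norm_num)]
    norm_num
  rw [e2]
  unfold fJ Beta_f
  rw [e1, Complex.real_smul, abs_of_pos hd]
  rw [Complex.ofReal_mul (β ^ j), Beta_sign hβ j]
  rw [Beta_cpow (div_pos hW hu), Beta_cpow hx, Beta_cpow hy, Beta_cpow hab, Beta_pos hd]
  have e3 : ((u ^ (-(j : ℝ) / 2 - 1) : ℝ) : ℂ) =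
      Complex.exp ((Real.log u : ℂ) * (-(j : ℂ) / 2 - 1)) := by
    rw [Complex.ofReal_cpow hu.le, Beta_cpow hu]
    push_cast
    rfl
  rw [e3]
  have l1 : Real.log ((u ^ 2 * α ^ 2 + β ^ 2) / u) =
      Real.log (u ^ 2 * α ^ 2 + β ^ 2) - Real.log u := Real.log_div hW.ne' hu.ne'
  have l2 : Real.log (u ^ 2 * α ^ 2 / (u ^ 2 * α ^ 2 + β ^ 2)) =
      2 * Real.log u + 2 * Real.log |α| - Real.log (u ^ 2 * α ^ 2 + β ^ 2) := by
    rw [Real.log_div (by positivity) hW.ne', Real.log_mul (by positivity) hA.ne', Real.log_pow,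
      Real.log_pow, Real.log_abs]
    norm_num
  have l3 : Real.log (β ^ 2 / (u ^ 2 * α ^ 2 + β ^ 2)) =
      2 * Real.log |β| - Real.log (u ^ 2 * α ^ 2 + β ^ 2) := by
    rw [Real.log_div hB.ne' hW.ne', Real.log_pow, Real.log_abs]
    norm_num
  have l4 : Real.log |α * β| = Real.log |α| + Real.log |β| := by
    rw [abs_mul, Real.log_mul (abs_pos.2 hα).ne' (abs_pos.2 hβ).ne']
  have l5 : Real.log (2 * u * α ^ 2 * β ^ 2 / (u ^ 2 * α ^ 2 + β ^ 2) ^ 2) =
      Real.log 2 + Real.log u + 2 * Real.log |α| + 2 * Real.log |β| -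
        2 * Real.log (u ^ 2 * α ^ 2 + β ^ 2) := by
    rw [Real.log_div (by positivity) (by positivity), Real.log_mul (by positivity) hB.ne',
      Real.log_mul (by positivity) hA.ne', Real.log_mul (by norm_num) hu.ne', Real.log_pow,
      Real.log_pow, Real.log_pow, Real.log_abs, Real.log_abs]
    norm_num
  rw [l1, l2, l3, l4, l5]
  generalize ((SignType.sign β : ℤ) : ℂ) = sg
  push_cast
  generalize (Real.log (u ^ 2 * α ^ 2 + β ^ 2) : ℂ) = w
  generalize (Real.log u : ℂ) = l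
  generalize (Real.log |α| : ℂ) = a
  generalize (Real.log |β| : ℂ) = b
  have e4 : Complex.exp ((Real.log 2 : ℂ) + l + 2 * a + 2 * b - 2 * w) =
      2 * Complex.exp (l + 2 * a + 2 * b - 2 * w) := by
    rw [← hlog2, ← Complex.exp_add]
    congr 1
    rw [hlog2]
    ring
  rw [e4]
  have e5 : Complex.exp ((w - l) * -(s + (j : ℂ) / 2)) *
      (Complex.exp (b * j) * Complex.exp (l * (-(j : ℂ) / 2 - 1))) =
      Complex.exp ((a + b) * -s) * (Complex.exp (l + 2 * a + 2 * b - 2 * w) *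
        (Complex.exp ((2 * l + 2 * a - w) * (s / 2 - 1)) *
          Complex.exp ((2 * b - w) * ((s + j) / 2 - 1)))) := by
    rw [← Complex.exp_add, ← Complex.exp_add, ← Complex.exp_add, ← Complex.exp_add,
      ← Complex.exp_add]
    congr 1
    ring
  linear_combination sg ^ j * e5

theorem integral_fJ {j : ℕ} (hj : j ≤ 1) {α β : ℝ} (hα : α ≠ 0) (hβ : β ≠ 0) {s : ℂ}
    (hs : 0 < s.re) :
    ∫ u in Ioi (0 : ℝ), fJ j α β s u =
      ((SignType.sign β : ℤ) : ℂ) ^ j * ((|α * β| : ℝ) : ℂ) ^ (-s) *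
        (Complex.Gamma (s / 2) * Complex.Gamma ((s + j) / 2) /
          (2 * Complex.Gamma (s + (j : ℂ) / 2))) := by
  have hA : 0 < α ^ 2 := by positivity
  have hB : 0 < β ^ 2 := by positivity
  have h1 : ∫ u in Ioi (0 : ℝ), fJ j α β s u =
      ∫ u in Ioi (0 : ℝ), ((SignType.sign β : ℤ) : ℂ) ^ j * ((|α * β| : ℝ) : ℂ) ^ (-s) * (1 / 2) *
      (|2 * u * α ^ 2 * β ^ 2 / (u ^ 2 * α ^ 2 + β ^ 2) ^ 2| •
        (((Beta_f (α ^ 2) (β ^ 2) u : ℝ) : ℂ) ^ (s / 2 - 1) *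
          (1 - ((Beta_f (α ^ 2) (β ^ 2) u : ℝ) : ℂ)) ^ ((s + j) / 2 - 1))) :=
    MeasureTheory.setIntegral_congr_fun measurableSet_Ioi fun u hu => Beta_point hα hβ s hu
  have h2 := MeasureTheory.integral_image_eq_integral_abs_deriv_smul (s := Ioi (0 : ℝ))
    (f := Beta_f (α ^ 2) (β ^ 2))
    (f' := fun u => 2 * u * α ^ 2 * β ^ 2 / (u ^ 2 * α ^ 2 + β ^ 2) ^ 2) measurableSet_Ioi
    (fun u hu => (Beta_deriv hA hB hu).hasDerivWithinAt) (Beta_inj hA hB)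
    (fun x : ℝ => (x : ℂ) ^ (s / 2 - 1) * (1 - (x : ℂ)) ^ ((s + j) / 2 - 1))
  rw [h1, MeasureTheory.integral_const_mul, ← h2, Beta_image hA hB]
  have h3 : ∫ x in Ioo (0 : ℝ) 1, (x : ℂ) ^ (s / 2 - 1) * (1 - (x : ℂ)) ^ ((s + j) / 2 - 1) =
      Complex.betaIntegral (s / 2) ((s + j) / 2) := by
    unfold Complex.betaIntegral
    rw [intervalIntegral.integral_of_le zero_le_one, MeasureTheory.integral_Ioc_eq_integral_Ioo]
  have hre1 : 0 < (s / 2).re := by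
    rw [show (s / 2) = ((1 / 2 : ℝ) : ℂ) * s by push_cast; ring, Complex.re_ofReal_mul]
    positivity
  have hre2 : 0 < ((s + j) / 2).re := by
    rw [show ((s + j) / 2) = ((1 / 2 : ℝ) : ℂ) * (s + (j : ℂ)) by push_cast; ring,
      Complex.re_ofReal_mul, Complex.add_re, Complex.natCast_re]
    positivity
  have h4 := Complex.Gamma_mul_Gamma_eq_betaIntegral hre1 hre2
  have e1 : s / 2 + (s + j) / 2 = s + (j : ℂ) / 2 := by ring
  rw [e1] at h4
  have hre3 : 0 < (s + (j : ℂ) / 2).re := by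
    rw [← e1, Complex.add_re]
    positivity
  have h5 : Complex.Gamma (s + (j : ℂ) / 2) ≠ 0 := Complex.Gamma_ne_zero_of_re_pos hre3
  rw [h3, h4]
  have e6 : ∀ X Y : ℂ, Complex.Gamma (s + (j : ℂ) / 2) * Y /
      (2 * Complex.Gamma (s + (j : ℂ) / 2)) = 1 / 2 * Y := by
    intro _ Y
    rw [mul_comm (2 : ℂ), mul_div_mul_left _ _ h5]
    ring
  rw [e6 0]
  ring

end Pool.Agent.HeckeRQ
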