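import Pool.Agent.HeckeRQ.Defs

/-!
# HQ03a: summability of the theta series

`exists_norm_le`: the linear map `(m, n) ↦ (fst p, snd p)` is invertible, so
`(fst p)² + (snd p)² ≥ c (m² + n²)` with `c > 0`. `summable_gauss`: comparison with
`exp(-c' (m² + n²))` (`(α + v)² ≥ α²/2 - v²`; `|β|^j exp(-c β²/2)` is bounded for `j ≤ 1`), a
product of two one-dimensional series. `summable_rpow`: for `r > 1`,
`((fst p + v)² + (snd p + w)²)^(-r)` is bounded by `C ‖(m, n)‖^(-2r)` for all but finitely many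
`p`, and `∑ ‖(m, n)‖^(-2r)` converges (`EisensteinSeries.summable_one_div_norm_rpow`).
-/

set_option autoImplicit false

noncomputable section

open Set

namespace Pool.Agent.HeckeRQ

namespace Lat

variable (L : Lat)

theorem exists_norm_le : ∃ c : ℝ, 0 < c ∧ ∀ p : ℤ × ℤ,
    c * ((p.1 : ℝ) ^ 2 + (p.2 : ℝ) ^ 2) ≤ L.fst p ^ 2 + L.snd p ^ 2 := by
  have hD : 0 < (L.a₁ * L.b₂ - L.a₂ * L.b₁) ^ 2 := by
    have := L.det_ne
    positivity
  have hS : 0 < L.a₁ ^ 2 + L.a₂ ^ 2 + L.b₁ ^ 2 + L.b₂ ^ 2 := by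
    by_contra hcon
    have h1 : L.a₁ = 0 := by
      nlinarith [sq_nonneg L.a₁, sq_nonneg L.a₂, sq_nonneg L.b₁, sq_nonneg L.b₂]
    have h2 : L.a₂ = 0 := by
      nlinarith [sq_nonneg L.a₁, sq_nonneg L.a₂, sq_nonneg L.b₁, sq_nonneg L.b₂]
    apply L.det_ne
    rw [h1, h2]
    ring
  refine ⟨(L.a₁ * L.b₂ - L.a₂ * L.b₁) ^ 2 / (L.a₁ ^ 2 + L.a₂ ^ 2 + L.b₁ ^ 2 + L.b₂ ^ 2),
    by positivity, fun p => ?_⟩
  rw [div_mul_eq_mul_div, div_le_iff₀ hS]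
  unfold fst snd
  set m : ℝ := (p.1 : ℝ)
  set n : ℝ := (p.2 : ℝ)
  have e1 : (m * (L.a₁ * L.b₂ - L.a₂ * L.b₁)) =
      (m * L.a₁ + n * L.a₂) * L.b₂ - (m * L.b₁ + n * L.b₂) * L.a₂ := by ring
  have e2 : (n * (L.a₁ * L.b₂ - L.a₂ * L.b₁)) =
      (m * L.b₁ + n * L.b₂) * L.a₁ - (m * L.a₁ + n * L.a₂) * L.b₁ := by ring
  have key : (L.a₁ * L.b₂ - L.a₂ * L.b₁) ^ 2 * (m ^ 2 + n ^ 2) =
      (m * (L.a₁ * L.b₂ - L.a₂ * L.b₁)) ^ 2 + (n * (L.a₁ * L.b₂ - L.a₂ * L.b₁)) ^ 2 := by ring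
  rw [key, e1, e2]
  generalize m * L.a₁ + n * L.a₂ = x
  generalize m * L.b₁ + n * L.b₂ = y
  nlinarith [sq_nonneg (x * L.a₂ + y * L.b₂), sq_nonneg (x * L.a₁ + y * L.b₁)]

private theorem shift_le (x v : ℝ) : x ^ 2 / 2 - v ^ 2 ≤ (x + v) ^ 2 := by
  nlinarith [sq_nonneg (x + 2 * v)]

private theorem summable_exp_int {a : ℝ} (ha : 0 < a) :
    Summable fun m : ℤ => Real.exp (-a * (m : ℝ) ^ 2) := by
  have h0 : Summable fun n : ℕ => Real.exp (-a * (n : ℝ) ^ 2) := by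
    have h1 : Summable fun n : ℕ => Real.exp ((n : ℝ) * (-a)) :=
      Real.summable_exp_nat_mul_iff.2 (by linarith)
    refine h1.of_nonneg_of_le (fun n => (Real.exp_pos _).le) (fun n => ?_)
    apply Real.exp_le_exp.2
    have h2 : (n : ℝ) ≤ (n : ℝ) ^ 2 := by
      rcases Nat.eq_zero_or_pos n with h | h
      · subst h
        simp
      · have : (1 : ℝ) ≤ n := by exact_mod_cast h
        nlinarith
    nlinarith
  apply Summable.of_nat_of_neg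
  · simpa using h0
  · simpa using h0

private theorem summable_exp_prod {a : ℝ} (ha : 0 < a) :
    Summable fun p : ℤ × ℤ => Real.exp (-a * ((p.1 : ℝ) ^ 2 + (p.2 : ℝ) ^ 2)) := by
  have h := (summable_exp_int ha).mul_of_nonneg (summable_exp_int ha)
    (fun m => (Real.exp_pos _).le) (fun m => (Real.exp_pos _).le)
  refine h.congr (fun p => ?_)
  rw [← Real.exp_add]
  congr 1
  ring

private theorem abs_pow_exp_le {c : ℝ} (hc : 0 < c) {j : ℕ} (hj : j ≤ 1) (x : ℝ) :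
    |x| ^ j * Real.exp (-(c / 2) * x ^ 2) ≤ 1 + 2 / c := by
  have h1 : |x| ^ j ≤ 1 + x ^ 2 := by
    interval_cases j
    · have := sq_nonneg x
      simp only [pow_zero]
      linarith
    · rw [pow_one, ← sq_abs x]
      nlinarith [sq_nonneg (|x| - 1), abs_nonneg x]
  have h2 : Real.exp (-(c / 2) * x ^ 2) ≤ 1 := by
    apply Real.exp_le_one_iff.2
    have := sq_nonneg x
    nlinarith [mul_nonneg hc.le this]
  have h3 : x ^ 2 * Real.exp (-(c / 2) * x ^ 2) ≤ 2 / c := by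
    have h4 : (c / 2) * x ^ 2 ≤ Real.exp ((c / 2) * x ^ 2) := by
      have := Real.add_one_le_exp ((c / 2) * x ^ 2)
      linarith
    have h5 : Real.exp ((c / 2) * x ^ 2) * Real.exp (-(c / 2) * x ^ 2) = 1 := by
      rw [← Real.exp_add]
      have : (c / 2) * x ^ 2 + -(c / 2) * x ^ 2 = 0 := by ring
      rw [this, Real.exp_zero]
    have h6 : (c / 2) * x ^ 2 * Real.exp (-(c / 2) * x ^ 2) ≤ 1 := by
      rw [← h5]
      exact mul_le_mul_of_nonneg_right h4 (Real.exp_pos _).le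
    rw [le_div_iff₀ hc]
    nlinarith
  calc |x| ^ j * Real.exp (-(c / 2) * x ^ 2)
      ≤ (1 + x ^ 2) * Real.exp (-(c / 2) * x ^ 2) :=
        mul_le_mul_of_nonneg_right h1 (Real.exp_pos _).le
    _ = Real.exp (-(c / 2) * x ^ 2) + x ^ 2 * Real.exp (-(c / 2) * x ^ 2) := by ring
    _ ≤ 1 + 2 / c := add_le_add h2 h3

theorem summable_gauss (v w : ℝ) {j : ℕ} (hj : j ≤ 1) {c : ℝ} (hc : 0 < c) :
    Summable fun p : ℤ × ℤ =>
      |L.snd p + w| ^ j * Real.exp (-c * ((L.fst p + v) ^ 2 + (L.snd p + w) ^ 2)) := by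
  obtain ⟨c₀, hc₀, h₀⟩ := L.exists_norm_le
  have hs := (summable_exp_prod (a := c / 4 * c₀) (by positivity)).mul_left
    ((1 + 2 / c) * Real.exp (c / 2 * (v ^ 2 + w ^ 2)))
  refine hs.of_nonneg_of_le (fun p => by positivity) (fun p => ?_)
  have h1 : Real.exp (-c * ((L.fst p + v) ^ 2 + (L.snd p + w) ^ 2)) ≤
      Real.exp (-(c / 2) * (L.snd p + w) ^ 2) * (Real.exp (c / 2 * (v ^ 2 + w ^ 2)) *
        Real.exp (-(c / 4 * c₀) * ((p.1 : ℝ) ^ 2 + (p.2 : ℝ) ^ 2))) := by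
    rw [← Real.exp_add, ← Real.exp_add]
    apply Real.exp_le_exp.2
    have a1 := shift_le (L.fst p) v
    have a2 := shift_le (L.snd p) w
    have a3 := h₀ p
    have a4 := sq_nonneg (L.fst p + v)
    have b1 : c / 2 * (L.fst p ^ 2 / 2 - v ^ 2 + (L.snd p ^ 2 / 2 - w ^ 2)) ≤
        c / 2 * ((L.fst p + v) ^ 2 + (L.snd p + w) ^ 2) :=
      mul_le_mul_of_nonneg_left (by linarith) (by positivity)
    have b2 : c / 4 * (c₀ * ((p.1 : ℝ) ^ 2 + (p.2 : ℝ) ^ 2)) ≤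
        c / 4 * (L.fst p ^ 2 + L.snd p ^ 2) :=
      mul_le_mul_of_nonneg_left a3 (by positivity)
    have b3 : 0 ≤ c / 2 * (L.fst p + v) ^ 2 := by positivity
    nlinarith
  calc |L.snd p + w| ^ j * Real.exp (-c * ((L.fst p + v) ^ 2 + (L.snd p + w) ^ 2))
      ≤ |L.snd p + w| ^ j * (Real.exp (-(c / 2) * (L.snd p + w) ^ 2) *
        (Real.exp (c / 2 * (v ^ 2 + w ^ 2)) *
        Real.exp (-(c / 4 * c₀) * ((p.1 : ℝ) ^ 2 + (p.2 : ℝ) ^ 2)))) :=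
        mul_le_mul_of_nonneg_left h1 (by positivity)
    _ = (|L.snd p + w| ^ j * Real.exp (-(c / 2) * (L.snd p + w) ^ 2)) *
        (Real.exp (c / 2 * (v ^ 2 + w ^ 2)) *
        Real.exp (-(c / 4 * c₀) * ((p.1 : ℝ) ^ 2 + (p.2 : ℝ) ^ 2))) := by ring
    _ ≤ (1 + 2 / c) * (Real.exp (c / 2 * (v ^ 2 + w ^ 2)) *
        Real.exp (-(c / 4 * c₀) * ((p.1 : ℝ) ^ 2 + (p.2 : ℝ) ^ 2))) :=
        mul_le_mul_of_nonneg_right (abs_pow_exp_le hc hj _) (by positivity)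
    _ = _ := by ring

private theorem summable_norm_prod {k : ℝ} (hk : 2 < k) :
    Summable fun p : ℤ × ℤ => ‖p‖ ^ (-k) := by
  have h := EisensteinSeries.summable_one_div_norm_rpow hk
  have h2 := (finTwoArrowEquiv ℤ).symm.summable_iff.2 h
  refine h2.congr (fun p => ?_)
  simp only [Function.comp]
  congr 1
  rw [EisensteinSeries.norm_eq_max_natAbs]
  rw [Prod.norm_def]
  simp [finTwoArrowEquiv, Int.norm_eq_abs]

theorem summable_rpow {v w : ℝ} {r : ℝ} (hr : 1 < r) :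
    Summable fun p : ℤ × ℤ => ((L.fst p + v) ^ 2 + (L.snd p + w) ^ 2) ^ (-r) := by
  obtain ⟨c₀, hc₀, h₀⟩ := L.exists_norm_le
  have hs := (summable_norm_prod (k := 2 * r) (by linarith)).mul_left ((c₀ / 4) ^ (-r))
  refine hs.of_norm_bounded_eventually ?_
  set V : ℝ := v ^ 2 + w ^ 2 with hV
  obtain ⟨N, hN⟩ := exists_nat_gt (4 * V / c₀)
  have hfin : ({p : ℤ × ℤ | p.1 ^ 2 + p.2 ^ 2 ≤ (N : ℤ)}).Finite := by
    refine ((Set.finite_Icc (-(N : ℤ)) N).prod (Set.finite_Icc (-(N : ℤ)) N)).subset ?_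
    intro p hp
    have hp' : p.1 ^ 2 + p.2 ^ 2 ≤ (N : ℤ) := hp
    refine ⟨⟨?_, ?_⟩, ⟨?_, ?_⟩⟩ <;> nlinarith [sq_nonneg p.1, sq_nonneg p.2,
      sq_nonneg (p.1 - 1), sq_nonneg (p.1 + 1), sq_nonneg (p.2 - 1), sq_nonneg (p.2 + 1)]
  rw [Filter.eventually_cofinite]
  refine hfin.subset ?_
  intro p hp
  by_contra hcon
  apply hp
  have hcon' : (N : ℤ) < p.1 ^ 2 + p.2 ^ 2 := by
    by_contra h
    exact hcon (not_lt.1 h)
  have hR : (N : ℝ) < (p.1 : ℝ) ^ 2 + (p.2 : ℝ) ^ 2 := by exact_mod_cast hcon'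
  have hV0 : 0 ≤ V := by positivity
  have h1 : 4 * V < c₀ * ((p.1 : ℝ) ^ 2 + (p.2 : ℝ) ^ 2) := by
    have := hN.trans hR
    rw [div_lt_iff₀ hc₀] at this
    linarith
  have a1 := shift_le (L.fst p) v
  have a2 := shift_le (L.snd p) w
  have a3 := h₀ p
  have h2 : c₀ / 4 * ((p.1 : ℝ) ^ 2 + (p.2 : ℝ) ^ 2) ≤
      (L.fst p + v) ^ 2 + (L.snd p + w) ^ 2 := by
    nlinarith
  have hpos : 0 < (p.1 : ℝ) ^ 2 + (p.2 : ℝ) ^ 2 := lt_of_le_of_lt (by positivity) hR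
  have hnorm : ‖p‖ ^ 2 ≤ (p.1 : ℝ) ^ 2 + (p.2 : ℝ) ^ 2 := by
    rw [Prod.norm_def]
    rcases max_choice ‖p.1‖ ‖p.2‖ with h | h
    · rw [h, Int.norm_eq_abs, sq_abs]
      nlinarith [sq_nonneg (p.2 : ℝ)]
    · rw [h, Int.norm_eq_abs, sq_abs]
      nlinarith [sq_nonneg (p.1 : ℝ)]
  have hn0 : 0 < ‖p‖ := by
    rw [norm_pos_iff]
    intro h
    rw [h] at hpos
    simp at hpos
  have h3 : c₀ / 4 * ‖p‖ ^ 2 ≤ (L.fst p + v) ^ 2 + (L.snd p + w) ^ 2 :=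
    (mul_le_mul_of_nonneg_left hnorm (by positivity)).trans h2
  rw [Real.norm_of_nonneg (Real.rpow_nonneg (by positivity) _)]
  have h4 : ((L.fst p + v) ^ 2 + (L.snd p + w) ^ 2) ^ (-r) ≤ (c₀ / 4 * ‖p‖ ^ 2) ^ (-r) :=
    Real.rpow_le_rpow_of_nonpos (by positivity) h3 (by linarith)
  refine h4.trans (le_of_eq ?_)
  rw [Real.mul_rpow (by positivity) (by positivity)]
  congr 1
  rw [← Real.rpow_natCast, ← Real.rpow_mul hn0.le]
  congr 1
  push_cast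
  ring

end Lat

end Pool.Agent.HeckeRQ
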