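import Pool.Agent.HeckeRQ.Bounds

/-!
# HQ03b: continuity of the theta series

`continuousOn_tsum` on `{x > x₀, y > y₀}` with the bound of `summable_gauss` (for `x, y ≥ c` the norms of the terms are
bounded by those with `x = y = c`), and the local character of continuity.
-/

set_option autoImplicit false

noncomputable section

open Set

namespace Pool.Agent.HeckeRQ

namespace Lat

variable (L : Lat)

private theorem boundsC_local {f : ℝ × ℝ → ℂ}
    (h : ∀ c : ℝ, 0 < c → ContinuousOn f (Ioi c ×ˢ Ioi c)) :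
    ContinuousOn f (Ioi 0 ×ˢ Ioi 0) := by
  rintro ⟨x, y⟩ ⟨hx, hy⟩
  have hx' : (0 : ℝ) < x := hx
  have hy' : (0 : ℝ) < y := hy
  have hc : 0 < min x y / 2 := half_pos (lt_min hx' hy')
  have hmx : min x y / 2 < x := (half_lt_self (lt_min hx' hy')).trans_le (min_le_left _ _)
  have hmy : min x y / 2 < y := (half_lt_self (lt_min hx' hy')).trans_le (min_le_right _ _)
  have hmem : ((x, y) : ℝ × ℝ) ∈ Ioi (min x y / 2) ×ˢ Ioi (min x y / 2) :=
    Set.mk_mem_prod hmx hmy
  exact ((h _ hc).continuousAt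
    ((isOpen_Ioi.prod isOpen_Ioi).mem_nhds hmem)).continuousWithinAt

private theorem boundsC_exp {a b c x y : ℝ} (hx : c < x) (hy : c < y) :
    Real.exp (-Real.pi * (x * a ^ 2 + y * b ^ 2)) ≤
      Real.exp (-(Real.pi * c) * (a ^ 2 + b ^ 2)) := by
  refine Real.exp_le_exp.2 ?_
  have h1 : c * a ^ 2 ≤ x * a ^ 2 := mul_le_mul_of_nonneg_right hx.le (sq_nonneg a)
  have h2 : c * b ^ 2 ≤ y * b ^ 2 := mul_le_mul_of_nonneg_right hy.le (sq_nonneg b)
  have h3 : Real.pi * (c * a ^ 2 + c * b ^ 2) ≤ Real.pi * (x * a ^ 2 + y * b ^ 2) :=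
    mul_le_mul_of_nonneg_left (add_le_add h1 h2) Real.pi_pos.le
  linarith

private theorem boundsC_norm (j : ℕ) {a b c x y : ℝ} (hx : c < x) (hy : c < y) :
    ‖((b ^ j * Real.exp (-Real.pi * (x * a ^ 2 + y * b ^ 2)) : ℝ) : ℂ)‖ ≤
      |b| ^ j * Real.exp (-(Real.pi * c) * (a ^ 2 + b ^ 2)) := by
  rw [Complex.norm_real, norm_mul, norm_pow, Real.norm_eq_abs, Real.norm_eq_abs,
    abs_of_pos (Real.exp_pos _)]
  exact mul_le_mul_of_nonneg_left (boundsC_exp hx hy) (by positivity)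

theorem continuousOn_thA (v w : ℝ) {j : ℕ} (hj : j ≤ 1) :
    ContinuousOn (fun q : ℝ × ℝ => L.thA j v w q.1 q.2) (Ioi 0 ×ˢ Ioi 0) := by
  refine boundsC_local fun c hc => ?_
  unfold thA
  refine continuousOn_tsum (u := fun p : ℤ × ℤ => |L.snd p + w| ^ j *
    Real.exp (-(Real.pi * c) * ((L.fst p + v) ^ 2 + (L.snd p + w) ^ 2))) ?_
    (L.summable_gauss v w hj (mul_pos Real.pi_pos hc)) ?_
  · intro p
    exact Continuous.continuousOn (by fun_prop)
  · rintro p ⟨x, y⟩ ⟨hx, hy⟩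
    exact boundsC_norm j hx hy

theorem continuousOn_thB (v w : ℝ) {j : ℕ} (hj : j ≤ 1) :
    ContinuousOn (fun q : ℝ × ℝ => L.thB j v w q.1 q.2) (Ioi 0 ×ˢ Ioi 0) := by
  refine boundsC_local fun c hc => ?_
  unfold thB
  have hs := L.summable_gauss 0 0 hj (mul_pos Real.pi_pos hc)
  simp only [add_zero] at hs
  refine continuousOn_tsum ?_ hs ?_
  · intro p
    exact Continuous.continuousOn (by fun_prop)
  · rintro p ⟨x, y⟩ ⟨hx, hy⟩
    have h1 : ‖Complex.exp (2 * Real.pi * Complex.I *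
        ((L.fst p * v + L.snd p * w : ℝ) : ℂ))‖ = 1 := by
      have e : 2 * Real.pi * Complex.I * ((L.fst p * v + L.snd p * w : ℝ) : ℂ) =
          ((2 * Real.pi * (L.fst p * v + L.snd p * w) : ℝ) : ℂ) * Complex.I := by
        push_cast
        ring
      rw [e, Complex.norm_exp_ofReal_mul_I]
    rw [norm_mul, h1, one_mul]
    exact boundsC_norm j hx hy

end Lat

end Pool.Agent.HeckeRQ
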