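import Pool.Agent.HeckeRQ.Bounds

/-!
# HQ03c: decay of the theta series

The set of the values of `(fst p + v)² + (snd p + w)²` is discrete and
does not contain `0`, so it is `≥ δ₀ > 0` (finitely many points in a ball; `exists_norm_le`). For
`t ≥ 1`, `u ∈ [1, U]`: `t u α² + t/u β² ≥ (t/U) (α² + β²) ≥ ((t - 1)/U) δ₀ + (1/U) (α² + β²)`. The same for
`thB` after removing the term of `p = 0` (its value is `1` for `j = 0` and `0` for `j = 1`;
`fst p = snd p = 0` only for `p = 0`).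
-/

set_option autoImplicit false

noncomputable section

open Set

namespace Pool.Agent.HeckeRQ

namespace Lat

variable (L : Lat)

private theorem term_le {α β x y t U δ₀ : ℝ} (j : ℕ) (hU : 1 ≤ U) (ht : 1 ≤ t) (hx : t / U ≤ x)
    (hy : t / U ≤ y) (hδ : δ₀ ≤ α ^ 2 + β ^ 2) :
    ‖((β ^ j * Real.exp (-Real.pi * (x * α ^ 2 + y * β ^ 2)) : ℝ) : ℂ)‖ ≤
      Real.exp (Real.pi * δ₀ / U) * Real.exp (-(Real.pi * δ₀ / U) * t) *
        (|β| ^ j * Real.exp (-(Real.pi / U) * (α ^ 2 + β ^ 2))) := by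
  have hU0 : 0 < U := by linarith
  rw [Complex.norm_real, Real.norm_eq_abs, abs_mul, abs_pow, abs_of_pos (Real.exp_pos _),
    mul_left_comm, ← Real.exp_add, ← Real.exp_add]
  refine mul_le_mul_of_nonneg_left (Real.exp_le_exp.2 ?_) (pow_nonneg (abs_nonneg _) _)
  have h1 : t / U * (α ^ 2 + β ^ 2) ≤ x * α ^ 2 + y * β ^ 2 := by
    have h2 := mul_le_mul_of_nonneg_right hx (sq_nonneg α)
    have h3 := mul_le_mul_of_nonneg_right hy (sq_nonneg β)
    linarith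
  have h2 : (t - 1) / U * δ₀ ≤ (t - 1) / U * (α ^ 2 + β ^ 2) :=
    mul_le_mul_of_nonneg_left hδ (div_nonneg (by linarith) hU0.le)
  have h3 : t / U * (α ^ 2 + β ^ 2) = (t - 1) / U * (α ^ 2 + β ^ 2) +
      1 / U * (α ^ 2 + β ^ 2) := by
    field_simp
    ring
  have h4 : Real.pi * δ₀ / U + -(Real.pi * δ₀ / U) * t + -(Real.pi / U) * (α ^ 2 + β ^ 2) =
      -Real.pi * ((t - 1) / U * δ₀ + 1 / U * (α ^ 2 + β ^ 2)) := by
    field_simp
    ring
  rw [h4]
  have h5 : (t - 1) / U * δ₀ + 1 / U * (α ^ 2 + β ^ 2) ≤ x * α ^ 2 + y * β ^ 2 := by linarith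
  have h6 := mul_le_mul_of_nonneg_left h5 Real.pi_pos.le
  linarith

private theorem exists_min {v w : ℝ} (h0 : ∀ p, L.fst p + v ≠ 0 ∨ L.snd p + w ≠ 0) :
    ∃ δ₀ : ℝ, 0 < δ₀ ∧ ∀ p, δ₀ ≤ (L.fst p + v) ^ 2 + (L.snd p + w) ^ 2 := by
  have hpos : ∀ p, 0 < (L.fst p + v) ^ 2 + (L.snd p + w) ^ 2 := by
    intro p
    rcases h0 p with h | h
    · have := sq_nonneg (L.snd p + w)
      have := pow_pos (abs_pos.2 h) 2
      rw [sq_abs] at this
      linarith
    · have := sq_nonneg (L.fst p + v)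
      have := pow_pos (abs_pos.2 h) 2
      rw [sq_abs] at this
      linarith
  have h1 := (L.summable_gauss v w (Nat.zero_le 1) one_pos).tendsto_cofinite_zero
  have h2 : ∀ᶠ p : ℤ × ℤ in Filter.cofinite, |L.snd p + w| ^ 0 *
      Real.exp (-1 * ((L.fst p + v) ^ 2 + (L.snd p + w) ^ 2)) < Real.exp (-1) :=
    h1.eventually (gt_mem_nhds (Real.exp_pos _))
  have hfin : {p : ℤ × ℤ | (L.fst p + v) ^ 2 + (L.snd p + w) ^ 2 ≤ 1}.Finite := by
    refine (Filter.eventually_cofinite.1 h2).subset fun p hp => ?_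
    have hp' : (L.fst p + v) ^ 2 + (L.snd p + w) ^ 2 ≤ 1 := hp
    show ¬ _
    rw [not_lt, pow_zero, one_mul]
    exact Real.exp_le_exp.2 (by linarith)
  by_cases hne : hfin.toFinset.Nonempty
  · obtain ⟨q, hq, hq1⟩ := Finset.exists_min_image hfin.toFinset
      (fun p => (L.fst p + v) ^ 2 + (L.snd p + w) ^ 2) hne
    refine ⟨(L.fst q + v) ^ 2 + (L.snd q + w) ^ 2, hpos q, fun p => ?_⟩
    by_cases hp : (L.fst p + v) ^ 2 + (L.snd p + w) ^ 2 ≤ 1
    · exact hq1 p (hfin.mem_toFinset.2 hp)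
    · have hq2 : (L.fst q + v) ^ 2 + (L.snd q + w) ^ 2 ≤ 1 := hfin.mem_toFinset.1 hq
      linarith [not_le.1 hp]
  · refine ⟨1, one_pos, fun p => ?_⟩
    by_contra hp
    exact hne ⟨p, hfin.mem_toFinset.2 (not_le.1 hp).le⟩

private theorem bnd {t U u : ℝ} (hU : 1 ≤ U) (ht : 1 ≤ t) (hu : u ∈ Icc (1 : ℝ) U) :
    t / U ≤ t * u ∧ t / U ≤ t / u := by
  have hu0 : 0 < u := by linarith [hu.1]
  constructor
  · have h1 : t / U ≤ t := div_le_self (by linarith) hU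
    have h2 : t * 1 ≤ t * u := mul_le_mul_of_nonneg_left hu.1 (by linarith)
    linarith
  · exact div_le_div_of_nonneg_left (by linarith) hu0 hu.2

theorem thA_decay {v w : ℝ} (h0 : ∀ p, L.fst p + v ≠ 0 ∨ L.snd p + w ≠ 0) {j : ℕ} (hj : j ≤ 1)
    {U : ℝ} (hU : 1 ≤ U) : ∃ C δ : ℝ, 0 < δ ∧ ∀ t : ℝ, 1 ≤ t → ∀ u ∈ Icc (1 : ℝ) U,
      ‖L.thA j v w (t * u) (t / u)‖ ≤ C * Real.exp (-δ * t) := by
  have hU0 : 0 < U := by linarith
  obtain ⟨δ₀, hδ₀, hmin⟩ := L.exists_min h0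
  have hs := L.summable_gauss v w hj (c := Real.pi / U) (div_pos Real.pi_pos hU0)
  refine ⟨Real.exp (Real.pi * δ₀ / U) * ∑' p : ℤ × ℤ, |L.snd p + w| ^ j *
    Real.exp (-(Real.pi / U) * ((L.fst p + v) ^ 2 + (L.snd p + w) ^ 2)), Real.pi * δ₀ / U,
    by positivity, fun t ht u hu => ?_⟩
  have h1 := hs.hasSum.mul_left
    (Real.exp (Real.pi * δ₀ / U) * Real.exp (-(Real.pi * δ₀ / U) * t))
  have h2 := tsum_of_norm_bounded h1 fun p =>
    term_le j hU ht (bnd hU ht hu).1 (bnd hU ht hu).2 (hmin p)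
  unfold thA
  refine h2.trans (le_of_eq ?_)
  ring

theorem thB_decay (v w : ℝ) {j : ℕ} (hj : j ≤ 1) {U : ℝ} (hU : 1 ≤ U) :
    ∃ C δ : ℝ, 0 < δ ∧ ∀ t : ℝ, 1 ≤ t → ∀ u ∈ Icc (1 : ℝ) U,
      ‖L.thB j v w (t / u) (t * u) - (if j = 0 then 1 else 0)‖ ≤ C * Real.exp (-δ * t) := by
  classical
  have hU0 : 0 < U := by linarith
  obtain ⟨c, hc, hmin⟩ := L.exists_norm_le
  have hs := L.summable_gauss 0 0 hj (c := Real.pi / U) (div_pos Real.pi_pos hU0)
  simp only [add_zero] at hs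
  have hexp : ∀ p : ℤ × ℤ, ‖Complex.exp (2 * Real.pi * Complex.I *
      ((L.fst p * v + L.snd p * w : ℝ) : ℂ))‖ = 1 := by
    intro p
    rw [Complex.norm_exp]
    have h1 : (2 * Real.pi * Complex.I * ((L.fst p * v + L.snd p * w : ℝ) : ℂ)).re = 0 := by
      have h2 : 2 * Real.pi * Complex.I * ((L.fst p * v + L.snd p * w : ℝ) : ℂ) =
          ((2 * Real.pi * (L.fst p * v + L.snd p * w) : ℝ) : ℂ) * Complex.I := by
        push_cast
        ring
      rw [h2, Complex.re_ofReal_mul, Complex.I_re, mul_zero]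
    rw [h1, Real.exp_zero]
  have hone : ∀ p : ℤ × ℤ, p ≠ 0 → c ≤ L.fst p ^ 2 + L.snd p ^ 2 := by
    intro p hp
    refine le_trans ?_ (hmin p)
    have h1 : (1 : ℤ) ≤ p.1 ^ 2 + p.2 ^ 2 := by
      by_contra h2
      apply hp
      have h3 := sq_nonneg p.1
      have h4 := sq_nonneg p.2
      have h5 : p.1 ^ 2 = 0 := by omega
      have h6 : p.2 ^ 2 = 0 := by omega
      exact Prod.ext (pow_eq_zero_iff two_ne_zero |>.1 h5) (pow_eq_zero_iff two_ne_zero |>.1 h6)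
    have h2 : (1 : ℝ) ≤ (p.1 : ℝ) ^ 2 + (p.2 : ℝ) ^ 2 := by exact_mod_cast h1
    have h3 := mul_le_mul_of_nonneg_left h2 hc.le
    linarith
  refine ⟨Real.exp (Real.pi * c / U) * ∑' p : ℤ × ℤ, |L.snd p| ^ j *
    Real.exp (-(Real.pi / U) * (L.fst p ^ 2 + L.snd p ^ 2)), Real.pi * c / U,
    by positivity, fun t ht u hu => ?_⟩
  obtain ⟨hb1, hb2⟩ := bnd hU ht hu
  let f : ℤ × ℤ → ℂ := fun p =>
    Complex.exp (2 * Real.pi * Complex.I * ((L.fst p * v + L.snd p * w : ℝ) : ℂ)) *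
    ((L.snd p ^ j * Real.exp (-Real.pi * (t / u * L.fst p ^ 2 + t * u * L.snd p ^ 2)) : ℝ) : ℂ)
  have hf : ∀ p, ‖f p‖ =
      ‖((L.snd p ^ j * Real.exp (-Real.pi * (t / u * L.fst p ^ 2 + t * u * L.snd p ^ 2)) :
        ℝ) : ℂ)‖ := by
    intro p
    simp only [f]
    rw [norm_mul, hexp, one_mul]
  have hsum : Summable f := by
    refine Summable.of_norm_bounded hs fun p => ?_
    rw [hf]
    have h1 := term_le (α := L.fst p) (β := L.snd p) (δ₀ := 0) j hU ht hb2 hb1 (by positivity)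
    simpa using h1
  have hf0 : f 0 = if j = 0 then 1 else 0 := by
    have h1 : L.fst 0 = 0 := by simp [fst]
    have h2 : L.snd 0 = 0 := by simp [snd]
    simp only [f, h1, h2]
    split_ifs with h3
    · subst h3
      simp
    · simp [h3]
  have h1 : L.thB j v w (t / u) (t * u) - (if j = 0 then 1 else 0) =
      ∑' p, if p = 0 then 0 else f p := by
    have h2 : L.thB j v w (t / u) (t * u) = ∑' p, f p := rfl
    rw [h2, hsum.tsum_eq_add_tsum_ite 0, hf0, add_sub_cancel_left]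
  rw [h1]
  have h2 := hs.hasSum.mul_left
    (Real.exp (Real.pi * c / U) * Real.exp (-(Real.pi * c / U) * t))
  have h3 := tsum_of_norm_bounded (f := fun p => if p = 0 then 0 else f p) h2 fun p => by
    by_cases hp : p = 0
    · rw [if_pos hp, norm_zero]
      positivity
    · rw [if_neg hp, hf]
      exact term_le j hU ht hb2 hb1 (hone p hp)
  refine h3.trans (le_of_eq ?_)
  ring

end Lat

end Pool.Agent.HeckeRQ
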