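import Pool.Agent.HeckeRQ.ArtHK
import Pool.Agent.CMR.ZArt

/-!
# HQ16a: the element `R`

`exists_R`: `α = 1 - N`: `R = art (α)` (`artin_exists`). If `α, β ≡ 1`, both negative at `ι₂`, then `α β ≡ 1`,
`α² ≡ 1` are positive at `ι₂`, so `art (α) art (β) = 1 = art (α)²` and `art (β) = art (α)` (`artin_mul`,
`artin_unique`; `(α)` is prime to `N`: `absNorm (α)` and `N` have no common prime factor `p`, else a prime over
`p` which contains `α` contains `N`, so `1`; or: the norm of `α ≡ 1` modulo `N` is `≡ 1` modulo `N`).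
`unit_pos`: a unit `u ≡ 1` negative at `ι₂` gives `R = art ⊤ = 1` (`artin_top`; `ι₂ u ≠ 0`).
-/

set_option autoImplicit false

noncomputable section

open NumberField Module Pool.Agent.StarkRQ

namespace Pool.Agent.HeckeRQ

section

variable {K : Type} [Field K] [NumberField K]

set_option linter.unusedVariables false in
theorem absNorm_coprime {N : ℕ} {α : 𝓞 K} (h : (N : 𝓞 K) ∣ α - 1) (hN : N ≠ 0) :
    (Ideal.absNorm (Ideal.span {α})).Coprime N :=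
  (CMR.prm_iff _).1 (CMR.prm_span h)

end

variable {K H : Type} [Field K] [NumberField K] [Field H] [NumberField H] [Algebra K H]
  [IsAbelianGalois K H]

omit [NumberField K] in
private theorem cr_mul {N : ℕ} {α β : 𝓞 K} (h : (N : 𝓞 K) ∣ α - 1) (h' : (N : 𝓞 K) ∣ β - 1) :
    (N : 𝓞 K) ∣ α * β - 1 := by
  have e : α * β - 1 = α * (β - 1) + (α - 1) := by ring
  rw [e]
  exact dvd_add (h'.mul_left α) h

theorem exists_R {ι₂ : K →+* ℝ} {N : ℕ} (hN : 3 ≤ N)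
    (hram : ∀ p : ℕ, p.Prime → (p : ℤ) ∣ discr H → p ∣ N)
    (hmod : ∀ α : 𝓞 K, (N : 𝓞 K) ∣ α - 1 → 0 < ι₂ (α : K) →
      HasArtinSymbol (Ideal.span {α}) (1 : Gal(H/K))) :
    ∃ R : Gal(H/K), R * R = 1 ∧ ∀ α : 𝓞 K, (N : 𝓞 K) ∣ α - 1 → ι₂ (α : K) < 0 →
      HasArtinSymbol (Ideal.span {α}) R := by
  have hN0 : N ≠ 0 := by omega
  have key : ∀ α β : 𝓞 K, (N : 𝓞 K) ∣ α - 1 → ι₂ (α : K) < 0 → (N : 𝓞 K) ∣ β - 1 →
      ι₂ (β : K) < 0 → ∀ σ τ : Gal(H/K), HasArtinSymbol (Ideal.span {α}) σ →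
      HasArtinSymbol (Ideal.span {β}) τ → σ * τ = 1 := by
    intro α β hα hα' hβ hβ' σ τ hσ hτ
    have h1 := cr_mul hα hβ
    have h2 : 0 < ι₂ ((α * β : 𝓞 K) : K) := by
      have : ((α * β : 𝓞 K) : K) = (α : K) * (β : K) := by push_cast; rfl
      rw [this, map_mul]
      exact mul_pos_of_neg_of_neg hα' hβ'
    have h3 := hmod (α * β) h1 h2
    have h4 := artin_mul hσ hτ
    rw [Ideal.span_singleton_mul_span_singleton] at h4
    exact artin_unique hram (absNorm_coprime h1 hN0) h4 h3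
  have hα : (N : 𝓞 K) ∣ (1 - (N : 𝓞 K)) - 1 := ⟨-1, by ring⟩
  have hα' : ι₂ ((1 - (N : 𝓞 K) : 𝓞 K) : K) < 0 := by
    have : ((1 - (N : 𝓞 K) : 𝓞 K) : K) = 1 - (N : K) := by push_cast; rfl
    rw [this, map_sub, map_one, map_natCast]
    have : (3 : ℝ) ≤ N := by exact_mod_cast hN
    linarith
  have h0 : Ideal.span {(1 - (N : 𝓞 K) : 𝓞 K)} ≠ ⊥ := by
    rw [Ne, Ideal.span_singleton_eq_bot]
    intro h
    rw [h] at hα'
    simp at hα'
  obtain ⟨R, hR⟩ := artin_exists (H := H) h0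
  refine ⟨R, key _ _ hα hα' hα hα' R R hR hR, ?_⟩
  intro β hβ hβ'
  have h0' : Ideal.span {β} ≠ ⊥ := by
    rw [Ne, Ideal.span_singleton_eq_bot]
    rintro rfl
    simp at hβ'
  obtain ⟨τ, hτ⟩ := artin_exists (H := H) h0'
  have h1 := key _ _ hα hα' hβ hβ' R τ hR hτ
  have h2 := key _ _ hα hα' hα hα' R R hR hR
  have h3 : τ = R := mul_left_cancel (h1.trans h2.symm)
  rwa [← h3]

theorem unit_pos {ι₂ : K →+* ℝ} {N : ℕ} (hram : ∀ p : ℕ, p.Prime → (p : ℤ) ∣ discr H → p ∣ N)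
    {R : Gal(H/K)} (hR : ∀ α : 𝓞 K, (N : 𝓞 K) ∣ α - 1 → ι₂ (α : K) < 0 →
      HasArtinSymbol (Ideal.span {α}) R) (h1 : R ≠ 1) (u : (𝓞 K)ˣ)
    (hu : (N : 𝓞 K) ∣ (u : 𝓞 K) - 1) : 0 < ι₂ ((u : 𝓞 K) : K) := by
  by_contra h
  have h0 : ι₂ ((u : 𝓞 K) : K) ≠ 0 := by
    rw [map_ne_zero]
    intro h2
    exact u.ne_zero (RingOfIntegers.coe_eq_zero_iff.1 h2)
  have h2 : ι₂ ((u : 𝓞 K) : K) < 0 := lt_of_le_of_ne (not_lt.1 h) h0
  have h3 := hR u hu h2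
  rw [Ideal.span_singleton_eq_top.2 u.isUnit] at h3
  exact h1 (artin_unique hram (by simp) h3 artin_top)

end Pool.Agent.HeckeRQ
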