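import Pool.Agent.HeckeRQ.Defs
import Pool.Agent.HeckeRQ.CoeffR

/-!
# HQ16b: the coefficients of the partial zeta functions

If `n` is not prime to `N` both sides are `0` (`𝔞 𝔟 = (α)`, `α ≡ 1`, implies
`absNorm 𝔞` prime to `N` (`absNorm_coprime`), so `sgn = 0` for all `𝔞` of norm `n`). If `n` is prime to `N`: for `𝔞` of
norm `n` let `𝔟 ∈ B` be the representative, `𝔞 𝔟 = (α)`, `α ≡ 1`, where `α` is the chosen generator in the definition of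
`sgn` (`ι₂ α ≠ 0`); `art 𝔞 = (art 𝔟)⁻¹` if `ι₂ α > 0`, `R (art 𝔟)⁻¹` if `ι₂ α < 0` (`artin_mul`,
`artin_exists`, `artin_unique`); `sgn ι₂ N 𝔟' j 𝔞 = 0` for the other `𝔟' ∈ B`. So
`∑_𝔟 e(𝔟) sgn 𝔟 j 𝔞 = [art 𝔞 = σ] ± [art 𝔞 = R σ]` with
`e 𝔟 = [(art 𝔟)⁻¹ = σ] ± [(art 𝔟)⁻¹ = R σ]` (`+` for `j = 0`, `-` for `j = 1`; `R² = 1`); sum over the `𝔞` of norm
`n` (`finsum`s are finite sums, `Ideal.finite_setOf_absNorm_eq`; `Nat.card` as a sum of indicator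
functions). A common proof: `j ≤ 1`, sign `(-1)^j`.
-/

set_option autoImplicit false

noncomputable section

open NumberField Module Pool.Agent.StarkRQ

namespace Pool.Agent.HeckeRQ

variable {K H : Type} [Field K] [NumberField K] [Field H] [NumberField H] [Algebra K H]
  [IsAbelianGalois K H]

/-- the number of ideals of norm `n` with Artin symbol `τ` -/
private theorem zcoeff_eq_sum {N : ℕ}
    (hram : ∀ p : ℕ, p.Prime → (p : ℤ) ∣ discr H → p ∣ N) {n : ℕ} (hn : n ≠ 0)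
    (hc : n.Coprime N) [Fintype {𝔞 : Ideal (𝓞 K) // Ideal.absNorm 𝔞 = n}]
    [DecidableEq Gal(H/K)] (τ : Gal(H/K)) :
    (zcoeff N τ n : ℤ) = ∑ 𝔞 : {𝔞 : Ideal (𝓞 K) // Ideal.absNorm 𝔞 = n},
      if (art 𝔞.1 : Gal(H/K)) = τ then 1 else 0 := by
  classical
  unfold zcoeff
  rw [if_pos hc]
  have h1 : ∀ x : {𝔞 : Ideal (𝓞 K) // Ideal.absNorm 𝔞 = n},
      HasArtinSymbol x.1 τ ↔ (art x.1 : Gal(H/K)) = τ := by
    intro x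
    have h0 : x.1 ≠ ⊥ := by
      intro h
      apply hn
      rw [← x.2, h, Ideal.absNorm_bot]
    rw [artin_iff hram h0 (by rw [x.2]; exact hc) τ]
    exact eq_comm
  have e1 : {𝔞 : Ideal (𝓞 K) // Ideal.absNorm 𝔞 = n ∧ HasArtinSymbol 𝔞 τ} ≃
      {x : {𝔞 : Ideal (𝓞 K) // Ideal.absNorm 𝔞 = n} // (art x.1 : Gal(H/K)) = τ} :=
    (Equiv.subtypeSubtypeEquivSubtypeInter (fun 𝔞 : Ideal (𝓞 K) => Ideal.absNorm 𝔞 = n)
      (fun 𝔞 => HasArtinSymbol 𝔞 τ)).symm.trans (Equiv.subtypeEquivRight h1)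
  rw [Nat.card_congr e1, Nat.card_eq_fintype_card, Fintype.card_subtype, Finset.sum_boole]

private theorem zcoeff_comb {ι₂ : K →+* ℝ} {N : ℕ} (hN : 3 ≤ N)
    (hram : ∀ p : ℕ, p.Prime → (p : ℤ) ∣ discr H → p ∣ N)
    (hmod : ∀ α : 𝓞 K, (N : 𝓞 K) ∣ α - 1 → 0 < ι₂ (α : K) →
      HasArtinSymbol (Ideal.span {α}) (1 : Gal(H/K)))
    {R : Gal(H/K)} (hRR : R * R = 1) (hR : ∀ α : 𝓞 K, (N : 𝓞 K) ∣ α - 1 → ι₂ (α : K) < 0 →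
      HasArtinSymbol (Ideal.span {α}) R) {B : Finset (Ideal (𝓞 K))}
    (hB : ∀ 𝔟 ∈ B, 𝔟 ≠ ⊥ ∧ (Ideal.absNorm 𝔟).Coprime N)
    (hB' : ∀ 𝔞 : Ideal (𝓞 K), 𝔞 ≠ ⊥ → (Ideal.absNorm 𝔞).Coprime N →
        ∃! 𝔟, 𝔟 ∈ B ∧ ∃ α : 𝓞 K, (N : 𝓞 K) ∣ α - 1 ∧ 𝔞 * 𝔟 = Ideal.span {α})
    (j : ℕ) (σ : Gal(H/K)) : ∃ e : Ideal (𝓞 K) → ℤ, ∀ n : ℕ, n ≠ 0 →
      (zcoeff N σ n : ℤ) + (-1) ^ j * zcoeff N (R * σ) n =
        ∑ 𝔟 ∈ B, e 𝔟 * rcoef ι₂ N 𝔟 j n := by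
  classical
  have hN0 : N ≠ 0 := by omega
  have hεε : ((-1 : ℤ) ^ j) * (-1) ^ j = 1 := by
    rw [← mul_pow]
    norm_num
  refine ⟨fun 𝔟 => (if (art 𝔟 : Gal(H/K))⁻¹ = σ then 1 else 0) +
    (-1) ^ j * (if (art 𝔟 : Gal(H/K))⁻¹ = R * σ then 1 else 0), fun n hn => ?_⟩
  have hfin : Finite {𝔞 : Ideal (𝓞 K) // Ideal.absNorm 𝔞 = n} :=
    (Ideal.finite_setOfPred_absNorm_eq (S := 𝓞 K) n).to_subtype
  have := Fintype.ofFinite {𝔞 : Ideal (𝓞 K) // Ideal.absNorm 𝔞 = n}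
  have hr : ∀ 𝔟, rcoef ι₂ N 𝔟 j n =
      ∑ 𝔞 : {𝔞 : Ideal (𝓞 K) // Ideal.absNorm 𝔞 = n}, sgn ι₂ N 𝔟 j 𝔞 := fun 𝔟 =>
    finsum_eq_sum_of_fintype _
  simp only [hr, Finset.mul_sum]
  rw [Finset.sum_comm]
  by_cases hc : n.Coprime N
  · rw [zcoeff_eq_sum hram hn hc, zcoeff_eq_sum hram hn hc, Finset.mul_sum,
      ← Finset.sum_add_distrib]
    refine Finset.sum_congr rfl fun 𝔞 _ => ?_
    have h0 : 𝔞.1 ≠ ⊥ := by
      intro h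
      apply hn
      rw [← 𝔞.2, h, Ideal.absNorm_bot]
    have hca : (Ideal.absNorm 𝔞.1).Coprime N := by rw [𝔞.2]; exact hc
    obtain ⟨𝔟, ⟨hb, hα⟩, huniq⟩ := hB' 𝔞.1 h0 hca
    obtain ⟨hb0, hbN⟩ := hB 𝔟 hb
    rw [Finset.sum_eq_single 𝔟]
    · have hs : sgn ι₂ N 𝔟 j 𝔞.1 =
          ((SignType.sign (ι₂ (hα.choose : K)) : ℤ)) ^ j := by
        unfold sgn
        rw [dif_pos hα]
      obtain ⟨hα1, hα2⟩ := hα.choose_spec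
      set α : 𝓞 K := hα.choose with hαdef
      have hαne : ι₂ (α : K) ≠ 0 := by
        intro h
        have h1 : (α : K) = 0 := (map_eq_zero ι₂).1 h
        have h2 : α = 0 := by exact_mod_cast h1
        rw [h2] at hα2
        have h3 : 𝔞.1 * 𝔟 = ⊥ := by
          rw [hα2]
          simp
        rcases mul_eq_zero.1 h3 with h4 | h4
        · exact h0 h4
        · exact hb0 h4
      have ha : HasArtinSymbol 𝔞.1 (art 𝔞.1 : Gal(H/K)) := (artin_iff hram h0 hca _).2 rfl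
      have hb' : HasArtinSymbol 𝔟 (art 𝔟 : Gal(H/K)) := (artin_iff hram hb0 hbN _).2 rfl
      have hab := artin_mul ha hb'
      have hcab : (Ideal.absNorm (𝔞.1 * 𝔟)).Coprime N := by
        rw [map_mul]
        exact Nat.Coprime.mul_left hca hbN
      rw [hs]
      rcases lt_or_gt_of_ne hαne with hneg | hpos
      · -- negative
        have h1 : (art 𝔞.1 : Gal(H/K)) * art 𝔟 = R :=
          artin_unique hram hcab hab (by rw [hα2]; exact hR α hα1 hneg)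
        have h2 : (art 𝔟 : Gal(H/K))⁻¹ = R * art 𝔞.1 := by
          have h3 : (art 𝔟 : Gal(H/K))⁻¹ = R⁻¹ * art 𝔞.1 := by
            rw [← h1]
            group
          rw [h3]
          congr 1
          exact inv_eq_of_mul_eq_one_left hRR
        have h4 : R * (art 𝔞.1 : Gal(H/K)) = σ ↔ (art 𝔞.1 : Gal(H/K)) = R * σ := by
          constructor
          · intro h
            rw [← h, ← mul_assoc, hRR, one_mul]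
          · intro h
            rw [h, ← mul_assoc, hRR, one_mul]
        rw [h2, sign_neg hneg]
        simp only [mul_right_inj, h4]
        simp only [SignType.coe_neg, SignType.coe_one]
        linear_combination (-(if (art 𝔞.1 : Gal(H/K)) = σ then (1 : ℤ) else 0)) * hεε
      · have h1 : (art 𝔞.1 : Gal(H/K)) * art 𝔟 = 1 :=
          artin_unique hram hcab hab (by rw [hα2]; exact hmod α hα1 hpos)
        have h2 : (art 𝔟 : Gal(H/K))⁻¹ = art 𝔞.1 := inv_eq_of_mul_eq_one_left h1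
        rw [h2, sign_pos hpos]
        simp
    · intro 𝔟' hb'' hne
      have h1 : sgn ι₂ N 𝔟' j 𝔞.1 = 0 := by
        unfold sgn
        rw [dif_neg fun h => hne (huniq 𝔟' ⟨hb'', h⟩)]
      rw [h1, mul_zero]
    · intro h
      exact absurd hb h
  · have hz : ∀ τ : Gal(H/K), zcoeff N τ n = 0 := fun τ => if_neg hc
    rw [hz, hz]
    simp only [Nat.cast_zero, mul_zero, add_zero]
    symm
    refine Finset.sum_eq_zero fun 𝔞 _ => Finset.sum_eq_zero fun 𝔟 _ => ?_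
    have h1 : sgn ι₂ N 𝔟 j 𝔞.1 = 0 := by
      unfold sgn
      rw [dif_neg]
      rintro ⟨α, hα1, hα2⟩
      apply hc
      have h2 := absNorm_coprime hα1 hN0
      rw [← hα2, map_mul, 𝔞.2] at h2
      exact Nat.Coprime.coprime_mul_right h2
    rw [h1, mul_zero]

theorem zcoeff_even {ι₂ : K →+* ℝ} {N : ℕ} (hN : 3 ≤ N)
    (hram : ∀ p : ℕ, p.Prime → (p : ℤ) ∣ discr H → p ∣ N)
    (hmod : ∀ α : 𝓞 K, (N : 𝓞 K) ∣ α - 1 → 0 < ι₂ (α : K) →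
      HasArtinSymbol (Ideal.span {α}) (1 : Gal(H/K)))
    {R : Gal(H/K)} (hRR : R * R = 1) (hR : ∀ α : 𝓞 K, (N : 𝓞 K) ∣ α - 1 → ι₂ (α : K) < 0 →
      HasArtinSymbol (Ideal.span {α}) R) {B : Finset (Ideal (𝓞 K))}
    (hB : ∀ 𝔟 ∈ B, 𝔟 ≠ ⊥ ∧ (Ideal.absNorm 𝔟).Coprime N)
    (hB' : ∀ 𝔞 : Ideal (𝓞 K), 𝔞 ≠ ⊥ → (Ideal.absNorm 𝔞).Coprime N →
        ∃! 𝔟, 𝔟 ∈ B ∧ ∃ α : 𝓞 K, (N : 𝓞 K) ∣ α - 1 ∧ 𝔞 * 𝔟 = Ideal.span {α})
    (σ : Gal(H/K)) : ∃ e : Ideal (𝓞 K) → ℤ, ∀ n : ℕ, n ≠ 0 →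
      (zcoeff N σ n : ℤ) + zcoeff N (R * σ) n = ∑ 𝔟 ∈ B, e 𝔟 * rcoef ι₂ N 𝔟 0 n := by
  obtain ⟨e, he⟩ := zcoeff_comb hN hram hmod hRR hR hB hB' 0 σ
  refine ⟨e, fun n hn => ?_⟩
  have h := he n hn
  rw [pow_zero, one_mul] at h
  exact h

theorem zcoeff_odd {ι₂ : K →+* ℝ} {N : ℕ} (hN : 3 ≤ N)
    (hram : ∀ p : ℕ, p.Prime → (p : ℤ) ∣ discr H → p ∣ N)
    (hmod : ∀ α : 𝓞 K, (N : 𝓞 K) ∣ α - 1 → 0 < ι₂ (α : K) →
      HasArtinSymbol (Ideal.span {α}) (1 : Gal(H/K)))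
    {R : Gal(H/K)} (hRR : R * R = 1) (hR : ∀ α : 𝓞 K, (N : 𝓞 K) ∣ α - 1 → ι₂ (α : K) < 0 →
      HasArtinSymbol (Ideal.span {α}) R) {B : Finset (Ideal (𝓞 K))}
    (hB : ∀ 𝔟 ∈ B, 𝔟 ≠ ⊥ ∧ (Ideal.absNorm 𝔟).Coprime N)
    (hB' : ∀ 𝔞 : Ideal (𝓞 K), 𝔞 ≠ ⊥ → (Ideal.absNorm 𝔞).Coprime N →
        ∃! 𝔟, 𝔟 ∈ B ∧ ∃ α : 𝓞 K, (N : 𝓞 K) ∣ α - 1 ∧ 𝔞 * 𝔟 = Ideal.span {α})
    (σ : Gal(H/K)) : ∃ e : Ideal (𝓞 K) → ℤ, ∀ n : ℕ, n ≠ 0 →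
      (zcoeff N σ n : ℤ) - zcoeff N (R * σ) n = ∑ 𝔟 ∈ B, e 𝔟 * rcoef ι₂ N 𝔟 1 n := by
  obtain ⟨e, he⟩ := zcoeff_comb hN hram hmod hRR hR hB hB' 1 σ
  refine ⟨e, fun n hn => ?_⟩
  have h := he n hn
  rw [← h]
  ring

end Pool.Agent.HeckeRQ
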