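import Pool.Agent.HeckeRQ.Conj
import Pool.Agent.StarkRQ.Inert

/-!
# Frobenius elements at primes `p ≡ -1` and the complex conjugation on quadratic fields
-/

set_option autoImplicit false

noncomputable section

open NumberField Module Pool.Agent.StarkRQ
open scoped Pointwise

namespace Pool.Agent.HeckeRQ

private theorem ca_legendre_nat {p : ℕ} [hp : Fact p.Prime] :
    ∀ n : ℕ, n ≠ 0 → 8 * n ∣ p + 1 → legendreSym p (n : ℤ) = 1 := by
  intro n
  induction n using Nat.recOnMul with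
  | zero => intro h; exact absurd rfl h
  | one => intro _ _; simp
  | prime q hq =>
    intro _ hd
    have : Fact q.Prime := ⟨hq⟩
    have h8 : 8 ∣ p + 1 := (Dvd.intro q rfl).trans hd
    have h4 : p % 4 = 3 := by omega
    have hp2 : p ≠ 2 := by omega
    rcases eq_or_ne q 2 with rfl | hq2
    · have h1 := legendreSym.at_two (p := p) hp2
      have h2 : legendreSym p ((2 : ℕ) : ℤ) = legendreSym p 2 := rfl
      rw [h2, h1]
      have h7 : ((p : ℕ) : ZMod 8) = ((7 : ℕ) : ZMod 8) := by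
        rw [ZMod.natCast_eq_natCast_iff]
        unfold Nat.ModEq
        omega
      rw [h7]
      decide
    · have hqp : q ∣ p + 1 := (Dvd.intro_left 8 rfl).trans hd
      have h1 := legendreSym.quadratic_reciprocity' (p := p) (q := q) hp2 hq2
      have h2 : legendreSym q (p : ℤ) = legendreSym q (-1) := by
        unfold legendreSym
        congr 1
        have h3 : ((p + 1 : ℕ) : ZMod q) = 0 := (ZMod.natCast_eq_zero_iff _ _).2 hqp
        push_cast at h3 ⊢
        linear_combination h3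
      have hq1 : q % 2 = 1 := (hq.eq_two_or_odd).resolve_left hq2
      rw [h2, legendreSym.at_neg_one hq2, ZMod.χ₄_eq_neg_one_pow hq1, pow_mul] at h1
      have h5 : (-1 : ℤ) ^ (p / 2) = -1 := Odd.neg_one_pow (by rw [Nat.odd_iff]; omega)
      rw [h5] at h1
      have h6 : ((-1 : ℤ) ^ (q / 2)) * ((-1 : ℤ) ^ (q / 2)) = 1 := by
        rw [← mul_pow]
        simp
      calc legendreSym p (q : ℤ) = ((-1 : ℤ) ^ (q / 2)) * ((-1) ^ (q / 2) * legendreSym p q) := by
            rw [← mul_assoc, h6, one_mul]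
        _ = ((-1 : ℤ) ^ (q / 2)) * ((-1 : ℤ) ^ (q / 2)) := by rw [← h1]
        _ = 1 := h6
  | mul a b ha hb =>
    intro h0 hd
    have ha0 : a ≠ 0 := fun h => h0 (by rw [h, zero_mul])
    have hb0 : b ≠ 0 := fun h => h0 (by rw [h, mul_zero])
    have h1 := ha ha0 ((mul_dvd_mul_left 8 (Dvd.intro b rfl)).trans hd)
    have h2 := hb hb0 ((mul_dvd_mul_left 8 (Dvd.intro_left a rfl)).trans hd)
    push_cast
    rw [legendreSym.mul, h1, h2, one_mul]

/-- the Legendre symbol of `d` at a prime `p ≡ -1` modulo `8 |d|` -/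
theorem legendre_neg {p : ℕ} [hp : Fact p.Prime] {d : ℤ} (hd : d ≠ 0)
    (h : 8 * d.natAbs ∣ p + 1) : legendreSym p d = d.sign := by
  have h0 : d.natAbs ≠ 0 := Int.natAbs_ne_zero.2 hd
  have h1 := ca_legendre_nat d.natAbs h0 h
  have h8 : 8 ∣ p + 1 := (Dvd.intro _ rfl).trans h
  have hp2 : p ≠ 2 := by omega
  have hm1 : legendreSym p (-1) = -1 := by
    rw [legendreSym.at_neg_one hp2, ZMod.χ₄_nat_three_mod_four (by omega)]
  rcases lt_or_gt_of_ne hd with h2 | h2
  · rw [Int.sign_eq_neg_one_of_neg h2]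
    have h3 : d = -1 * (d.natAbs : ℤ) := by omega
    rw [h3, legendreSym.mul, h1, hm1]
    rfl
  · rw [Int.sign_eq_one_of_pos h2]
    have h3 : d = (d.natAbs : ℤ) := by omega
    rw [h3, h1]

/-- a generator of a quadratic field -/
theorem exists_theta {M F : Type} [Field M] [NumberField M] [IsGalois ℚ M] [Field F]
    [NumberField F] [Algebra F M] (hF : finrank ℚ F = 2) :
    ∃ (θ : 𝓞 M) (d : ℤ), d ≠ 0 ∧ θ ^ 2 = (d : 𝓞 M) ∧
      (∀ g : Gal(M/ℚ), g ∈ fixG F M → g • θ = θ) ∧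
      (∀ g : Gal(M/ℚ), g ∉ fixG F M → g • θ = -θ) := by
  have hFM : IsGalois F M := IsGalois.tower_top_of_isGalois ℚ F M
  have hA : (fixG F M).index = 2 := fixG_index (F := F) (M := M) hF
  have hnorm : (fixG F M).Normal := Subgroup.normal_of_index_eq_two hA
  obtain ⟨t, ht⟩ : ∃ t, t ∉ fixG F M := by
    by_contra h
    push Not at h
    have h1 : fixG F M = ⊤ := (Subgroup.eq_top_iff' _).2 h
    rw [h1, Subgroup.index_top] at hA
    omega
  obtain ⟨a, ha⟩ : ∃ a : 𝓞 F, t • algebraMap (𝓞 F) (𝓞 M) a ≠ algebraMap (𝓞 F) (𝓞 M) a := by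
    by_contra h
    push Not at h
    apply ht
    rw [mem_fixG]
    have key : ∀ a : 𝓞 F, t (algebraMap F M (a : F)) = algebraMap F M (a : F) := fun a =>
      congrArg (fun z : 𝓞 M => (z : M)) (h a)
    intro x
    obtain ⟨a, b, hb, rfl⟩ := IsFractionRing.div_surjective (A := 𝓞 F) x
    rw [map_div₀, map_div₀, key, key]
  set x : 𝓞 M := algebraMap (𝓞 F) (𝓞 M) a with hx
  have hfix : ∀ g : Gal(M/ℚ), g ∈ fixG F M → g • x = x := fun g hg => by
    apply RingOfIntegers.ext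
    exact mem_fixG.1 hg (a : F)
  have h1 : ∀ g : Gal(M/ℚ), g ∈ fixG F M → g • (t • x) = t • x := fun g hg => by
    have h2 := hnorm.conj_mem g hg t⁻¹
    have h3 := hfix _ h2
    have h4 : g * t = t * (t⁻¹ * g * t⁻¹⁻¹) := by group
    rw [← mul_smul, h4, mul_smul, h3]
  have h2 : ∀ g : Gal(M/ℚ), g ∉ fixG F M → g • x = t • x := fun g hg => by
    have h3 : t⁻¹ * g ∈ fixG F M := by
      rw [Subgroup.mul_mem_iff_of_index_two hA, inv_mem_iff]
      tauto
    have h4 := hfix _ h3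
    have h5 : g = t * (t⁻¹ * g) := by group
    rw [h5, mul_smul, h4]
  have h3 : ∀ g : Gal(M/ℚ), g ∉ fixG F M → g • (t • x) = x := fun g hg => by
    have h4 : g * t ∈ fixG F M := by
      rw [Subgroup.mul_mem_iff_of_index_two hA]
      tauto
    rw [← mul_smul]
    exact hfix _ h4
  have hf1 : ∀ g : Gal(M/ℚ), g ∈ fixG F M → g • (x - t • x) = x - t • x := fun g hg => by
    rw [smul_sub, hfix g hg, h1 g hg]
  have hf2 : ∀ g : Gal(M/ℚ), g ∉ fixG F M → g • (x - t • x) = -(x - t • x) := fun g hg => by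
    rw [smul_sub, h2 g hg, h3 g hg]
    ring
  have hinv : ∀ g : Gal(M/ℚ), g • ((x - t • x) ^ 2) = (x - t • x) ^ 2 := fun g => by
    rw [smul_pow']
    by_cases hg : g ∈ fixG F M
    · rw [hf1 g hg]
    · rw [hf2 g hg]
      ring
  obtain ⟨d, hd⟩ := Algebra.IsInvariant.isInvariant (A := ℤ) (G := Gal(M/ℚ)) _ hinv
  refine ⟨x - t • x, d, ?_, ?_, hf1, hf2⟩
  · rintro rfl
    rw [map_zero] at hd
    have h4 := pow_eq_zero_iff (two_ne_zero) |>.1 hd.symm
    exact ha (sub_eq_zero.1 h4).symm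
  · rw [← hd]
    rfl

/-- a Frobenius element at `p ≡ -1` modulo `8 |d|` acts on `√d` as the sign of `d` -/
theorem theta_frob {M : Type} [Field M] [NumberField M] {θ : 𝓞 M} {d : ℤ} (hd : d ≠ 0)
    (h : θ ^ 2 = (d : 𝓞 M)) {p : ℕ} (hp : p.Prime) (hpd : 8 * d.natAbs ∣ p + 1)
    {Q : Ideal (𝓞 M)} [hQ : Q.IsPrime] (hpQ : (p : 𝓞 M) ∈ Q) {φ : Gal(M/ℚ)} (hφ : Cong φ Q p)
    (hs : φ • θ = θ ∨ φ • θ = -θ) : φ • θ = (d.sign : 𝓞 M) * θ := by
  have : Fact p.Prime := ⟨hp⟩
  have h8 : 8 ∣ p + 1 := (Dvd.intro _ rfl).trans hpd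
  have hpow : θ ^ p - (d.sign : 𝓞 M) * θ ∈ Q := by
    have h1 : θ ^ p = (d : 𝓞 M) ^ (p / 2) * θ := by
      rw [← h, ← pow_mul, ← pow_succ]
      congr 1
      omega
    have h2 := legendreSym.eq_pow p d
    rw [legendre_neg hd hpd] at h2
    have h3 : ((d.sign - d ^ (p / 2) : ℤ) : ZMod p) = 0 := by
      push_cast
      rw [h2, sub_self]
    rw [ZMod.intCast_zmod_eq_zero_iff_dvd] at h3
    obtain ⟨k, hk⟩ := h3
    have h4 : θ ^ p - (d.sign : 𝓞 M) * θ = -(k : 𝓞 M) * θ * (p : 𝓞 M) := by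
      have h5 := congrArg (fun z : ℤ => (z : 𝓞 M)) hk
      push_cast at h5
      rw [h1]
      linear_combination -θ * h5
    rw [h4]
    exact Q.mul_mem_left _ hpQ
  have h1 : φ • θ - (d.sign : 𝓞 M) * θ ∈ Q := by
    have h2 := Q.add_mem (hφ θ) hpow
    have h3 : φ • θ - θ ^ p + (θ ^ p - (d.sign : 𝓞 M) * θ) = φ • θ - (d.sign : 𝓞 M) * θ := by
      ring
    rwa [h3] at h2
  have key : 2 * θ ∉ Q := by
    intro h2
    have h3 : ((4 * d : ℤ) : 𝓞 M) ∈ Q := by
      have h4 := Q.mul_mem_left (2 * θ) h2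
      have h5 : 2 * θ * (2 * θ) = ((4 * d : ℤ) : 𝓞 M) := by
        push_cast
        linear_combination 4 * h
      rwa [h5] at h4
    have h4 : IsCoprime (4 * d) (p : ℤ) := by
      rw [Int.isCoprime_iff_gcd_eq_one, Int.gcd_comm]
      have h5 : Nat.Coprime p (4 * d.natAbs) := by
        rw [Nat.Prime.coprime_iff_not_dvd hp]
        intro h6
        have h7 : p ∣ 8 * d.natAbs := h6.trans ⟨2, by ring⟩
        have h8 := h7.trans hpd
        have h9 := (Nat.dvd_add_right (dvd_refl p)).1 h8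
        exact hp.one_lt.ne' (Nat.dvd_one.1 h9)
      have h6 : Int.gcd (p : ℤ) (4 * d) = Nat.gcd p (4 * d.natAbs) := by
        rw [Int.gcd, Int.natAbs_mul, Int.natAbs_natCast]
        rfl
      rw [h6]
      exact h5
    obtain ⟨u, v, huv⟩ := h4
    apply hQ.ne_top
    rw [Ideal.eq_top_iff_one]
    have h5 : (1 : 𝓞 M) = (u : 𝓞 M) * ((4 * d : ℤ) : 𝓞 M) + (v : 𝓞 M) * (p : 𝓞 M) := by
      have := congrArg (fun z : ℤ => (z : 𝓞 M)) huv
      push_cast at this ⊢
      exact this.symm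
    rw [h5]
    exact Q.add_mem (Q.mul_mem_left _ h3) (Q.mul_mem_left _ hpQ)
  rcases lt_or_gt_of_ne hd with h2 | h2
  · rw [Int.sign_eq_neg_one_of_neg h2] at h1 ⊢
    rcases hs with h3 | h3
    · rw [h3] at h1
      exfalso
      apply key
      have h4 : θ - ((-1 : ℤ) : 𝓞 M) * θ = 2 * θ := by push_cast; ring
      rwa [h4] at h1
    · rw [h3]
      push_cast
      ring
  · rw [Int.sign_eq_one_of_pos h2] at h1 ⊢
    rcases hs with h3 | h3
    · rw [h3]
      push_cast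
      ring
    · rw [h3] at h1
      exfalso
      apply key
      have h4 : 2 * θ = -(-θ - ((1 : ℤ) : 𝓞 M) * θ) := by push_cast; ring
      rw [h4]
      exact Q.neg_mem h1

/-- a Frobenius element at `p ≡ -1` modulo `D` acts on a quadratic field as the complex
conjugation -/
theorem exists_mod_neg {M F : Type} [Field M] [NumberField M] [IsGalois ℚ M] [Field F]
    [NumberField F] [Algebra F M] (hF : finrank ℚ F = 2) :
    ∃ D : ℕ, D ≠ 0 ∧ ∀ (ι : M →+* ℂ) (c : Gal(M/ℚ)), (∀ x, ι (c x) = starRingEnd ℂ (ι x)) →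
      ∀ p : ℕ, p.Prime → D ∣ p + 1 → ∀ (Q : Ideal (𝓞 M)) [Q.IsPrime], (p : 𝓞 M) ∈ Q →
        ∀ φ : Gal(M/ℚ), Cong φ Q p → (φ ∈ fixG F M ↔ c ∈ fixG F M) := by
  obtain ⟨θ, d, hd, h, h1, h2⟩ := exists_theta (M := M) (F := F) hF
  refine ⟨8 * d.natAbs, mul_ne_zero (by norm_num) (Int.natAbs_ne_zero.2 hd), ?_⟩
  intro ι c hc p hp hpd Q hQ hpQ φ hφ
  have hθ0 : θ ≠ 0 := by
    rintro rfl
    apply hd
    have h3 : ((d : ℤ) : 𝓞 M) = ((0 : ℤ) : 𝓞 M) := by
      rw [← h]
      simp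
    exact Int.cast_injective h3
  have hne : ¬ θ = -θ := fun h3 => by
    have h4 : (2 : 𝓞 M) * θ = 0 := by linear_combination h3
    rcases mul_eq_zero.1 h4 with h5 | h5
    · exact two_ne_zero h5
    · exact hθ0 h5
  have hφθ := theta_frob hd h hp hpd hpQ hφ (by
    by_cases hg : φ ∈ fixG F M
    · exact Or.inl (h1 φ hg)
    · exact Or.inr (h2 φ hg))
  have hsq : (ι (θ : M)) ^ 2 = (d : ℂ) := by
    have h3 := congrArg (fun z : 𝓞 M => ι (z : M)) h
    simpa using h3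
  by_cases hcF : c ∈ fixG F M
  · have h3 := h1 c hcF
    have h4 : starRingEnd ℂ (ι (θ : M)) = ι (θ : M) := by
      rw [← hc]
      exact congrArg (fun z : 𝓞 M => ι (z : M)) h3
    obtain ⟨r, hr⟩ := Complex.conj_eq_iff_real.1 h4
    have hdpos : 0 < d := by
      rw [hr] at hsq
      have h5 : (r ^ 2 : ℝ) = (d : ℝ) := by exact_mod_cast hsq
      have h6 : (0 : ℝ) ≤ (d : ℝ) := by rw [← h5]; positivity
      have h7 : (0 : ℤ) ≤ d := by exact_mod_cast h6
      omega
    rw [Int.sign_eq_one_of_pos hdpos] at hφθ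
    refine ⟨fun _ => hcF, fun _ => ?_⟩
    by_contra hg
    rw [h2 φ hg] at hφθ
    apply hne
    push_cast at hφθ
    linear_combination -hφθ
  · have h3 := h2 c hcF
    have h4 : starRingEnd ℂ (ι (θ : M)) = -ι (θ : M) := by
      rw [← hc, ← map_neg]
      exact congrArg (fun z : 𝓞 M => ι (z : M)) h3
    have hdneg : d < 0 := by
      have h5 : (ι (θ : M)).re = 0 := by
        have := congrArg Complex.re h4
        simp only [Complex.conj_re, Complex.neg_re] at this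
        linarith
      have h6 := congrArg Complex.re hsq
      rw [pow_two, Complex.mul_re, h5] at h6
      simp only [Complex.intCast_re] at h6
      have h7 : (d : ℝ) ≤ 0 := by nlinarith [sq_nonneg (ι (θ : M)).im]
      have h8 : d ≤ 0 := by exact_mod_cast h7
      omega
    rw [Int.sign_eq_neg_one_of_neg hdneg] at hφθ
    refine ⟨fun hg => ?_, fun hg => absurd hg hcF⟩
    rw [h1 φ hg] at hφθ
    exfalso
    apply hne
    push_cast at hφθ
    linear_combination hφθ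

/-- the square of a Frobenius element at an inert prime number is the Artin symbol of `(p)` -/
theorem art_inert {F M : Type} [Field F] [NumberField F] [Field M] [NumberField M] [Algebra F M]
    [IsGalois ℚ M] [IsGalois F M] (hF : finrank ℚ F = 2)
    (hab : ∀ σ τ : Gal(M/F), σ * τ = τ * σ) {N : ℕ}
    (hram : ∀ p : ℕ, p.Prime → (p : ℤ) ∣ discr M → p ∣ N) {p : ℕ} (hp : p.Prime)
    (hpN : p.Coprime N) {Q : Ideal (𝓞 M)} [Q.IsPrime] (hpQ : (p : 𝓞 M) ∈ Q) {φ : Gal(M/ℚ)}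
    (hφ : Cong φ Q p) (hφF : φ ∉ fixG F M) :
    toG F M (art (Ideal.span {(p : 𝓞 F)})) = φ ^ 2 := by
  classical
  have h1 := cnt_inert hF hab hram hp hpN hpQ hφ hφF (fixG_index (F := F) (M := M) hF) 2
    (toG F M (art (Ideal.span {(p : 𝓞 F)})))
  by_contra h
  rw [if_neg (fun h2 => h h2.2.symm), cnt, Nat.card_eq_zero] at h1
  rcases h1 with h1 | h1
  · refine h1.false ⟨Ideal.span {(p : 𝓞 F)}, ?_, rfl⟩
    rw [Ideal.absNorm_span_natCast, RingOfIntegers.rank, hF]
  · have hfin : Finite {𝔞 : Ideal (𝓞 F) // Ideal.absNorm 𝔞 = p ^ 2} :=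
      (Ideal.finite_setOfPred_absNorm_eq (p ^ 2)).to_subtype
    have hfin2 : Finite {𝔞 : Ideal (𝓞 F) // Ideal.absNorm 𝔞 = p ^ 2 ∧
        toG F M (art 𝔞) = toG F M (art (Ideal.span {(p : 𝓞 F)}))} :=
      Finite.of_injective (fun a => (⟨a.1, a.2.1⟩ : {𝔞 : Ideal (𝓞 F) // Ideal.absNorm 𝔞 = p ^ 2}))
        (fun a b hab => Subtype.ext (congrArg (fun z => z.1) hab))
    exact not_finite_iff_infinite.2 h1 hfin2

end Pool.Agent.HeckeRQ
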