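import Pool.Agent.HeckeRQ.Defs

/-!
# HQ10: the elements of an ideal congruent to `1` modulo `N` as a shifted lattice

`𝔟` is prime to `N` (`absNorm 𝔟 ∈ 𝔟`, so `𝔟 + (N) = 1`): there is `α₀ ∈ 𝔟` with `α₀ ≡ 1` modulo `N`, and
`{α ∈ 𝔟 : N ∣ α - 1} = α₀ + N 𝔟` (`𝔟 ∩ (N) = N 𝔟`: if `N x ∈ 𝔟` then `x ∈ 𝔟`, as `x = (n a + N b) x`,
`n = absNorm 𝔟`, `n a + N b = 1`). `𝔟` is a free `ℤ`-module of rank `2`
(`Ideal.finrank..`, `Ideal.selfBasis` of an integral basis: `Ideal.selfBasis (RingOfIntegers.basis K)`,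
index type of cardinality `finrank ℚ K = 2`), basis `ω₁ ω₂`; `L` has
`a_i = ι₁ (N ω_i)`, `b_i = ι₂ (N ω_i)`, `v = ι₁ α₀`, `w = ι₂ α₀`, `φ (m, n) = α₀ + N (m ω₁ + n ω₂)`.
`det ≠ 0`: `(ω₁, ω₂)` is a `ℚ`-basis of `K` (linear independence over `ℤ` implies it over `ℚ`:
`LinearIndependent.localization`, `LinearIndependent.iff_fractionRing`), and if `det = 0` there is a nonzero
real vector `(c, d)` with `c ι₁ ω_i + d ι₂ ω_i = 0` for `i = 1, 2`, so `c ι₁ + d ι₂ = 0` on `K`, at `1`: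
`d = - c ≠ 0`, so `ι₁ = ι₂`, a contradiction.
-/

set_option autoImplicit false

noncomputable section

open NumberField Module

namespace Pool.Agent.HeckeRQ

variable {K : Type} [Field K] [NumberField K]

private theorem cos_rat (hK : finrank ℚ K = 2) {ι₁ ι₂ : K →+* ℝ} (hι : ι₁ ≠ ι₂) {x : K}
    (hx : ι₁ x = ι₂ x) : ∃ r : ℚ, (r : K) = x := by
  have h1 : Nat.Prime (finrank ℚ K) := by
    rw [hK]
    exact Nat.prime_two
  let σ : K →ₐ[ℚ] ℝ := ι₁.toRatAlgHom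
  let τ : K →ₐ[ℚ] ℝ := ι₂.toRatAlgHom
  have h2 := (Subalgebra.isSimpleOrder_of_finrank_prime ℚ K h1).eq_bot_or_eq_top
    (AlgHom.equalizer σ τ)
  have hx' : x ∈ AlgHom.equalizer σ τ := hx
  rcases h2 with h2 | h2
  · rw [h2, Algebra.mem_bot] at hx'
    obtain ⟨r, hr⟩ := hx'
    exact ⟨r, by rw [← hr]; exact (eq_ratCast (algebraMap ℚ K) r).symm⟩
  · exfalso
    apply hι
    ext y
    have h6 : y ∈ AlgHom.equalizer σ τ := by
      rw [h2]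
      trivial
    exact h6

private theorem cos_det (hK : finrank ℚ K = 2) {ι₁ ι₂ : K →+* ℝ} (hι : ι₁ ≠ ι₂) {x y : 𝓞 K}
    (h : ∀ s t : ℤ, (s : 𝓞 K) * x + t * y = 0 → s = 0 ∧ t = 0) :
    ι₁ (x : K) * ι₂ (y : K) - ι₁ (y : K) * ι₂ (x : K) ≠ 0 := by
  intro h0
  have hx : x ≠ 0 := by
    rintro rfl
    have := (h 1 0 (by simp)).1
    exact one_ne_zero this
  have hxK : (x : K) ≠ 0 := by rwa [Ne, RingOfIntegers.coe_eq_zero_iff]
  have h1 : ι₁ (x : K) ≠ 0 := (map_ne_zero ι₁).2 hxK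
  have h2 : ι₂ (x : K) ≠ 0 := (map_ne_zero ι₂).2 hxK
  have h3 : ι₁ ((y : K) / x) = ι₂ ((y : K) / x) := by
    rw [map_div₀, map_div₀, div_eq_div_iff h1 h2]
    linarith
  obtain ⟨r, hr⟩ := cos_rat hK hι h3
  have h4 : (y : K) = r * x := by
    rw [hr, div_mul_cancel₀ _ hxK]
  have hd : ((r.den : ℤ) : K) ≠ 0 := by exact_mod_cast r.den_nz
  have h5 : (((-r.num : ℤ) : 𝓞 K)) * x + ((r.den : ℤ) : 𝓞 K) * y = 0 := by
    apply RingOfIntegers.coe_injective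
    simp only [RingOfIntegers.coe_eq_algebraMap] at h4 ⊢
    rw [map_add, map_mul, map_mul, map_intCast, map_intCast, map_zero, h4]
    have h6 : (r : K) = (r.num : K) / ((r.den : ℤ) : K) := by
      rw [Int.cast_natCast]
      exact Rat.cast_def r
    rw [h6]
    field_simp
    push_cast
    ring
  have := (h _ _ h5).2
  exact r.den_nz (by exact_mod_cast this)

theorem exists_coset (hK : finrank ℚ K = 2) {ι₁ ι₂ : K →+* ℝ} (hι : ι₁ ≠ ι₂) {N : ℕ}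
    (hN : N ≠ 0) {𝔟 : Ideal (𝓞 K)} (h0 : 𝔟 ≠ ⊥) (hb : (Ideal.absNorm 𝔟).Coprime N) :
    ∃ (L : Lat) (v w : ℝ) (φ : ℤ × ℤ ≃ {α : 𝓞 K // α ∈ 𝔟 ∧ (N : 𝓞 K) ∣ α - 1}),
      ∀ p, ι₁ ((φ p : 𝓞 K) : K) = L.fst p + v ∧ ι₂ ((φ p : 𝓞 K) : K) = L.snd p + w := by
  have hr : Module.finrank ℤ (𝓞 K) = 2 := by
    rw [RingOfIntegers.rank, hK]
  let B₀ : Module.Basis (Fin 2) ℤ (𝓞 K) := Module.finBasisOfFinrankEq ℤ (𝓞 K) hr
  let B : Module.Basis (Fin 2) ℤ 𝔟 := Ideal.selfBasis B₀ 𝔟 h0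
  have hB : ∀ s t : ℤ, (s : 𝓞 K) * (B 0 : 𝓞 K) + t * (B 1 : 𝓞 K) = 0 → s = 0 ∧ t = 0 := by
    intro s t hst
    have h1 : s • B 0 + t • B 1 = 0 := by
      apply Subtype.ext
      simpa [zsmul_eq_mul] using hst
    have h2 := (LinearIndependent.pair_iff (R := ℤ) (x := B 0) (y := B 1)).1 (by
      have h3 := B.linearIndependent
      have h4 : (B : Fin 2 → 𝔟) = ![B 0, B 1] := by
        ext i
        fin_cases i <;> rfl
      rwa [h4] at h3) s t h1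
    exact h2
  have hdet := cos_det hK hι hB
  have hNR : (N : ℝ) ≠ 0 := by exact_mod_cast hN
  have hNO : (N : 𝓞 K) ≠ 0 := by exact_mod_cast hN
  set x : 𝓞 K := (B 0 : 𝓞 K) with hx
  set y : 𝓞 K := (B 1 : 𝓞 K) with hy
  have hxb : x ∈ 𝔟 := (B 0).2
  have hyb : y ∈ 𝔟 := (B 1).2
  obtain ⟨a, b, hab⟩ := Nat.isCoprime_iff_coprime.2 hb
  have hab' : (a : 𝓞 K) * (Ideal.absNorm 𝔟 : 𝓞 K) + b * (N : 𝓞 K) = 1 := by
    exact_mod_cast congrArg (Int.cast : ℤ → 𝓞 K) hab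
  set α₀ : 𝓞 K := (a : 𝓞 K) * (Ideal.absNorm 𝔟 : 𝓞 K) with hα
  have hα0 : α₀ ∈ 𝔟 := Ideal.mul_mem_left _ _ (Ideal.absNorm_mem 𝔟)
  let f : ℤ × ℤ → {α : 𝓞 K // α ∈ 𝔟 ∧ (N : 𝓞 K) ∣ α - 1} := fun p =>
    ⟨α₀ + N * (p.1 * x + p.2 * y), 𝔟.add_mem hα0 (Ideal.mul_mem_left _ _
      (𝔟.add_mem (Ideal.mul_mem_left _ _ hxb) (Ideal.mul_mem_left _ _ hyb))),
      ⟨p.1 * x + p.2 * y - b, by linear_combination hab'⟩⟩
  have hf : Function.Bijective f := by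
    constructor
    · intro p q hpq
      have h1 : α₀ + N * (p.1 * x + p.2 * y) = α₀ + N * (q.1 * x + q.2 * y) :=
        congrArg Subtype.val hpq
      have h2 := mul_left_cancel₀ hNO (add_left_cancel h1)
      have h3 := hB (p.1 - q.1) (p.2 - q.2) (by
        push_cast
        linear_combination h2)
      exact Prod.ext (by omega) (by omega)
    · rintro ⟨α, hα1, z, hz⟩
      have h1 : α - α₀ = N * (z + b) := by linear_combination hz - hab'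
      have h2 : z + b ∈ 𝔟 := by
        have h3 : z + b = a * (Ideal.absNorm 𝔟 : 𝓞 K) * (z + b) + b * (α - α₀) := by
          rw [h1]
          linear_combination -(z + b) * hab'
        rw [h3]
        exact 𝔟.add_mem (𝔟.mul_mem_right _ hα0) (𝔟.mul_mem_left _ (𝔟.sub_mem hα1 hα0))
      have h4 := B.sum_repr ⟨z + b, h2⟩
      rw [Fin.sum_univ_two] at h4
      have h5 : (B.repr ⟨z + b, h2⟩ 0 : 𝓞 K) * x + (B.repr ⟨z + b, h2⟩ 1 : 𝓞 K) * y = z + b := by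
        have h6 := congrArg (Subtype.val) h4
        simpa [zsmul_eq_mul] using h6
      refine ⟨(B.repr ⟨z + b, h2⟩ 0, B.repr ⟨z + b, h2⟩ 1), Subtype.ext ?_⟩
      show α₀ + N * ((B.repr ⟨z + b, h2⟩ 0 : 𝓞 K) * x + (B.repr ⟨z + b, h2⟩ 1 : 𝓞 K) * y) = α
      rw [h5, ← h1]
      ring
  refine ⟨⟨N * ι₁ (x : K), N * ι₁ (y : K), N * ι₂ (x : K), N * ι₂ (y : K), ?_⟩, ι₁ (α₀ : K),
    ι₂ (α₀ : K), Equiv.ofBijective f hf, fun p => ?_⟩
  · have h1 : N * ι₁ (x : K) * (N * ι₂ (y : K)) - N * ι₁ (y : K) * (N * ι₂ (x : K)) =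
        N * N * (ι₁ (x : K) * ι₂ (y : K) - ι₁ (y : K) * ι₂ (x : K)) := by ring
    rw [h1]
    exact mul_ne_zero (mul_ne_zero hNR hNR) hdet
  · have h1 : ((Equiv.ofBijective f hf p : 𝓞 K) : K) =
        (α₀ : K) + N * (p.1 * (x : K) + p.2 * (y : K)) := by
      show (((α₀ + N * (p.1 * x + p.2 * y) : 𝓞 K)) : K) = _
      simp only [RingOfIntegers.coe_eq_algebraMap, map_add, map_mul, map_natCast, map_intCast]
    rw [h1]
    simp only [map_add, map_mul, map_natCast, map_intCast, Lat.fst, Lat.snd]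
    constructor <;> ring

end Pool.Agent.HeckeRQ
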