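import Pool.Agent.HeckeRQ.Units

/-!
# HQ11: ideals in a ray class and a fundamental domain

`X = {α ∈ 𝔟 : N ∣ α - 1}`, `F ⊆ X` the subset of the `α` with `|ι₁ α| ≤ |ι₂ α| < |ι₁ ε|² |ι₁ α|`. The map
`α ↦ 𝔞`, `𝔞 𝔟 = (α)` (`α ∈ 𝔟`: `𝔟 ∣ (α)`, `Ideal.dvd_span_singleton`; cancellation: `𝔞` unique) is onto
`{𝔞 : 𝔞 𝔟 = (α), α ≡ 1}`; the elements `α ≠ 0` of `X` (`N ≥ 3`: `0` is not `≡ 1`) with the same `𝔞` differ by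
a unit `u`, `u ≡ 1` modulo `N` (`u α - α ∈ (N)`, `α ≡ 1`: `u - 1 = (u α - 1) - u (α - 1) ∈ (N)`), so `u = ε^k`;
multiplication by `ε` divides `|ι₂ α / ι₁ α|` by `η²`, `η = |ι₁ ε| > 1`, so exactly one `ε^k α` is in `F`
(`existsUnique` of the integer `k` with `η^(2k) ≤ |ι₂ α/ι₁ α| < η^(2k+2)`: `exists_mem_Ico_zpow` or
`existsUnique_zpow_near_of_one_lt'`).
-/

set_option autoImplicit false

noncomputable section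

open NumberField Module

namespace Pool.Agent.HeckeRQ

variable {K : Type} [Field K] [NumberField K]

/-- A natural number `N ≥ 3` is not a unit of the ring of integers. -/
theorem fund_not_dvd_one {N : ℕ} (hN : 3 ≤ N) : ¬ (N : 𝓞 K) ∣ 1 := by
  intro h
  have h1 : IsUnit (N : 𝓞 K) := isUnit_of_dvd_one h
  have h2 : IsUnit (Algebra.norm ℤ (N : 𝓞 K)) := h1.map _
  have h3 : Algebra.norm ℤ (N : 𝓞 K) = (N : ℤ) ^ finrank ℤ (𝓞 K) := by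
    have := Algebra.norm_algebraMap (R := ℤ) (S := 𝓞 K) (N : ℤ)
    simpa using this
  rw [h3] at h2
  have h4 : finrank ℤ (𝓞 K) ≠ 0 := by
    rw [RingOfIntegers.rank]
    exact Module.finrank_pos.ne'
  have h5 : IsUnit (N : ℤ) := (isUnit_pow_iff h4).1 h2
  have h6 := Int.isUnit_iff.1 h5
  omega

theorem fund_ne_zero {N : ℕ} (hN : 3 ≤ N) {α : 𝓞 K} (h : (N : 𝓞 K) ∣ α - 1) : α ≠ 0 := by
  rintro rfl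
  apply fund_not_dvd_one (K := K) hN
  have : (N : 𝓞 K) ∣ -(0 - 1 : 𝓞 K) := (dvd_neg).2 h
  simpa using this

omit [NumberField K] in
theorem fund_unit_congr {N : ℕ} {α β : 𝓞 K} {u : (𝓞 K)ˣ} (h : (N : 𝓞 K) ∣ α - 1)
    (h' : (N : 𝓞 K) ∣ β - 1) (hu : (u : 𝓞 K) * α = β) : (N : 𝓞 K) ∣ (u : 𝓞 K) - 1 := by
  have : (u : 𝓞 K) - 1 = (β - 1) - u * (α - 1) := by rw [← hu]; ring
  rw [this]
  exact dvd_sub h' (h.mul_left _)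

omit [NumberField K] in
theorem fund_zpow_congr {N : ℕ} {ε : (𝓞 K)ˣ} (h1 : (N : 𝓞 K) ∣ (ε : 𝓞 K) - 1) (k : ℤ) :
    (N : 𝓞 K) ∣ ((ε ^ k : (𝓞 K)ˣ) : 𝓞 K) - 1 := by
  have hinv : (N : 𝓞 K) ∣ ((ε⁻¹ : (𝓞 K)ˣ) : 𝓞 K) - 1 := by
    have : ((ε⁻¹ : (𝓞 K)ˣ) : 𝓞 K) - 1 = -(((ε⁻¹ : (𝓞 K)ˣ) : 𝓞 K) * ((ε : 𝓞 K) - 1)) := by
      have h : ((ε⁻¹ : (𝓞 K)ˣ) : 𝓞 K) * (ε : 𝓞 K) = 1 := by
        rw [← Units.val_mul, inv_mul_cancel, Units.val_one]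
      rw [mul_sub, h]; ring
    rw [this]
    exact (dvd_neg).2 (h1.mul_left _)
  have hpow : ∀ (v : (𝓞 K)ˣ) (_ : (N : 𝓞 K) ∣ (v : 𝓞 K) - 1) (n : ℕ),
      (N : 𝓞 K) ∣ ((v ^ n : (𝓞 K)ˣ) : 𝓞 K) - 1 := by
    intro v hv n
    rw [Units.val_pow_eq_pow_val]
    exact hv.trans (sub_one_dvd_pow_sub_one _ _)
  obtain ⟨n, rfl | rfl⟩ := k.eq_nat_or_neg
  · rw [zpow_natCast]; exact hpow _ h1 _
  · rw [zpow_neg, ← inv_zpow, zpow_natCast]; exact hpow _ hinv _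

omit [NumberField K] in
theorem fund_embed_zpow (ι : K →+* ℝ) (ε : (𝓞 K)ˣ) (k : ℤ) :
    |ι (((ε ^ k : (𝓞 K)ˣ) : 𝓞 K) : K)| = |ι ((ε : 𝓞 K) : K)| ^ k := by
  have h : (((ε ^ k : (𝓞 K)ˣ) : 𝓞 K) : K) = ((ε : 𝓞 K) : K) ^ k :=
    NumberField.Units.coe_zpow ε k
  rw [h, map_zpow₀, abs_zpow]

theorem exists_equiv_ideals {ι₁ ι₂ : K →+* ℝ} {N : ℕ} (hN : 3 ≤ N) {ε : (𝓞 K)ˣ}
    (h1 : (N : 𝓞 K) ∣ (ε : 𝓞 K) - 1) (h2 : 1 < |ι₁ ((ε : 𝓞 K) : K)|)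
    (h3 : |ι₂ ((ε : 𝓞 K) : K)| = |ι₁ ((ε : 𝓞 K) : K)|⁻¹)
    (h4 : ∀ u : (𝓞 K)ˣ, (N : 𝓞 K) ∣ (u : 𝓞 K) - 1 → ∃ k : ℤ, u = ε ^ k) {𝔟 : Ideal (𝓞 K)}
    (h0 : 𝔟 ≠ ⊥) :
    ∃ e : {α : 𝓞 K // (α ∈ 𝔟 ∧ (N : 𝓞 K) ∣ α - 1) ∧ |ι₁ (α : K)| ≤ |ι₂ (α : K)| ∧
          |ι₂ (α : K)| < |ι₁ ((ε : 𝓞 K) : K)| ^ 2 * |ι₁ (α : K)|} ≃
        {𝔞 : Ideal (𝓞 K) // ∃ α : 𝓞 K, (N : 𝓞 K) ∣ α - 1 ∧ 𝔞 * 𝔟 = Ideal.span {α}},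
      ∀ α, (e α : Ideal (𝓞 K)) * 𝔟 = Ideal.span {(α : 𝓞 K)} := by
  set η : ℝ := |ι₁ ((ε : 𝓞 K) : K)| with hη
  have hη0 : 0 < η := by linarith
  have key : ∀ α : 𝓞 K, α ∈ 𝔟 → ∃ 𝔞 : Ideal (𝓞 K), 𝔞 * 𝔟 = Ideal.span {α} := by
    intro α hα
    obtain ⟨𝔞, h𝔞⟩ := (Ideal.dvd_span_singleton).2 hα
    exact ⟨𝔞, by rw [mul_comm]; exact h𝔞.symm⟩
  choose! f hf using key
  have hpos : ∀ (ι : K →+* ℝ) (α : 𝓞 K), α ≠ 0 → 0 < |ι (α : K)| := by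
    intro ι α hα
    rw [abs_pos]
    rw [Ne, map_eq_zero]
    exact RingOfIntegers.coe_ne_zero_iff.2 hα
  have hmul : ∀ (ι : K →+* ℝ) (k : ℤ) (α : 𝓞 K),
      |ι ((((ε ^ k : (𝓞 K)ˣ) : 𝓞 K) * α : 𝓞 K) : K)| = |ι ((ε : 𝓞 K) : K)| ^ k * |ι (α : K)| := by
    intro ι k α
    have h : ((((ε ^ k : (𝓞 K)ˣ) : 𝓞 K) * α : 𝓞 K) : K) =
        (((ε ^ k : (𝓞 K)ˣ) : 𝓞 K) : K) * (α : K) := map_mul (algebraMap (𝓞 K) K) _ _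
    rw [h, map_mul, abs_mul, fund_embed_zpow]
  let F := {α : 𝓞 K // (α ∈ 𝔟 ∧ (N : 𝓞 K) ∣ α - 1) ∧ |ι₁ (α : K)| ≤ |ι₂ (α : K)| ∧
          |ι₂ (α : K)| < η ^ 2 * |ι₁ (α : K)|}
  let g : F → {𝔞 : Ideal (𝓞 K) // ∃ α : 𝓞 K, (N : 𝓞 K) ∣ α - 1 ∧ 𝔞 * 𝔟 = Ideal.span {α}} :=
    fun α => ⟨f α.1, α.1, α.2.1.2, hf _ α.2.1.1⟩
  have hg : ∀ α : F, (g α : Ideal (𝓞 K)) * 𝔟 = Ideal.span {(α : 𝓞 K)} := fun α => hf _ α.2.1.1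
  have hinj : Function.Injective g := by
    intro α β hαβ
    have h5 : Ideal.span {(α : 𝓞 K)} = Ideal.span {(β : 𝓞 K)} := by
      rw [← hg α, ← hg β, hαβ]
    rw [Ideal.span_singleton_eq_span_singleton] at h5
    obtain ⟨u, hu⟩ := h5
    have hu' : (u : 𝓞 K) * (α : 𝓞 K) = β := by rw [mul_comm]; exact hu
    obtain ⟨k, rfl⟩ := h4 u (fund_unit_congr α.2.1.2 β.2.1.2 hu')
    have hα0 : (α : 𝓞 K) ≠ 0 := fund_ne_zero hN α.2.1.2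
    have e1 := hmul ι₁ k α.1
    have e2 := hmul ι₂ k α.1
    rw [hu'] at e1 e2
    rw [h3, inv_zpow, ← zpow_neg] at e2
    have p1 := hpos ι₁ α.1 hα0
    have p2 := hpos ι₂ α.1 hα0
    obtain ⟨-, a1, a2⟩ := α.2
    obtain ⟨-, b1, b2⟩ := β.2
    rw [e1, e2] at b1 b2
    have hk1 : η ^ (k : ℤ) < η ^ (-k + 2 : ℤ) := by
      rw [zpow_add₀ hη0.ne']
      have h6 : η ^ k * |ι₁ (α.1 : K)| < η ^ (-k : ℤ) * η ^ (2 : ℤ) * |ι₁ (α.1 : K)| := by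
        calc η ^ k * |ι₁ (α.1 : K)| ≤ η ^ (-k : ℤ) * |ι₂ (α.1 : K)| := b1
          _ < η ^ (-k : ℤ) * (η ^ 2 * |ι₁ (α.1 : K)|) :=
              mul_lt_mul_of_pos_left a2 (zpow_pos hη0 _)
          _ = η ^ (-k : ℤ) * η ^ (2 : ℤ) * |ι₁ (α.1 : K)| := by
              rw [mul_assoc]; norm_cast
      exact lt_of_mul_lt_mul_right h6 p1.le
    have hk2 : η ^ (-k : ℤ) < η ^ (k + 2 : ℤ) := by
      rw [zpow_add₀ hη0.ne']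
      have h6 : η ^ (-k : ℤ) * |ι₁ (α.1 : K)| < η ^ (k : ℤ) * η ^ (2 : ℤ) * |ι₁ (α.1 : K)| := by
        calc η ^ (-k : ℤ) * |ι₁ (α.1 : K)| ≤ η ^ (-k : ℤ) * |ι₂ (α.1 : K)| :=
              mul_le_mul_of_nonneg_left a1 (zpow_pos hη0 _).le
          _ < η ^ 2 * (η ^ k * |ι₁ (α.1 : K)|) := b2
          _ = η ^ (k : ℤ) * η ^ (2 : ℤ) * |ι₁ (α.1 : K)| := by
              have : η ^ (2 : ℤ) = η ^ 2 := by norm_cast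
              rw [this]; ring
      exact lt_of_mul_lt_mul_right h6 p1.le
    have hk1' := (zpow_lt_zpow_iff_right₀ h2).1 hk1
    have hk2' := (zpow_lt_zpow_iff_right₀ h2).1 hk2
    have hk : k = 0 := by omega
    subst hk
    apply Subtype.ext
    simpa using hu'
  have hsurj : Function.Surjective g := by
    rintro ⟨𝔞, α, hα, h𝔞⟩
    have hα0 : α ≠ 0 := fund_ne_zero hN hα
    have p1 := hpos ι₁ α hα0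
    have p2 := hpos ι₂ α hα0
    obtain ⟨k, hk1, hk2⟩ := exists_mem_Ico_zpow (x := |ι₂ (α : K)| / |ι₁ (α : K)|) (y := η ^ 2)
      (div_pos p2 p1) (one_lt_pow₀ h2 two_ne_zero)
    have hsq : ∀ m : ℤ, (η ^ 2) ^ m = η ^ m * η ^ m := by
      intro m
      rw [pow_two, mul_zpow]
    rw [hsq, le_div_iff₀ p1] at hk1
    rw [zpow_add_one₀ (pow_pos hη0 2).ne', hsq, div_lt_iff₀ p1] at hk2
    have hspan : Ideal.span {((ε ^ k : (𝓞 K)ˣ) : 𝓞 K) * α} = Ideal.span {α} := by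
      rw [Ideal.span_singleton_eq_span_singleton]
      exact (associated_unit_mul_left α _ (Units.isUnit _))
    have hmem : ((ε ^ k : (𝓞 K)ˣ) : 𝓞 K) * α ∈ 𝔟 := by
      apply Ideal.mul_mem_left
      rw [← Ideal.dvd_span_singleton, ← h𝔞]
      exact dvd_mul_left _ _
    have hcong : (N : 𝓞 K) ∣ ((ε ^ k : (𝓞 K)ˣ) : 𝓞 K) * α - 1 := by
      have : ((ε ^ k : (𝓞 K)ˣ) : 𝓞 K) * α - 1 =
          ((ε ^ k : (𝓞 K)ˣ) : 𝓞 K) * (α - 1) + (((ε ^ k : (𝓞 K)ˣ) : 𝓞 K) - 1) := by ring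
      rw [this]
      exact dvd_add (hα.mul_left _) (fund_zpow_congr h1 k)
    have hz : η ^ (-k : ℤ) * η ^ (k : ℤ) = 1 := by
      rw [← zpow_add₀ hη0.ne']; simp
    have hz0 : 0 < η ^ (-k : ℤ) := zpow_pos hη0 _
    refine ⟨⟨((ε ^ k : (𝓞 K)ˣ) : 𝓞 K) * α, ⟨hmem, hcong⟩, ?_, ?_⟩, ?_⟩
    · rw [hmul, hmul, h3, inv_zpow, ← zpow_neg]
      calc η ^ k * |ι₁ (α : K)| = η ^ (-k : ℤ) * (η ^ k * η ^ k * |ι₁ (α : K)|) := by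
            rw [← mul_assoc, ← mul_assoc, hz, one_mul]
        _ ≤ η ^ (-k : ℤ) * |ι₂ (α : K)| := mul_le_mul_of_nonneg_left hk1 hz0.le
    · rw [hmul, hmul, h3, inv_zpow, ← zpow_neg]
      calc η ^ (-k : ℤ) * |ι₂ (α : K)| < η ^ (-k : ℤ) * (η ^ k * η ^ k * η ^ 2 * |ι₁ (α : K)|) :=
            mul_lt_mul_of_pos_left hk2 hz0
        _ = (η ^ (-k : ℤ) * η ^ k) * (η ^ 2 * (η ^ k * |ι₁ (α : K)|)) := by ring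
        _ = η ^ 2 * (η ^ k * |ι₁ (α : K)|) := by rw [hz, one_mul]
    · apply Subtype.ext
      have h5 : f (((ε ^ k : (𝓞 K)ˣ) : 𝓞 K) * α) * 𝔟 = 𝔞 * 𝔟 := by
        rw [hf _ hmem, hspan, h𝔞]
      exact mul_right_cancel₀ h0 h5
  exact ⟨Equiv.ofBijective g ⟨hinj, hsurj⟩, hg⟩

end Pool.Agent.HeckeRQ
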