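import Pool.Agent.HeckeRQ.MainD
import Pool.Agent.HeckeRQ.Coset
import Pool.Agent.HeckeRQ.Fund
import Pool.Agent.HeckeRQ.LSer

/-!
# HQ13: the continuation of the zeta function of a ray class

`ε` from `exists_unit_gen`, `L, v, w, φ` from `exists_coset`, `ρ = φ⁻¹ ∘ (ε ·) ∘ φ` (multiplication by `ε`
maps `{α ∈ 𝔟, α ≡ 1}` onto itself), `η = |ι₁ ε|`, `κ = sign (ι₂ ε)` (`κ η⁻¹ = ι₂ ε`; for `j = 1` it is `1` by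
`hj`). `D` from `Lat.exists_D`, `W s = (absNorm 𝔟)^s * D s`. For `Re s > 1`: reindex the sum over `F` by `φ`
and `exists_equiv_ideals` (`hasSum` and `Equiv.hasSum_iff`); for `𝔞 𝔟 = (α)`:
`N𝔞 N𝔟 = |ι₁ α ι₂ α|` (`norm_eq`, `map_mul`), `sgn ι₂ N 𝔟 j 𝔞 = sign (ι₂ α)^j` (for `j = 1`: two generators
`≡ 1` of `(α)` differ by a unit `≡ 1`, positive at `ι₂`; for `j = 0` both sides are `1`, also the choice in the
definition exists); then `lseries_ideals` with `c = sgn ι₂ N 𝔟 j`, `P 𝔞 = ∃ α, N ∣ α - 1 ∧ 𝔞 𝔟 = (α)`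
(`|sign^j| ≤ 1`; `rcoef` is the `finsum` by definition). `W 0 = D 0`, `deriv W 0 = log(N𝔟) D 0 + deriv D 0`.
-/

set_option autoImplicit false

noncomputable section

open NumberField Module Pool.Agent.StarkRQ

namespace Pool.Agent.HeckeRQ

variable {K : Type} [Field K] [NumberField K]

private theorem cont_not_dvd (hK : finrank ℚ K = 2) {ι₁ ι₂ : K →+* ℝ} (hι : ι₁ ≠ ι₂) {N : ℕ}
    (hN : 3 ≤ N) : ¬ (N : 𝓞 K) ∣ 1 := by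
  intro h
  have h1 : Ideal.span {(N : 𝓞 K)} = ⊤ := Ideal.span_singleton_eq_top.2 (isUnit_of_dvd_one h)
  have h2 := norm_eq hK hι (N : 𝓞 K)
  rw [h1, Ideal.absNorm_top] at h2
  have h3 : ∀ ι : K →+* ℝ, ι ((N : 𝓞 K) : K) = N := by
    intro ι
    have e : ((N : 𝓞 K) : K) = (N : K) := map_natCast (algebraMap (𝓞 K) K) N
    rw [e, map_natCast]
  rw [h3, h3, Nat.cast_one] at h2
  have h4 : (3 : ℝ) ≤ N := by exact_mod_cast hN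
  rw [abs_of_nonneg (by positivity)] at h2
  nlinarith

private theorem cont_ne_zero (hK : finrank ℚ K = 2) {ι₁ ι₂ : K →+* ℝ} (hι : ι₁ ≠ ι₂) {N : ℕ}
    (hN : 3 ≤ N) {α : 𝓞 K} (h : (N : 𝓞 K) ∣ α - 1) : α ≠ 0 := by
  rintro rfl
  apply cont_not_dvd hK hι hN
  rw [zero_sub, dvd_neg] at h
  exact h

omit [NumberField K] in
private theorem cont_unit_mul {N : ℕ} {u : 𝓞 K} (hu : (N : 𝓞 K) ∣ u - 1) {α : 𝓞 K}
    (h : (N : 𝓞 K) ∣ α - 1) : (N : 𝓞 K) ∣ u * α - 1 := by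
  have e : u * α - 1 = u * (α - 1) + (u - 1) := by ring
  rw [e]
  exact dvd_add (Dvd.dvd.mul_left h u) hu

omit [NumberField K] in
private theorem cont_unit_inv {N : ℕ} {u : (𝓞 K)ˣ} (hu : (N : 𝓞 K) ∣ (u : 𝓞 K) - 1) :
    (N : 𝓞 K) ∣ ((u⁻¹ : (𝓞 K)ˣ) : 𝓞 K) - 1 := by
  have h : ((u⁻¹ : (𝓞 K)ˣ) : 𝓞 K) * (u : 𝓞 K) = 1 := u.inv_mul
  have e : ((u⁻¹ : (𝓞 K)ˣ) : 𝓞 K) - 1 = -(((u⁻¹ : (𝓞 K)ˣ) : 𝓞 K) * ((u : 𝓞 K) - 1)) := by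
    linear_combination h
  rw [e, dvd_neg]
  exact Dvd.dvd.mul_left hu _

/-- multiplication by a unit -/
private def contMul {N : ℕ} {𝔟 : Ideal (𝓞 K)} (u : (𝓞 K)ˣ) (hu : (N : 𝓞 K) ∣ (u : 𝓞 K) - 1) :
    {α : 𝓞 K // α ∈ 𝔟 ∧ (N : 𝓞 K) ∣ α - 1} ≃ {α : 𝓞 K // α ∈ 𝔟 ∧ (N : 𝓞 K) ∣ α - 1} where
  toFun α := ⟨(u : 𝓞 K) * α, 𝔟.mul_mem_left _ α.2.1, cont_unit_mul hu α.2.2⟩
  invFun α := ⟨((u⁻¹ : (𝓞 K)ˣ) : 𝓞 K) * α, 𝔟.mul_mem_left _ α.2.1,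
    cont_unit_mul (cont_unit_inv hu) α.2.2⟩
  left_inv α := Subtype.ext (by simp)
  right_inv α := Subtype.ext (by simp)

omit [NumberField K] in
private theorem cont_sgn_le (ι₂ : K →+* ℝ) (N : ℕ) (𝔟 : Ideal (𝓞 K)) (j : ℕ)
    (𝔞 : Ideal (𝓞 K)) : |sgn ι₂ N 𝔟 j 𝔞| ≤ 1 := by
  unfold sgn
  split_ifs with h
  · rw [abs_pow]
    refine pow_le_one₀ (abs_nonneg _) ?_
    rcases SignType.sign (ι₂ (h.choose : K)) <;> decide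
  · simp

omit [NumberField K] in
/-- the sign does not depend on the generator -/
private theorem cont_sgn {ι₂ : K →+* ℝ} {N : ℕ} {𝔟 : Ideal (𝓞 K)} {j : ℕ} (hj : j ≤ 1)
    (hpos : j = 1 → ∀ u : (𝓞 K)ˣ, (N : 𝓞 K) ∣ (u : 𝓞 K) - 1 → 0 < ι₂ ((u : 𝓞 K) : K))
    {𝔞 : Ideal (𝓞 K)} {α : 𝓞 K} (h1 : (N : 𝓞 K) ∣ α - 1) (h2 : 𝔞 * 𝔟 = Ideal.span {α}) :
    sgn ι₂ N 𝔟 j 𝔞 = ((SignType.sign (ι₂ (α : K)) : ℤ)) ^ j := by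
  have h : ∃ α : 𝓞 K, (N : 𝓞 K) ∣ α - 1 ∧ 𝔞 * 𝔟 = Ideal.span {α} := ⟨α, h1, h2⟩
  unfold sgn
  rw [dif_pos h]
  obtain ⟨h3, h4⟩ := h.choose_spec
  set β := h.choose with hβ
  rcases Nat.le_one_iff_eq_zero_or_eq_one.1 hj with rfl | rfl
  · rw [pow_zero, pow_zero]
  · rw [h2, Ideal.span_singleton_eq_span_singleton] at h4
    obtain ⟨u, hu⟩ := h4
    have h5 : (N : 𝓞 K) ∣ (u : 𝓞 K) - 1 := by
      have e : (u : 𝓞 K) - 1 = (β - 1) - (u : 𝓞 K) * (α - 1) := by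
        rw [← hu]
        ring
      rw [e]
      exact dvd_sub h3 (Dvd.dvd.mul_left h1 _)
    have h6 := hpos rfl u h5
    rw [pow_one, pow_one, ← hu]
    have e : ι₂ ((α * (u : 𝓞 K) : 𝓞 K) : K) = ι₂ (α : K) * ι₂ ((u : 𝓞 K) : K) := by
      rw [← map_mul]
      rfl
    rw [e, sign_mul, sign_pos h6, mul_one]

theorem exists_cont_rcoef (hK : finrank ℚ K = 2) {ι₁ ι₂ : K →+* ℝ} (hι : ι₁ ≠ ι₂) {N : ℕ}
    (hN : 3 ≤ N) {𝔟 : Ideal (𝓞 K)} (h0 : 𝔟 ≠ ⊥) (hb : (Ideal.absNorm 𝔟).Coprime N) {j : ℕ}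
    (hj : j ≤ 1) (hpos : j = 1 → ∀ u : (𝓞 K)ˣ, (N : 𝓞 K) ∣ (u : 𝓞 K) - 1 →
      0 < ι₂ ((u : 𝓞 K) : K)) :
    ∃ W : ℂ → ℂ, IsCont (fun n => (rcoef ι₂ N 𝔟 j n : ℂ)) W ∧
      (j = 0 → W 0 = 0 ∧ deriv W 0 = 0) := by
  obtain ⟨ε, hε1, hε2, hε3, hε4⟩ := exists_unit_gen hK hι hN
  obtain ⟨L, v, w, φ, hφ⟩ := exists_coset hK hι (by omega : N ≠ 0) h0 hb
  set η := |ι₁ ((ε : 𝓞 K) : K)| with hη
  set κ : ℝ := ((SignType.sign (ι₂ ((ε : 𝓞 K) : K)) : ℤ) : ℝ) with hκ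
  have hcoe : ∀ α : 𝓞 K, α ≠ 0 → ∀ ι : K →+* ℝ, ι (α : K) ≠ 0 := by
    intro α hα ι
    rw [Ne, map_eq_zero, RingOfIntegers.coe_eq_zero_iff]
    exact hα
  have hεne : ι₂ ((ε : 𝓞 K) : K) ≠ 0 := hcoe _ ε.ne_zero ι₂
  have hκ2 : κ ^ 2 = 1 := by
    rcases lt_or_gt_of_ne hεne with h | h
    · rw [hκ, sign_neg h]
      simp
    · rw [hκ, sign_pos h]
      simp
  have hκη : κ * η⁻¹ = ι₂ ((ε : 𝓞 K) : K) := by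
    rw [← hε3]
    rcases lt_or_gt_of_ne hεne with h | h
    · rw [hκ, sign_neg h, abs_of_neg h]
      simp
    · rw [hκ, sign_pos h, abs_of_pos h]
      simp
  have hκj : κ ^ j = 1 := by
    rcases Nat.le_one_iff_eq_zero_or_eq_one.1 hj with h | h
    · rw [h, pow_zero]
    · rw [h, pow_one, hκ, sign_pos (hpos h ε hε1)]
      simp
  have hX : ∀ p, ((φ p : 𝓞 K)) ≠ 0 := fun p => cont_ne_zero hK hι hN (φ p).2.2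
  have hne : ∀ p, L.fst p + v ≠ 0 ∧ L.snd p + w ≠ 0 := by
    intro p
    rw [← (hφ p).1, ← (hφ p).2]
    exact ⟨hcoe _ (hX p) ι₁, hcoe _ (hX p) ι₂⟩
  set ρ : Equiv.Perm (ℤ × ℤ) := φ.trans ((contMul ε hε1).trans φ.symm) with hρ
  have hρφ : ∀ p, (φ (ρ p) : 𝓞 K) = (ε : 𝓞 K) * (φ p : 𝓞 K) := by
    intro p
    rw [hρ]
    simp [contMul]
  have hρ1 : ∀ p, (L.fst (ρ p) + v) ^ 2 = η ^ 2 * (L.fst p + v) ^ 2 := by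
    intro p
    rw [← (hφ (ρ p)).1, ← (hφ p).1, hρφ, hη, sq_abs, ← mul_pow, ← map_mul]
    rfl
  have hρ2 : ∀ p, L.snd (ρ p) + w = κ * η⁻¹ * (L.snd p + w) := by
    intro p
    rw [← (hφ (ρ p)).2, ← (hφ p).2, hρφ, hκη, ← map_mul]
    rfl
  obtain ⟨D, hD1, hD2, hD3⟩ := L.exists_D hne hj hε2 ρ hκ2 hκj hρ1 hρ2
  obtain ⟨e, he⟩ := exists_equiv_ideals hN hε1 hε2 hε3 hε4 h0
  have hb0 : Ideal.absNorm 𝔟 ≠ 0 := by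
    rw [Ne, Ideal.absNorm_eq_zero_iff]
    exact h0
  have hbc : ((Ideal.absNorm 𝔟 : ℕ) : ℂ) ≠ 0 := Nat.cast_ne_zero.2 hb0
  have hcpow : ∀ s : ℂ, HasDerivAt (fun s : ℂ => ((Ideal.absNorm 𝔟 : ℕ) : ℂ) ^ s)
      (((Ideal.absNorm 𝔟 : ℕ) : ℂ) ^ s * Complex.log (Ideal.absNorm 𝔟 : ℕ)) s := by
    intro s
    have h := (hasDerivAt_id s).const_cpow (c := ((Ideal.absNorm 𝔟 : ℕ) : ℂ)) (Or.inl hbc)
    simpa using h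
  refine ⟨fun s => ((Ideal.absNorm 𝔟 : ℕ) : ℂ) ^ s * D s, ⟨?_, ?_, ?_⟩, ?_⟩
  · have h1 : DifferentiableOn ℂ (fun s : ℂ => ((Ideal.absNorm 𝔟 : ℕ) : ℂ) ^ s) {1}ᶜ :=
      fun s _ => (hcpow s).differentiableAt.differentiableWithinAt
    exact h1.mul hD1
  · intro s hs
    exact lseriesSummable_ideals (cont_sgn_le ι₂ N 𝔟 j) hs
  · intro s hs
    symm
    refine lseries_ideals (cont_sgn_le ι₂ N 𝔟 j)
      (P := fun 𝔞 => ∃ α : 𝓞 K, (N : 𝓞 K) ∣ α - 1 ∧ 𝔞 * 𝔟 = Ideal.span {α}) ?_ ?_ hs ?_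
    · rintro 𝔞 ⟨α, h1, h2⟩ rfl
      rw [Ideal.bot_mul] at h2
      exact cont_ne_zero hK hι hN h1 (Ideal.span_singleton_eq_bot.1 h2.symm)
    · intro 𝔞 _ h
      unfold sgn
      rw [dif_neg h]
    · have h1 := (hD3 s hs).mul_left (((Ideal.absNorm 𝔟 : ℕ) : ℂ) ^ s)
      let E : {p : ℤ × ℤ // |L.fst p + v| ≤ |L.snd p + w| ∧
          |L.snd p + w| < η ^ 2 * |L.fst p + v|} ≃
          {𝔞 : Ideal (𝓞 K) // ∃ α : 𝓞 K, (N : 𝓞 K) ∣ α - 1 ∧ 𝔞 * 𝔟 = Ideal.span {α}} :=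
        ((φ.subtypeEquiv (q := fun α : {α : 𝓞 K // α ∈ 𝔟 ∧ (N : 𝓞 K) ∣ α - 1} =>
          |ι₁ ((α : 𝓞 K) : K)| ≤ |ι₂ ((α : 𝓞 K) : K)| ∧
          |ι₂ ((α : 𝓞 K) : K)| < η ^ 2 * |ι₁ ((α : 𝓞 K) : K)|) (fun p => by
            rw [(hφ p).1, (hφ p).2])).trans
          (Equiv.subtypeSubtypeEquivSubtypeInter _ (fun α : 𝓞 K =>
            |ι₁ (α : K)| ≤ |ι₂ (α : K)| ∧ |ι₂ (α : K)| < η ^ 2 * |ι₁ (α : K)|))).trans e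
      have hE : ∀ p, (E p : Ideal (𝓞 K)) * 𝔟 = Ideal.span {(φ p.1 : 𝓞 K)} := fun p => he _
      rw [← E.hasSum_iff]
      refine (Eq.subst (motive := fun F : {p : ℤ × ℤ // |L.fst p + v| ≤ |L.snd p + w| ∧
          |L.snd p + w| < η ^ 2 * |L.fst p + v|} → ℂ => HasSum F _) (funext fun p => ?_) h1)
      have h2 := hE p
      have h3 : Ideal.absNorm (E p : Ideal (𝓞 K)) * Ideal.absNorm 𝔟 =
          Ideal.absNorm (Ideal.span {(φ p.1 : 𝓞 K)}) := by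
        rw [← h2, map_mul]
      have h4 := norm_eq hK hι (φ p.1 : 𝓞 K)
      rw [(hφ p.1).1, (hφ p.1).2, ← h3] at h4
      have h5 := cont_sgn hj hpos (φ p.1).2.2 h2
      rw [(hφ p.1).2] at h5
      show ((Ideal.absNorm 𝔟 : ℕ) : ℂ) ^ s * (((SignType.sign (L.snd p.1 + w) : ℤ) : ℂ) ^ j *
          ((|(L.fst p.1 + v) * (L.snd p.1 + w)| : ℝ) : ℂ) ^ (-s)) =
        ((sgn ι₂ N 𝔟 j (E p : Ideal (𝓞 K)) : ℤ) : ℂ) *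
          ((Ideal.absNorm (E p : Ideal (𝓞 K)) : ℕ) : ℂ) ^ (-s)
      rw [h5, ← h4]
      push_cast
      rw [Complex.natCast_mul_natCast_cpow, Complex.cpow_neg ((Ideal.absNorm 𝔟 : ℕ) : ℂ)]
      have h6 : ((Ideal.absNorm 𝔟 : ℕ) : ℂ) ^ s ≠ 0 := by
        rw [Ne, Complex.cpow_eq_zero_iff]
        exact fun h => hbc h.1
      field_simp
  · intro hj0
    obtain ⟨h1, h2⟩ := hD2 hj0
    refine ⟨?_, ?_⟩
    · show _ * D 0 = 0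
      rw [h1, mul_zero]
    · have h3 : DifferentiableAt ℂ D 0 :=
        hD1.differentiableAt (isOpen_compl_singleton.mem_nhds (by simp))
      have h4 := (hcpow 0).mul h3.hasDerivAt
      rw [h1, h2, mul_zero, mul_zero, add_zero] at h4
      exact h4.deriv

end Pool.Agent.HeckeRQ
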