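import Mathlib
import Pool.Agent.StarkRQ.ContLin

/-!
# Hecke's continuation of the partial zeta functions of a real quadratic field: definitions
-/

set_option autoImplicit false

noncomputable section

open NumberField Module Set Pool.Agent.StarkRQ

namespace Pool.Agent.HeckeRQ

/-- Two linear forms on `ℤ²` with nonzero determinant (the coordinates of the points of a lattice in
`ℝ²`). -/
structure Lat where
  a₁ : ℝ
  a₂ : ℝ
  b₁ : ℝ
  b₂ : ℝ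
  det_ne : a₁ * b₂ - a₂ * b₁ ≠ 0

namespace Lat

variable (L : Lat)

def det : ℝ := L.a₁ * L.b₂ - L.a₂ * L.b₁

theorem det_ne' : L.det ≠ 0 := L.det_ne

/-- the first coordinate -/
def fst (p : ℤ × ℤ) : ℝ := p.1 * L.a₁ + p.2 * L.a₂

/-- the second coordinate -/
def snd (p : ℤ × ℤ) : ℝ := p.1 * L.b₁ + p.2 * L.b₂

/-- the dual lattice -/
def dual : Lat where
  a₁ := L.b₂ / L.det
  a₂ := -L.b₁ / L.det
  b₁ := -L.a₂ / L.det
  b₂ := L.a₁ / L.det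
  det_ne := by
    have h : L.b₂ / L.det * (L.a₁ / L.det) - -L.b₁ / L.det * (-L.a₂ / L.det) = 1 / L.det := by
      have := L.det_ne'
      field_simp
      unfold det
      ring
    rw [h]
    exact one_div_ne_zero L.det_ne'

/-- the theta series `∑ β^j exp(-π (x α² + y β²))`, `(α, β)` in the lattice shifted by `(v, w)` -/
def thA (j : ℕ) (v w x y : ℝ) : ℂ := ∑' p : ℤ × ℤ,
  (((L.snd p + w) ^ j *
    Real.exp (-Real.pi * (x * (L.fst p + v) ^ 2 + y * (L.snd p + w) ^ 2)) : ℝ) : ℂ)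

/-- the theta series `∑ e(α v + β w) β^j exp(-π (x α² + y β²))`, `(α, β)` in the lattice -/
def thB (j : ℕ) (v w x y : ℝ) : ℂ := ∑' p : ℤ × ℤ,
  Complex.exp (2 * Real.pi * Complex.I * ((L.fst p * v + L.snd p * w : ℝ) : ℂ)) *
    ((L.snd p ^ j * Real.exp (-Real.pi * (x * L.fst p ^ 2 + y * L.snd p ^ 2)) : ℝ) : ℂ)

/-- the integral of the theta series over `u ∈ [1, U]` -/
def Phi (j : ℕ) (v w U t : ℝ) : ℂ :=
  ∫ u in (1 : ℝ)..U, L.thA j v w (t * u) (t / u) * ((u ^ (-(j : ℝ) / 2 - 1) : ℝ) : ℂ)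

/-- the integral of the dual theta series -/
def Psi (j : ℕ) (v w U t : ℝ) : ℂ :=
  (-Complex.I) ^ j / (|L.det| : ℝ) *
    ∫ u in (1 : ℝ)..U, L.dual.thB j v w (t / u) (t * u) * ((u ^ ((j : ℝ) / 2 - 1) : ℝ) : ℂ)

end Lat

/-- the integrand after the integration over `t` -/
def fJ (j : ℕ) (α β : ℝ) (s : ℂ) (u : ℝ) : ℂ :=
  ((u * α ^ 2 + β ^ 2 / u : ℝ) : ℂ) ^ (-(s + (j : ℂ) / 2)) *
    ((β ^ j * u ^ (-(j : ℝ) / 2 - 1) : ℝ) : ℂ)

section ideals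

variable {K : Type} [Field K] [NumberField K]

/-- the sign (if `j = 1`) of a generator congruent to `1` modulo `N` of the ideal `𝔞 𝔟` -/
def sgn (ι₂ : K →+* ℝ) (N : ℕ) (𝔟 : Ideal (𝓞 K)) (j : ℕ) (𝔞 : Ideal (𝓞 K)) : ℤ :=
  open Classical in
  if h : ∃ α : 𝓞 K, (N : 𝓞 K) ∣ α - 1 ∧ 𝔞 * 𝔟 = Ideal.span {α} then
    ((SignType.sign (ι₂ (h.choose : K)) : ℤ)) ^ j
  else 0

/-- the coefficients of the zeta function of a ray class -/
def rcoef (ι₂ : K →+* ℝ) (N : ℕ) (𝔟 : Ideal (𝓞 K)) (j n : ℕ) : ℤ :=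
  ∑ᶠ 𝔞 : {𝔞 : Ideal (𝓞 K) // Ideal.absNorm 𝔞 = n}, sgn ι₂ N 𝔟 j 𝔞

end ideals

end Pool.Agent.HeckeRQ
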