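import Pool.Agent.HeckeRQ.PoissonOne

/-!
# HQ04a: the functional equation

`thA_zero`, `thA_one` at `x = u / t`, `y = 1 / (t u)` (so `1/x = t/u`, `1/y = t u`):
`√x √y = 1 / t`, `√x (y √y) = 1 / (t² u)`. For `j = 0` the factor is `t / |det|`, for `j = 1` it is
`-i t² u / |det|` and `u * u^(-1/2-1) = u^(1/2-1)`. (`j = 0` or `j = 1`: `interval_cases j`.) The integrands agree
on `[1, U]` (`intervalIntegral.integral_congr`), constants by `intervalIntegral.integral_const_mul`.
-/

set_option autoImplicit false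

noncomputable section

open Set

namespace Pool.Agent.HeckeRQ

namespace Lat

variable (L : Lat)

theorem Phi_inv (v w : ℝ) {j : ℕ} (hj : j ≤ 1) {U : ℝ} (hU : 1 ≤ U) {t : ℝ} (ht : 0 < t) :
    L.Phi j v w U (1 / t) = ((t ^ (1 + j) : ℝ) : ℂ) * L.Psi j v w U t := by
  have hd : (|L.det| : ℝ) ≠ 0 := abs_ne_zero.2 L.det_ne'
  have ht0 : t ≠ 0 := ht.ne'
  unfold Phi Psi
  rw [← mul_assoc, ← intervalIntegral.integral_const_mul]
  refine intervalIntegral.integral_congr fun u hu => ?_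
  rw [uIcc_of_le hU] at hu
  have hu0 : 0 < u := lt_of_lt_of_le one_pos hu.1
  have hu1 : u ≠ 0 := hu0.ne'
  have hx : 0 < 1 / t * u := by positivity
  have hy : 0 < 1 / t / u := by positivity
  have ex : 1 / (1 / t * u) = t / u := by field_simp
  have ey : 1 / (1 / t / u) = t * u := by field_simp
  have hs : Real.sqrt (1 / t * u) * Real.sqrt (1 / t / u) = 1 / t := by
    rw [← Real.sqrt_mul hx.le]
    have e : 1 / t * u * (1 / t / u) = (1 / t) ^ 2 := by field_simp
    rw [e, Real.sqrt_sq (by positivity)]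
  have hj' : j = 0 ∨ j = 1 := by omega
  rcases hj' with rfl | rfl
  · have e0 : (1 / (|L.det| * Real.sqrt (1 / t * u) * Real.sqrt (1 / t / u)) : ℝ) =
        t ^ (1 + 0) / |L.det| := by
      rw [mul_assoc, hs]
      field_simp
      ring
    rw [L.thA_zero v w hx hy, ex, ey, e0]
    have e1 : (-((0 : ℕ) : ℝ) / 2 - 1) = ((0 : ℕ) : ℝ) / 2 - 1 := by norm_num
    rw [e1, pow_zero]
    push_cast
    ring
  · have e0 : (1 / (|L.det| * Real.sqrt (1 / t * u) * (1 / t / u * Real.sqrt (1 / t / u))) : ℝ) =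
        t ^ (1 + 1) * u / |L.det| := by
      have e : |L.det| * Real.sqrt (1 / t * u) * (1 / t / u * Real.sqrt (1 / t / u)) =
          |L.det| * (1 / t / u) * (Real.sqrt (1 / t * u) * Real.sqrt (1 / t / u)) := by ring
      rw [e, hs]
      field_simp
      try ring
    rw [L.thA_one v w hx hy, ex, ey, e0]
    have e1 : (u ^ (((1 : ℕ) : ℝ) / 2 - 1) : ℝ) = u * u ^ (-((1 : ℕ) : ℝ) / 2 - 1) := by
      have e2 : (((1 : ℕ) : ℝ) / 2 - 1) = (1 : ℝ) + (-((1 : ℕ) : ℝ) / 2 - 1) := by
        push_cast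
        norm_num
      rw [e2, Real.rpow_add hu0, Real.rpow_one]
    rw [e1, pow_one]
    push_cast
    ring

end Lat

end Pool.Agent.HeckeRQ
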