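import Pool.Agent.CMR.ZCls

/-!
# HQ14: representatives of the ray classes

`G` from `CMR.exists_isCls`, for every `𝔤 ∈ G` choose `𝔟 𝔤` with `REq N (𝔤 𝔟) ⊤` (`CMR.exists_REq_inv`),
`B` the image. For `𝔞`: `REq N 𝔞 𝔤` for exactly one `𝔤`, so `REq N (𝔞 𝔟) ⊤` exactly for `𝔟 = 𝔟 𝔤`
(`REq.mul`, `REq.cancel`, `REq.trans`, `IsCls.inj`). `REq N (𝔞 𝔟) ⊤`: `(a) 𝔞 𝔟 = (b)`, `a ≡ b ≡ 1`: then `a ∣ b`,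
`b = a x`, `𝔞 𝔟 = (x)` and `x ≡ 1` modulo `N` (`x - 1 = (a x - 1) - (a - 1) x`). Conversely `𝔞 𝔟 = (x)`,
`x ≡ 1`, `x ≠ 0` gives `REq N (𝔞 𝔟) ⊤` (`a = 1`). `Prm` and `Coprime`: `CMR.prm_iff` (in `CMR/ZArt.lean`).
-/

set_option autoImplicit false

noncomputable section

open NumberField Module Pool.Agent.StarkRQ Pool.Agent.CMR

namespace Pool.Agent.HeckeRQ

private theorem rp_iff {K : Type} [Field K] [NumberField K] {N : ℕ} {𝔠 : Ideal (𝓞 K)}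
    (h0 : 𝔠 ≠ ⊥) : REq N 𝔠 ⊤ ↔ ∃ α : 𝓞 K, (N : 𝓞 K) ∣ α - 1 ∧ 𝔠 = Ideal.span {α} := by
  constructor
  · rintro ⟨a, b, ha0, hb0, ha, hb, e⟩
    rw [Ideal.mul_top] at e
    have h1 : Ideal.span {b} ≤ Ideal.span {a} := by
      rw [← e]
      exact Ideal.mul_le_left
    obtain ⟨x, rfl⟩ := Ideal.mem_span_singleton.1 (h1 (Ideal.mem_span_singleton_self b))
    refine ⟨x, ?_, ?_⟩
    · have h2 : x - 1 = (a * x - 1) - (a - 1) * x := by ring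
      rw [h2]
      exact dvd_sub hb (ha.mul_right x)
    · rw [← Ideal.span_singleton_mul_span_singleton] at e
      refine mul_left_cancel₀ ?_ e
      rw [Ne, Ideal.zero_eq_bot, Ideal.span_singleton_eq_bot]
      exact ha0
  · rintro ⟨α, hα, rfl⟩
    refine ⟨1, α, one_ne_zero, ?_, by simp, hα, ?_⟩
    · rintro rfl
      exact h0 (by simp)
    · rw [Ideal.span_singleton_one, Ideal.top_mul, Ideal.mul_top]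

theorem exists_reps (K : Type) [Field K] [NumberField K] {N : ℕ} (hN : N ≠ 0) :
    ∃ B : Finset (Ideal (𝓞 K)), (∀ 𝔟 ∈ B, 𝔟 ≠ ⊥ ∧ (Ideal.absNorm 𝔟).Coprime N) ∧
      ∀ 𝔞 : Ideal (𝓞 K), 𝔞 ≠ ⊥ → (Ideal.absNorm 𝔞).Coprime N →
        ∃! 𝔟, 𝔟 ∈ B ∧ ∃ α : 𝓞 K, (N : 𝓞 K) ∣ α - 1 ∧ 𝔞 * 𝔟 = Ideal.span {α} := by
  classical
  obtain ⟨G, hG⟩ := exists_isCls (k := K) hN
  have hex : ∀ 𝔤 : G, ∃ 𝔟 : Ideal (𝓞 K), 𝔟 ≠ ⊥ ∧ Prm N 𝔟 ∧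
      REq N ((𝔤 : Ideal (𝓞 K)) * 𝔟) ⊤ := fun 𝔤 =>
    exists_REq_inv hN (hG.ne _ 𝔤.2) (hG.prm _ 𝔤.2)
  choose b hb0 hbp hb using hex
  have hmem : ∀ 𝔟, 𝔟 ∈ G.attach.image b ↔ ∃ 𝔤, b 𝔤 = 𝔟 := by
    intro 𝔟
    simp
  refine ⟨G.attach.image b, ?_, ?_⟩
  · intro 𝔟 h𝔟
    obtain ⟨𝔤, rfl⟩ := (hmem 𝔟).1 h𝔟
    exact ⟨hb0 𝔤, (prm_iff _).1 (hbp 𝔤)⟩
  · intro 𝔞 h0 h𝔞
    obtain ⟨𝔤, h𝔤, hr⟩ := hG.ex 𝔞 h0 ((prm_iff _).2 h𝔞)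
    refine ⟨b ⟨𝔤, h𝔤⟩, ⟨(hmem _).2 ⟨_, rfl⟩, ?_⟩, ?_⟩
    · refine (rp_iff (mul_ne_zero h0 (hb0 _))).1 ?_
      exact (hr.mul (REq.refl _)).trans (hb ⟨𝔤, h𝔤⟩)
    · rintro 𝔟 ⟨h𝔟, h1⟩
      obtain ⟨𝔥, rfl⟩ := (hmem 𝔟).1 h𝔟
      have h2 := (rp_iff (mul_ne_zero h0 (hb0 _))).2 h1
      have h3 : REq N (𝔞 * b 𝔥) ((𝔥 : Ideal (𝓞 K)) * b 𝔥) := h2.trans (hb 𝔥).symm
      have h4 : REq N 𝔞 (𝔥 : Ideal (𝓞 K)) := h3.cancel (hb0 𝔥)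
      have h5 : (𝔥 : Ideal (𝓞 K)) = 𝔤 := hG.inj _ 𝔥.2 _ h𝔤 (h4.symm.trans hr)
      have h6 : 𝔥 = ⟨𝔤, h𝔤⟩ := Subtype.ext h5
      rw [h6]

end Pool.Agent.HeckeRQ
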