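import Pool.Agent.HeckeRQ.Cont
import Pool.Agent.HeckeRQ.Reps
import Pool.Agent.HeckeRQ.Coeff

/-!
# HQ17: the partial zeta functions of `H/K`, modulus `N ∞₂`

`R` from `exists_R`, `B` from `exists_reps`, `e₀`, `e₁` from `zcoeff_even`, `zcoeff_odd`, `W₀ 𝔟`, `W₁ 𝔟` from
`exists_cont_rcoef` (`W₁` only if `R ≠ 1`, using `unit_pos`). `E = ∑ e₀ W₀`, `O = ∑ e₁ W₁` (`0` if `R = 1`),
`Z = (E + O) / 2` is the partial zeta function of `σ` (`IsPartialZeta` from `IsCont`; `LSeries` linear: `LSeries_add`,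
`LSeries_smul`, `LSeries_congr` for `n ≠ 0`). For two given `Z`, `Z'`: `Z + Z' = E` on `{1}ᶜ`
(identity theorem as in `IsCont.deriv_eq`, `StarkRQ/ContLin.lean`), and `E 0 = 0`, `deriv E 0 = 0`.
-/

set_option autoImplicit false

noncomputable section

open NumberField Module Pool.Agent.StarkRQ

namespace Pool.Agent.HeckeRQ

open Filter Topology in
private theorem hk_zero {a a' : ℕ → ℂ} {Z Z' : ℂ → ℂ} (h : IsCont a Z) (h' : IsCont a' Z')
    (haa : ∀ n, n ≠ 0 → a n = a' n) : Z 0 = Z' 0 := by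
  have hopen : IsOpen ({1}ᶜ : Set ℂ) := isOpen_compl_singleton
  have hmem : (0 : ℂ) ∈ ({1}ᶜ : Set ℂ) := by simp
  have hZ : AnalyticOnNhd ℂ Z {1}ᶜ := h.diff.analyticOnNhd hopen
  have hW : AnalyticOnNhd ℂ Z' {1}ᶜ := h'.diff.analyticOnNhd hopen
  have hconn : IsPreconnected ({1}ᶜ : Set ℂ) :=
    (isConnected_compl_singleton_of_one_lt_rank (by simp) 1).isPreconnected
  have heq : ∀ s : ℂ, 1 < s.re → Z s = Z' s := by
    intro s hs
    rw [h.eq s hs, h'.eq s hs]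
    exact LSeries_congr (fun {n} hn => haa n hn) s
  have hev : Z =ᶠ[𝓝 (2 : ℂ)] Z' := by
    have ho : IsOpen {s : ℂ | 1 < s.re} := isOpen_lt continuous_const Complex.continuous_re
    filter_upwards [ho.mem_nhds (show (2 : ℂ) ∈ {s : ℂ | 1 < s.re} by simp)] with s hs
    exact heq s hs
  exact hZ.eqOn_of_preconnected_of_eventuallyEq hW hconn
    (show (2 : ℂ) ∈ ({1}ᶜ : Set ℂ) by simp) hev hmem

private theorem hk_congr {a a' : ℕ → ℂ} {Z : ℂ → ℂ} (h : IsCont a Z)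
    (haa : ∀ n, n ≠ 0 → a n = a' n) : IsCont a' Z where
  diff := h.diff
  summable := fun s hs => (LSeriesSummable_congr s fun {n} hn => haa n hn).1 (h.summable s hs)
  eq := fun s hs => (h.eq s hs).trans (LSeries_congr (fun {n} hn => haa n hn) s)

private theorem hk_smul {a : ℕ → ℂ} {Z : ℂ → ℂ} (h : IsCont a Z) (c : ℂ) :
    IsCont (c • a) (fun s => c * Z s) where
  diff := h.diff.const_mul c
  summable := fun s hs => (h.summable s hs).smul c
  eq := fun s hs => by rw [h.eq s hs, LSeries_smul]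

private theorem hk_sum {J : Type*} (S : Finset J) {a : J → ℕ → ℂ} (e : J → ℂ)
    (h : ∀ j ∈ S, ∃ Z, IsCont (a j) Z) :
    ∃ E, IsCont (fun n => ∑ j ∈ S, e j * a j n) E := by
  classical
  choose! Z hZ using h
  refine ⟨_, hk_congr (IsCont.sum S (a := fun j => e j • a j) (Z := fun j s => e j * Z j s)
    fun j hj => hk_smul (hZ j hj) (e j)) fun n _ => ?_⟩
  simp [Finset.sum_apply]

private theorem hk_sum0 {J : Type*} (S : Finset J) {a : J → ℕ → ℂ} (e : J → ℂ)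
    (h : ∀ j ∈ S, ∃ Z, IsCont (a j) Z ∧ Z 0 = 0 ∧ deriv Z 0 = 0) :
    ∃ E, IsCont (fun n => ∑ j ∈ S, e j * a j n) E ∧ E 0 = 0 ∧ deriv E 0 = 0 := by
  classical
  choose! Z hZ h0 hd using h
  refine ⟨_, hk_congr (IsCont.sum S (a := fun j => e j • a j) (Z := fun j s => e j * Z j s)
    fun j hj => hk_smul (hZ j hj) (e j)) fun n _ => ?_, ?_, ?_⟩
  · simp [Finset.sum_apply]
  · exact Finset.sum_eq_zero fun j hj => by rw [h0 j hj, mul_zero]
  · rw [IsCont.deriv_sum S (a := fun j => e j • a j) (Z := fun j s => e j * Z j s)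
      fun j hj => hk_smul (hZ j hj) (e j)]
    refine Finset.sum_eq_zero fun j hj => ?_
    have h1 := ((hZ j hj).differentiableAt.hasDerivAt.const_mul (e j)).deriv
    rw [h1, hd j hj, mul_zero]

/-- Hecke's theorem: the partial zeta functions of the abelian extension `H/K` of a real quadratic field `K`, where
`N ∞₂` is a modulus of `H/K`, have continuations, and `ζ(s, σ) + ζ(s, R σ)` has a double zero at
`s = 0`, where `R` is the Artin symbol of the `(α)` with `α ≡ 1` modulo `N`, `α` negative at `∞₂`. -/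
theorem hecke {K H : Type} [Field K] [NumberField K] [Field H] [NumberField H] [Algebra K H]
    [IsAbelianGalois K H] (hK : finrank ℚ K = 2) {ι₁ ι₂ : K →+* ℝ} (hι : ι₁ ≠ ι₂) {N : ℕ}
    (hN : 3 ≤ N) (hram : ∀ p : ℕ, p.Prime → (p : ℤ) ∣ discr H → p ∣ N)
    (hmod : ∀ α : 𝓞 K, (N : 𝓞 K) ∣ α - 1 → 0 < ι₂ (α : K) →
      HasArtinSymbol (Ideal.span {α}) (1 : Gal(H/K))) :
    ∃ R : Gal(H/K), R * R = 1 ∧ (∀ α : 𝓞 K, (N : 𝓞 K) ∣ α - 1 → ι₂ (α : K) < 0 →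
        HasArtinSymbol (Ideal.span {α}) R) ∧
      (∀ σ : Gal(H/K), ∃ Z, IsPartialZeta N σ Z) ∧
      ∀ (σ : Gal(H/K)) (Z Z' : ℂ → ℂ), IsPartialZeta N σ Z → IsPartialZeta N (R * σ) Z' →
        Z 0 + Z' 0 = 0 ∧ deriv Z 0 + deriv Z' 0 = 0 := by
  have hN0 : N ≠ 0 := by omega
  obtain ⟨R, hRR, hR⟩ := exists_R hN hram hmod
  obtain ⟨B, hB, hB'⟩ := exists_reps K hN0
  -- the even part
  have hE : ∀ σ : Gal(H/K), ∃ E : ℂ → ℂ,
      IsCont (fun n => (zcoeff N σ n : ℂ) + (zcoeff N (R * σ) n : ℂ)) E ∧ E 0 = 0 ∧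
        deriv E 0 = 0 := by
    intro σ
    obtain ⟨e, he⟩ := zcoeff_even hN hram hmod hRR hR hB hB' σ
    obtain ⟨E, h1, h2⟩ := hk_sum0 B (a := fun 𝔟 n => (rcoef ι₂ N 𝔟 0 n : ℂ))
      (fun 𝔟 => (e 𝔟 : ℂ)) (fun 𝔟 h𝔟 => by
        obtain ⟨W, hW, hW'⟩ := exists_cont_rcoef hK hι hN (hB 𝔟 h𝔟).1 (hB 𝔟 h𝔟).2
          (j := 0) zero_le_one (fun h => absurd h zero_ne_one)
        exact ⟨W, hW, hW' rfl⟩)
    refine ⟨E, hk_congr h1 fun n hn => ?_, h2⟩
    have h3 := congrArg (fun m : ℤ => (m : ℂ)) (he n hn)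
    push_cast at h3
    exact h3.symm
  -- the odd part
  have hO : ∀ σ : Gal(H/K), ∃ O : ℂ → ℂ,
      IsCont (fun n => (zcoeff N σ n : ℂ) - (zcoeff N (R * σ) n : ℂ)) O := by
    intro σ
    by_cases hR1 : R = 1
    · refine ⟨_, hk_congr IsCont.zero fun n _ => ?_⟩
      rw [hR1, one_mul, sub_self, Pi.zero_apply]
    · obtain ⟨e, he⟩ := zcoeff_odd hN hram hmod hRR hR hB hB' σ
      obtain ⟨E, h1⟩ := hk_sum B (a := fun 𝔟 n => (rcoef ι₂ N 𝔟 1 n : ℂ))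
        (fun 𝔟 => (e 𝔟 : ℂ)) (fun 𝔟 h𝔟 => by
          obtain ⟨W, hW, -⟩ := exists_cont_rcoef hK hι hN (hB 𝔟 h𝔟).1 (hB 𝔟 h𝔟).2
            (j := 1) le_rfl (fun _ u hu => unit_pos hram hR hR1 u hu)
          exact ⟨W, hW⟩)
      refine ⟨E, hk_congr h1 fun n hn => ?_⟩
      have h3 := congrArg (fun m : ℤ => (m : ℂ)) (he n hn)
      push_cast at h3
      exact h3.symm
  refine ⟨R, hRR, hR, ?_, ?_⟩
  · intro σ
    obtain ⟨E, hE1, -⟩ := hE σ
    obtain ⟨O, hO1⟩ := hO σ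
    have h1 := hk_smul (hE1.add hO1) (1 / 2)
    have h2 : IsCont (fun n => (zcoeff N σ n : ℂ)) (fun s => (1 / 2) * (E s + O s)) := by
      refine hk_congr h1 fun n _ => ?_
      simp only [Pi.smul_apply, Pi.add_apply, smul_eq_mul]
      ring
    exact ⟨_, h2.diff, h2.eq⟩
  · intro σ Z Z' hZ hZ'
    obtain ⟨E, hE1, hE0, hE'⟩ := hE σ
    have h1 := hZ.isCont.add hZ'.isCont
    have h2 := hk_zero h1 hE1 fun n _ => rfl
    have h3 := h1.deriv_eq hE1 fun n _ => rfl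
    rw [hZ.isCont.deriv_add hZ'.isCont] at h3
    exact ⟨h2.trans hE0, h3.trans hE'⟩

end Pool.Agent.HeckeRQ
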