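import Pool.Agent.HeckeRQ.FE
import Pool.Agent.HeckeRQ.BoundsC
import Pool.Agent.HeckeRQ.BoundsD

/-!
# HQ04b: the continuation of the Mellin transform

Apply Mathlib's `WeakFEPair` (`Mathlib/NumberTheory/LSeries/AbstractFuncEq.lean`) with
`f = Phi`, `g = Psi`, `k = 1 + j`, `ε = 1`, `f₀ = 0`, `g₀ = log U / |det|` for `j = 0` and `0` for `j = 1`
(`∫_1^U u^(-1) = log U`); the functional equation is `Phi_inv`. Local integrability: `Phi` and `Psi` are continuous
on `(0, ∞)` (`continuousOn_thA`, `continuousOn_thB`,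
`intervalIntegral.continuousAt_of_dominated_interval` or
`ContinuousOn.intervalIntegral..`). Decay: `thA_decay`, `thB_decay` and
`isLittleO_exp_neg_mul_rpow_atTop`. Then `Λ = WeakFEPair.Λ`, `WeakFEPair.hasMellin` for `Re s > k`,
`WeakFEPair.differentiableAt_Λ`. For `j = 1` both constants vanish, use `StrongFEPair`
(`hasMellin` for all `s`). For `j = 0` the condition `1 + j / 2 < s.re` is `k < s.re`.
-/

set_option autoImplicit false

noncomputable section

open Set

namespace Pool.Agent.HeckeRQ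

/-- continuity of the parametric integrals -/
private theorem lam_cont {F : ℝ → ℝ → ℂ} {U : ℝ} (hU : 1 ≤ U)
    (hF : ContinuousOn (fun q : ℝ × ℝ => F q.1 q.2) (Ioi 0 ×ˢ Ici 1)) :
    ContinuousOn (fun t => ∫ u in (1 : ℝ)..U, F t u) (Ioi 0) := by
  have h1 : Continuous fun q : (Ioi (0 : ℝ)) × ℝ => F q.1 (max 1 q.2) := by
    refine hF.comp_continuous (f := fun q : (Ioi (0 : ℝ)) × ℝ => ((q.1 : ℝ), max 1 q.2))
      (by fun_prop) ?_
    intro q
    have h3 : (1 : ℝ) ≤ max 1 q.2 := le_max_left _ _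
    exact ⟨q.1.2, h3⟩
  have hlc : LocallyCompactSpace (Ioi (0 : ℝ)) := isOpen_Ioi.locallyCompactSpace
  have h2 : Continuous fun t : Ioi (0 : ℝ) => ∫ u in (1 : ℝ)..U, F t (max 1 u) :=
    intervalIntegral.continuous_parametric_intervalIntegral_of_continuous'
      (f := fun (t : Ioi (0 : ℝ)) u => F t (max 1 u)) h1 1 U
  rw [continuousOn_iff_continuous_domRestrict]
  refine h2.congr fun t => ?_
  refine intervalIntegral.integral_congr fun u hu => ?_
  rw [uIcc_of_le hU] at hu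
  show F t (max 1 u) = F t u
  rw [max_eq_right hu.1]

private theorem lam_bound {G : ℝ → ℂ} {C U a : ℝ} (hU : 1 ≤ U) (ha : a ≤ 0)
    (h : ∀ u ∈ Icc (1 : ℝ) U, ‖G u‖ ≤ C) :
    ‖∫ u in (1 : ℝ)..U, G u * ((u ^ a : ℝ) : ℂ)‖ ≤ C * (U - 1) := by
  have h1 : ‖∫ u in (1 : ℝ)..U, G u * ((u ^ a : ℝ) : ℂ)‖ ≤ C * |U - 1| := by
    refine intervalIntegral.norm_integral_le_of_norm_le_const fun u hu => ?_
    rw [uIoc_of_le hU] at hu
    have h2 := h u ⟨hu.1.le, hu.2⟩
    have h3 : ‖((u ^ a : ℝ) : ℂ)‖ ≤ 1 := by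
      rw [Complex.norm_real, Real.norm_of_nonneg (Real.rpow_nonneg (by linarith [hu.1]) _)]
      exact Real.rpow_le_one_of_one_le_of_nonpos hu.1.le ha
    rw [norm_mul]
    calc ‖G u‖ * ‖((u ^ a : ℝ) : ℂ)‖ ≤ ‖G u‖ * 1 :=
          mul_le_mul_of_nonneg_left h3 (norm_nonneg _)
      _ ≤ C := by rw [mul_one]; exact h2
  rwa [abs_of_nonneg (by linarith)] at h1

private theorem lam_isBigO {f : ℝ → ℂ} {C δ : ℝ} (hδ : 0 < δ)
    (h : ∀ t, 1 ≤ t → ‖f t‖ ≤ C * Real.exp (-δ * t)) (r : ℝ) :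
    f =O[Filter.atTop] fun t : ℝ => t ^ r := by
  refine Asymptotics.IsBigO.trans ?_ (isLittleO_exp_neg_mul_rpow_atTop hδ r).isBigO
  refine Asymptotics.IsBigO.of_bound C ?_
  filter_upwards [Filter.eventually_ge_atTop 1] with t ht
  rw [Real.norm_of_nonneg (Real.exp_pos _).le]
  exact h t ht

namespace Lat

variable (L : Lat)

private theorem lam_thA_cont (v w : ℝ) {j : ℕ} (hj : j ≤ 1) :
    ContinuousOn (fun q : ℝ × ℝ =>
      L.thA j v w (q.1 * q.2) (q.1 / q.2) * ((q.2 ^ (-(j : ℝ) / 2 - 1) : ℝ) : ℂ))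
      (Ioi 0 ×ˢ Ici 1) := by
  have h0 : ∀ q ∈ (Ioi (0 : ℝ) ×ˢ Ici (1 : ℝ)), q.2 ≠ 0 := by
    rintro q ⟨_, h2⟩
    exact (lt_of_lt_of_le one_pos h2).ne'
  refine ContinuousOn.mul ?_ ?_
  · refine (L.continuousOn_thA v w hj).comp (f := fun q : ℝ × ℝ => (q.1 * q.2, q.1 / q.2))
      ?_ ?_
    · refine ContinuousOn.prodMk (by fun_prop) ?_
      exact ContinuousOn.div (by fun_prop) (by fun_prop) h0
    · rintro q ⟨h1, h2⟩
      have h3 : 0 < q.2 := lt_of_lt_of_le one_pos h2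
      exact ⟨mul_pos h1 h3, div_pos h1 h3⟩
  · refine Complex.continuous_ofReal.comp_continuousOn ?_
    exact ContinuousOn.rpow_const (by fun_prop) fun q hq => Or.inl (h0 q hq)

private theorem lam_thB_cont (v w : ℝ) {j : ℕ} (hj : j ≤ 1) :
    ContinuousOn (fun q : ℝ × ℝ =>
      L.thB j v w (q.1 / q.2) (q.1 * q.2) * ((q.2 ^ ((j : ℝ) / 2 - 1) : ℝ) : ℂ))
      (Ioi 0 ×ˢ Ici 1) := by
  have h0 : ∀ q ∈ (Ioi (0 : ℝ) ×ˢ Ici (1 : ℝ)), q.2 ≠ 0 := by
    rintro q ⟨_, h2⟩
    exact (lt_of_lt_of_le one_pos h2).ne'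
  refine ContinuousOn.mul ?_ ?_
  · refine (L.continuousOn_thB v w hj).comp (f := fun q : ℝ × ℝ => (q.1 / q.2, q.1 * q.2))
      ?_ ?_
    · refine ContinuousOn.prodMk ?_ (by fun_prop)
      exact ContinuousOn.div (by fun_prop) (by fun_prop) h0
    · rintro q ⟨h1, h2⟩
      have h3 : 0 < q.2 := lt_of_lt_of_le one_pos h2
      exact ⟨div_pos h1 h3, mul_pos h1 h3⟩
  · refine Complex.continuous_ofReal.comp_continuousOn ?_
    exact ContinuousOn.rpow_const (by fun_prop) fun q hq => Or.inl (h0 q hq)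

theorem exists_Lam {v w : ℝ} (h0 : ∀ p, L.fst p + v ≠ 0 ∨ L.snd p + w ≠ 0) {j : ℕ} (hj : j ≤ 1)
    {U : ℝ} (hU : 1 < U) : ∃ Λ : ℂ → ℂ,
      (∀ s : ℂ, (j = 1 ∨ s ≠ 1) → DifferentiableAt ℂ Λ s) ∧
      ∀ s : ℂ, 1 + (j : ℝ) / 2 < s.re → HasMellin (L.Phi j v w U) s (Λ s) := by
  have hj' : (j : ℝ) ≤ 1 := by exact_mod_cast hj
  have hj0 : (0 : ℝ) ≤ j := Nat.cast_nonneg _
  obtain ⟨C, δ, hδ, hC⟩ := L.thA_decay h0 hj hU.le
  obtain ⟨C', δ', hδ', hC'⟩ := L.dual.thB_decay v w hj hU.le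
  have hcontB : ∀ t : ℝ, 0 < t → IntervalIntegrable (fun u : ℝ =>
      L.dual.thB j v w (t / u) (t * u) * ((u ^ ((j : ℝ) / 2 - 1) : ℝ) : ℂ))
      MeasureTheory.volume 1 U := by
    intro t ht
    refine ContinuousOn.intervalIntegrable ?_
    rw [uIcc_of_le hU.le]
    refine (L.dual.lam_thB_cont v w hj).comp (f := fun u : ℝ => (t, u)) (by fun_prop) ?_
    intro u hu
    exact ⟨ht, hu.1⟩
  have hcontC : IntervalIntegrable (fun u : ℝ =>
      (if j = 0 then (1 : ℂ) else 0) * ((u ^ ((j : ℝ) / 2 - 1) : ℝ) : ℂ))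
      MeasureTheory.volume 1 U := by
    refine ContinuousOn.intervalIntegrable ?_
    rw [uIcc_of_le hU.le]
    refine continuousOn_const.mul ?_
    refine Complex.continuous_ofReal.comp_continuousOn ?_
    refine ContinuousOn.rpow_const (by fun_prop) fun u hu => Or.inl ?_
    exact (lt_of_lt_of_le one_pos hu.1).ne'
  let P : WeakFEPair ℂ :=
    { f := L.Phi j v w U
      g := L.Psi j v w U
      k := 1 + (j : ℝ)
      ε := 1
      f₀ := 0
      g₀ := (-Complex.I) ^ j / (|L.det| : ℝ) * ∫ u in (1 : ℝ)..U,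
        (if j = 0 then (1 : ℂ) else 0) * ((u ^ ((j : ℝ) / 2 - 1) : ℝ) : ℂ)
      hf_int := (lam_cont hU.le (L.lam_thA_cont v w hj)).locallyIntegrableOn measurableSet_Ioi
      hg_int := (continuousOn_const.mul
        (lam_cont hU.le (L.dual.lam_thB_cont v w hj))).locallyIntegrableOn measurableSet_Ioi
      hk := by linarith
      hε := one_ne_zero
      h_feq := fun t ht => by
        have h1 : (t : ℝ) ^ (1 + (j : ℝ)) = t ^ (1 + j) := by
          rw [← Real.rpow_natCast, Nat.cast_add, Nat.cast_one]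
        rw [L.Phi_inv v w hj hU.le ht, one_mul, smul_eq_mul, h1]
      hf_top := fun r => by
        refine lam_isBigO (C := C * (U - 1)) hδ (fun t ht => ?_) r
        rw [sub_zero]
        have h1 := lam_bound (G := fun u => L.thA j v w (t * u) (t / u))
          (a := -(j : ℝ) / 2 - 1) hU.le (by linarith) (hC t ht)
        calc ‖L.Phi j v w U t‖ ≤ C * Real.exp (-δ * t) * (U - 1) := h1
          _ = C * (U - 1) * Real.exp (-δ * t) := by ring
      hg_top := fun r => by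
        refine lam_isBigO (C := ‖((-Complex.I) ^ j / (|L.det| : ℝ) : ℂ)‖ * (C' * (U - 1))) hδ'
          (fun t ht => ?_) r
        have h1 := lam_bound
          (G := fun u => L.dual.thB j v w (t / u) (t * u) - (if j = 0 then 1 else 0))
          (a := (j : ℝ) / 2 - 1) hU.le (by linarith) (hC' t ht)
        have h2 : L.Psi j v w U t - (-Complex.I) ^ j / (|L.det| : ℝ) * ∫ u in (1 : ℝ)..U,
            (if j = 0 then (1 : ℂ) else 0) * ((u ^ ((j : ℝ) / 2 - 1) : ℝ) : ℂ) =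
            (-Complex.I) ^ j / (|L.det| : ℝ) * ∫ u in (1 : ℝ)..U,
              (L.dual.thB j v w (t / u) (t * u) - (if j = 0 then 1 else 0)) *
                ((u ^ ((j : ℝ) / 2 - 1) : ℝ) : ℂ) := by
          rw [Psi, ← mul_sub, ← intervalIntegral.integral_sub (hcontB t (by linarith)) hcontC]
          congr 1
          refine intervalIntegral.integral_congr fun u _ => ?_
          show _ - _ = _
          ring
        rw [h2, norm_mul]
        calc ‖((-Complex.I) ^ j / (|L.det| : ℝ) : ℂ)‖ * _ ≤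
            ‖((-Complex.I) ^ j / (|L.det| : ℝ) : ℂ)‖ * (C' * Real.exp (-δ' * t) * (U - 1)) :=
              mul_le_mul_of_nonneg_left h1 (norm_nonneg _)
          _ = ‖((-Complex.I) ^ j / (|L.det| : ℝ) : ℂ)‖ * (C' * (U - 1)) * Real.exp (-δ' * t) := by
              ring }
  have hg0 : j = 1 → P.g₀ = 0 := by
    intro h
    show (-Complex.I) ^ j / (|L.det| : ℝ) * ∫ u in (1 : ℝ)..U,
        (if j = 0 then (1 : ℂ) else 0) * ((u ^ ((j : ℝ) / 2 - 1) : ℝ) : ℂ) = 0
    have h1 : ¬ j = 0 := by omega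
    simp only [h1, if_false, zero_mul, intervalIntegral.integral_zero, mul_zero]
  have hk : P.k = 1 + (j : ℝ) := rfl
  have hf0 : P.f₀ = 0 := rfl
  have hf : P.f = L.Phi j v w U := rfl
  refine ⟨P.Λ, fun s hs => P.differentiableAt_Λ (Or.inr hf0) ?_, fun s hs => ?_⟩
  · rcases hs with hs | hs
    · exact Or.inr (hg0 hs)
    · by_cases h : j = 1
      · exact Or.inr (hg0 h)
      · have h1 : j = 0 := by omega
        left
        rw [hk, h1, Nat.cast_zero, add_zero, Complex.ofReal_one]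
        exact hs
  · by_cases h : j = 1
    · have hP : IsStrongFEPair P := ⟨hf0, hg0 h⟩
      exact hP.hasMellin s
    · have h1 : j = 0 := by omega
      have h2 : P.k < s.re := by
        rw [hk, h1, Nat.cast_zero]
        rw [h1, Nat.cast_zero] at hs
        linarith
      have h3 := P.hasMellin h2
      simp only [hf0, sub_zero] at h3
      exact h3

end Lat

end Pool.Agent.HeckeRQ
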