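import Pool.Agent.HeckeRQ.Defs

/-!
# HQ06: the sum over the orbits

`U = η²`. `α_(ρ p)² = η² α_p²`, `β_(ρ p) = κ η⁻¹ β_p`, so for `k : ℤ` by the substitution `u ↦ U^k u`
(`intervalIntegral.integral_comp_mul_left`..): `∫_1^U fJ(ρ^k p) = ∫_(U^k)^(U^(k+1)) fJ(p)`
(`fJ j α_(ρp) β_(ρp) s u = U * fJ j α_p β_p s (U u)`: `κ^j = 1`, `η^(-j) = U^(-j/2)`).
`|β/α|` is multiplied by `U⁻¹` under `ρ`, so every `p` is `ρ^k p'` for exactly one `k : ℤ` and one `p'` in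
`F = {|α| ≤ |β| < U |α|}`: `(k, p') ↦ ρ^k p'` is a bijection `ℤ × F ≃ ℤ × ℤ`. `HasSum.prod_fiberwise` /
`HasSum.sigma` and `∑_k ∫_(U^k)^(U^(k+1)) = ∫_(Ioi 0)`: `fJ` is integrable on `Ioi 0` (for `u ≥ 1` bounded
by `C u^(-Re s - j - 1)`, for `u ≤ 1` by `C u^(Re s - 1)`, `Re s > 0`; `(u α² + β²/u)^(-σ)`,
`σ = Re s + j/2`); `Ioi 0` is the disjoint union of the `Ioc (U^k) (U^(k+1))`
(`hasSum_integral_iUnion`, `iUnion_Ioc_zpow` or similar).
-/

set_option autoImplicit false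

noncomputable section

open Set

namespace Pool.Agent.HeckeRQ

private lemma fJ_norm {j : ℕ} {α β : ℝ} (hβ : β ≠ 0) {s : ℂ} {u : ℝ} (hu : 0 < u) :
    ‖fJ j α β s u‖ = (u * α ^ 2 + β ^ 2 / u) ^ (-(s.re + (j : ℝ) / 2)) *
      (|β| ^ j * u ^ (-(j : ℝ) / 2 - 1)) := by
  have hpos : 0 < u * α ^ 2 + β ^ 2 / u := by positivity
  unfold fJ
  rw [norm_mul, Complex.norm_cpow_eq_rpow_re_of_pos hpos, Complex.norm_real, Real.norm_eq_abs,
    abs_mul, abs_pow, abs_of_pos (Real.rpow_pos_of_pos hu _)]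
  have : (-(s + (j : ℂ) / 2)).re = -(s.re + (j : ℝ) / 2) := by
    have h2 : ((j : ℂ) / 2) = (((j : ℝ) / 2 : ℝ) : ℂ) := by push_cast; rfl
    rw [h2, Complex.neg_re, Complex.add_re, Complex.ofReal_re]
  rw [this]

private lemma fJ_contOn {j : ℕ} {α β : ℝ} (hβ : β ≠ 0) {s : ℂ} :
    ContinuousOn (fJ j α β s) (Ioi 0) := by
  unfold fJ
  apply ContinuousOn.mul
  · apply ContinuousOn.cpow_const
    · apply Complex.continuous_ofReal.comp_continuousOn
      apply ContinuousOn.add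
      · exact (continuous_id.mul continuous_const).continuousOn
      · exact continuousOn_const.div continuousOn_id (fun x hx => (ne_of_gt hx))
    · intro u hu
      have hu' : (0 : ℝ) < u := hu
      have hpos : 0 < u * α ^ 2 + β ^ 2 / u := by positivity
      exact Complex.ofReal_mem_slitPlane.2 hpos
  · apply Complex.continuous_ofReal.comp_continuousOn
    apply ContinuousOn.mul continuousOn_const
    apply ContinuousOn.rpow_const continuousOn_id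
    intro u hu
    exact Or.inl (ne_of_gt hu)

/-- integrability of `fJ` on `(0, ∞)` -/
theorem integrableOn_fJ {j : ℕ} {α β : ℝ} (hα : α ≠ 0) (hβ : β ≠ 0) {s : ℂ} (hs : 0 < s.re) :
    MeasureTheory.IntegrableOn (fJ j α β s) (Ioi 0) := by
  have hσ : 0 < s.re + (j : ℝ) / 2 := by positivity
  have hcont := fJ_contOn (j := j) (α := α) hβ (s := s)
  have h01 : MeasureTheory.IntegrableOn (fJ j α β s) (Ioc 0 1) := by
    have hint : MeasureTheory.IntegrableOn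
        (fun u : ℝ => |β| ^ j * (β ^ 2) ^ (-(s.re + (j : ℝ) / 2)) * u ^ (s.re - 1)) (Ioc 0 1) := by
      have h := (intervalIntegral.intervalIntegrable_rpow' (a := 0) (b := 1)
        (r := s.re - 1) (by linarith)).const_mul
          (|β| ^ j * (β ^ 2) ^ (-(s.re + (j : ℝ) / 2)))
      rwa [intervalIntegrable_iff_integrableOn_Ioc_of_le zero_le_one] at h
    apply MeasureTheory.Integrable.mono' hint
    · exact (hcont.mono (fun x hx => hx.1)).aestronglyMeasurable measurableSet_Ioc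
    · rw [MeasureTheory.ae_restrict_iff' measurableSet_Ioc]
      refine Filter.Eventually.of_forall fun u hu => ?_
      have hu0 : 0 < u := hu.1
      rw [fJ_norm hβ hu0]
      have hb : 0 < β ^ 2 / u := by positivity
      have h1 : (u * α ^ 2 + β ^ 2 / u) ^ (-(s.re + (j : ℝ) / 2)) ≤
          (β ^ 2 / u) ^ (-(s.re + (j : ℝ) / 2)) := by
        apply Real.rpow_le_rpow_of_nonpos hb
        · have : 0 ≤ u * α ^ 2 := by positivity
          linarith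
        · linarith
      have h2 : (β ^ 2 / u) ^ (-(s.re + (j : ℝ) / 2)) =
          (β ^ 2) ^ (-(s.re + (j : ℝ) / 2)) * u ^ (s.re + (j : ℝ) / 2) := by
        rw [Real.div_rpow (by positivity) hu0.le, Real.rpow_neg hu0.le, div_inv_eq_mul]
      calc (u * α ^ 2 + β ^ 2 / u) ^ (-(s.re + (j : ℝ) / 2)) *
            (|β| ^ j * u ^ (-(j : ℝ) / 2 - 1))
          ≤ (β ^ 2 / u) ^ (-(s.re + (j : ℝ) / 2)) * (|β| ^ j * u ^ (-(j : ℝ) / 2 - 1)) := by
            gcongr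
        _ = |β| ^ j * (β ^ 2) ^ (-(s.re + (j : ℝ) / 2)) *
            (u ^ (s.re + (j : ℝ) / 2) * u ^ (-(j : ℝ) / 2 - 1)) := by
            rw [h2]; ring
        _ = |β| ^ j * (β ^ 2) ^ (-(s.re + (j : ℝ) / 2)) * u ^ (s.re - 1) := by
            rw [← Real.rpow_add hu0]
            congr 2
            ring
  have h1i : MeasureTheory.IntegrableOn (fJ j α β s) (Ioi 1) := by
    have hint : MeasureTheory.IntegrableOn
        (fun u : ℝ => |β| ^ j * (α ^ 2) ^ (-(s.re + (j : ℝ) / 2)) * u ^ (-s.re - j - 1))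
          (Ioi 1) := by
      have h := (integrableOn_Ioi_rpow_of_lt (a := -s.re - j - 1) (c := 1) (by
        have : (0 : ℝ) ≤ j := by positivity
        linarith) one_pos).const_mul (|β| ^ j * (α ^ 2) ^ (-(s.re + (j : ℝ) / 2)))
      exact h
    apply MeasureTheory.Integrable.mono' hint
    · exact (hcont.mono (Ioi_subset_Ioi (zero_le_one' ℝ))).aestronglyMeasurable
        measurableSet_Ioi
    · rw [MeasureTheory.ae_restrict_iff' measurableSet_Ioi]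
      refine Filter.Eventually.of_forall fun u hu => ?_
      have hu0 : 0 < u := lt_trans one_pos hu
      rw [fJ_norm hβ hu0]
      have hb : 0 < u * α ^ 2 := by positivity
      have h1 : (u * α ^ 2 + β ^ 2 / u) ^ (-(s.re + (j : ℝ) / 2)) ≤
          (u * α ^ 2) ^ (-(s.re + (j : ℝ) / 2)) := by
        apply Real.rpow_le_rpow_of_nonpos hb
        · have : 0 ≤ β ^ 2 / u := by positivity
          linarith
        · linarith
      have h2 : (u * α ^ 2) ^ (-(s.re + (j : ℝ) / 2)) =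
          u ^ (-(s.re + (j : ℝ) / 2)) * (α ^ 2) ^ (-(s.re + (j : ℝ) / 2)) :=
        Real.mul_rpow hu0.le (by positivity)
      calc (u * α ^ 2 + β ^ 2 / u) ^ (-(s.re + (j : ℝ) / 2)) *
            (|β| ^ j * u ^ (-(j : ℝ) / 2 - 1))
          ≤ (u * α ^ 2) ^ (-(s.re + (j : ℝ) / 2)) * (|β| ^ j * u ^ (-(j : ℝ) / 2 - 1)) := by
            gcongr
        _ = |β| ^ j * (α ^ 2) ^ (-(s.re + (j : ℝ) / 2)) *
            (u ^ (-(s.re + (j : ℝ) / 2)) * u ^ (-(j : ℝ) / 2 - 1)) := by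
            rw [h2]; ring
        _ = |β| ^ j * (α ^ 2) ^ (-(s.re + (j : ℝ) / 2)) * u ^ (-s.re - j - 1) := by
            rw [← Real.rpow_add hu0]
            congr 2
            ring
  rw [← Ioc_union_Ioi_eq_Ioi (zero_le_one' ℝ)]
  exact h01.union h1i

private lemma fJ_scale {j : ℕ} {α β α' β' c κ : ℝ} (hc : 0 < c) (hκ : κ ^ 2 = 1)
    (hκj : κ ^ j = 1) (h1 : α' ^ 2 = c ^ 2 * α ^ 2) (h2 : β' = κ * c⁻¹ * β) {s : ℂ} {u : ℝ}
    (hu : 0 < u) : fJ j α' β' s u = ((c ^ 2 : ℝ) : ℂ) * fJ j α β s (c ^ 2 * u) := by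
  unfold fJ
  have e1 : u * α' ^ 2 + β' ^ 2 / u = c ^ 2 * u * α ^ 2 + β ^ 2 / (c ^ 2 * u) := by
    rw [h1, h2, mul_pow, mul_pow, hκ]
    field_simp
  have e2 : β' ^ j * u ^ (-(j : ℝ) / 2 - 1) =
      c ^ 2 * (β ^ j * (c ^ 2 * u) ^ (-(j : ℝ) / 2 - 1)) := by
    rw [h2, mul_pow, mul_pow, hκj, Real.mul_rpow (by positivity) hu.le]
    have e3 : (c ^ 2 : ℝ) ^ (-(j : ℝ) / 2 - 1) = c⁻¹ ^ j * (c ^ 2)⁻¹ := by
      rw [← Real.rpow_natCast c 2, ← Real.rpow_mul hc.le]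
      have : ((2 : ℕ) : ℝ) * (-(j : ℝ) / 2 - 1) = -(j : ℝ) - ((2 : ℕ) : ℝ) := by push_cast; ring
      rw [this, Real.rpow_sub hc, Real.rpow_neg hc.le, Real.rpow_natCast, inv_pow, div_eq_mul_inv]
    rw [e3]
    field_simp
  rw [e1, e2]
  push_cast
  ring

private lemma int_scale {j : ℕ} {α β α' β' η κ : ℝ} (hη : 1 < η) (k : ℤ) (hκ : κ ^ 2 = 1)
    (hκj : κ ^ j = 1) (h1 : α' ^ 2 = (η ^ k) ^ 2 * α ^ 2) (h2 : β' = κ * (η ^ k)⁻¹ * β) {s : ℂ} :
    ∫ u in (1 : ℝ)..(η ^ 2), fJ j α' β' s u =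
      ∫ u in Ioc ((η ^ 2) ^ k) ((η ^ 2) ^ (k + 1)), fJ j α β s u := by
  have hη0 : 0 < η := by linarith
  have hc : 0 < η ^ k := zpow_pos hη0 k
  have hU : 1 < η ^ 2 := one_lt_pow₀ hη two_ne_zero
  have e0 : (η ^ k) ^ 2 = (η ^ 2) ^ k := by
    rw [← zpow_natCast, ← zpow_natCast, ← zpow_mul, ← zpow_mul, mul_comm]
  rw [← intervalIntegral.integral_of_le
    (zpow_le_zpow_right₀ hU.le (by linarith : k ≤ k + 1))]
  have e1 : ∫ u in (1 : ℝ)..(η ^ 2), fJ j α' β' s u =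
      ∫ u in (1 : ℝ)..(η ^ 2), (((η ^ k) ^ 2 : ℝ) : ℂ) * fJ j α β s ((η ^ k) ^ 2 * u) := by
    apply intervalIntegral.integral_congr
    intro u hu
    rw [uIcc_of_le hU.le] at hu
    exact fJ_scale hc hκ hκj h1 h2 (by linarith [hu.1])
  rw [e1]
  have e2 : (fun u : ℝ => (((η ^ k) ^ 2 : ℝ) : ℂ) * fJ j α β s ((η ^ k) ^ 2 * u)) =
      fun u : ℝ => ((η ^ k) ^ 2) • fJ j α β s ((η ^ k) ^ 2 * u) := by
    funext u
    rw [Complex.real_smul]
  rw [e2, intervalIntegral.integral_smul, intervalIntegral.smul_integral_comp_mul_left, e0,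
    mul_one, zpow_add_one₀ (by positivity)]

private lemma hasSum_pieces {f : ℝ → ℂ} {U : ℝ} (hU : 1 < U)
    (hf : MeasureTheory.IntegrableOn f (Ioi 0)) :
    HasSum (fun k : ℤ => ∫ u in Ioc (U ^ k) (U ^ (k + 1)), f u) (∫ u in Ioi (0 : ℝ), f u) := by
  have hU0 : 0 < U := by linarith
  have hun : (⋃ k : ℤ, Ioc (U ^ k) (U ^ (k + 1))) = Ioi 0 := by
    ext x
    simp only [mem_iUnion]
    constructor
    · rintro ⟨k, hk⟩
      exact lt_trans (zpow_pos hU0 k) hk.1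
    · intro hx
      exact exists_mem_Ioc_zpow hx hU
  have hmono : Monotone (fun k : ℤ => U ^ k) := fun a b hab => zpow_le_zpow_right₀ hU.le hab
  have hd := hmono.pairwise_disjoint_on_Ioc_succ
  have h := MeasureTheory.hasSum_integral_iUnion (μ := MeasureTheory.volume)
    (s := fun k : ℤ => Ioc (U ^ k) (U ^ (k + 1))) (f := f) (fun k => measurableSet_Ioc) hd
    (by rw [hun]; exact hf)
  rwa [hun] at h

theorem hasSum_orbits {al be : ℤ × ℤ → ℝ} (h0 : ∀ p, al p ≠ 0 ∧ be p ≠ 0) {j : ℕ} {η : ℝ}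
    (hη : 1 < η) (ρ : Equiv.Perm (ℤ × ℤ)) {κ : ℝ} (hκ : κ ^ 2 = 1) (hκj : κ ^ j = 1)
    (h1 : ∀ p, al (ρ p) ^ 2 = η ^ 2 * al p ^ 2) (h2 : ∀ p, be (ρ p) = κ * η⁻¹ * be p) {s : ℂ}
    (hs : 0 < s.re) {X : ℂ}
    (hX : HasSum (fun p : ℤ × ℤ => ∫ u in (1 : ℝ)..(η ^ 2), fJ j (al p) (be p) s u) X) :
    HasSum (fun p : {p : ℤ × ℤ // |al p| ≤ |be p| ∧ |be p| < η ^ 2 * |al p|} =>
      ∫ u in Ioi (0 : ℝ), fJ j (al p) (be p) s u) X := by
  have hη0 : 0 < η := by linarith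
  have hU : 1 < η ^ 2 := one_lt_pow₀ hη two_ne_zero
  have hU0 : 0 < η ^ 2 := by positivity
  have hκ0 : κ ≠ 0 := by rintro rfl; norm_num at hκ
  have hκa : |κ| = 1 := by
    have : |κ| ^ 2 = 1 := by rw [sq_abs]; exact hκ
    exact (pow_eq_one_iff_of_nonneg (abs_nonneg κ) two_ne_zero).1 this
  -- powers
  have H1 : ∀ (k : ℤ) (p : ℤ × ℤ), al ((ρ ^ k) p) ^ 2 = (η ^ k) ^ 2 * al p ^ 2 := by
    intro k
    induction k using Int.induction_on with
    | zero => intro p; simp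
    | succ i ih =>
      intro p
      rw [zpow_add_one, Equiv.Perm.mul_apply, ih, h1, zpow_add_one₀ hη0.ne']
      ring
    | pred i ih =>
      intro p
      have h3 := h1 ((ρ ^ (-(i : ℤ) - 1)) p)
      have h4 : ρ ((ρ ^ (-(i : ℤ) - 1)) p) = (ρ ^ (-(i : ℤ))) p := by
        rw [← Equiv.Perm.mul_apply, ← zpow_one_add]
        congr 2
        ring
      rw [h4, ih] at h3
      have h5 : η ^ (-(i : ℤ)) = η ^ (-(i : ℤ) - 1) * η := by
        rw [← zpow_add_one₀ hη0.ne']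
        congr 1
        ring
      rw [h5] at h3
      have h6 : (η ^ 2) ≠ 0 := by positivity
      apply mul_left_cancel₀ h6
      rw [← h3]
      ring
  have H2 : ∀ (k : ℤ) (p : ℤ × ℤ), be ((ρ ^ k) p) = κ ^ k * (η ^ k)⁻¹ * be p := by
    intro k
    induction k using Int.induction_on with
    | zero => intro p; simp
    | succ i ih =>
      intro p
      rw [zpow_add_one, Equiv.Perm.mul_apply, ih, h2, zpow_add_one₀ hη0.ne',
        zpow_add_one₀ hκ0, mul_inv]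
      ring
    | pred i ih =>
      intro p
      have h3 := h2 ((ρ ^ (-(i : ℤ) - 1)) p)
      have h4 : ρ ((ρ ^ (-(i : ℤ) - 1)) p) = (ρ ^ (-(i : ℤ))) p := by
        rw [← Equiv.Perm.mul_apply, ← zpow_one_add]
        congr 2
        ring
      rw [h4, ih] at h3
      have h5 : η ^ (-(i : ℤ)) = η ^ (-(i : ℤ) - 1) * η := by
        rw [← zpow_add_one₀ hη0.ne']
        congr 1
        ring
      have h7 : κ ^ (-(i : ℤ)) = κ ^ (-(i : ℤ) - 1) * κ := by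
        rw [← zpow_add_one₀ hκ0]
        congr 1
        ring
      rw [h5, h7, mul_inv] at h3
      have h6 : κ * η⁻¹ ≠ 0 := mul_ne_zero hκ0 (inv_ne_zero hη0.ne')
      apply mul_left_cancel₀ h6
      rw [← h3]
      ring
  have A1 : ∀ (k : ℤ) (p : ℤ × ℤ), |al ((ρ ^ k) p)| = η ^ k * |al p| := by
    intro k p
    have hk : 0 < η ^ k := zpow_pos hη0 k
    have h3 : |al ((ρ ^ k) p)| ^ 2 = (η ^ k * |al p|) ^ 2 := by
      rw [sq_abs, mul_pow, sq_abs, H1]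
    exact (pow_left_inj₀ (abs_nonneg _) (by positivity) two_ne_zero).1 h3
  have A2 : ∀ (k : ℤ) (p : ℤ × ℤ), |be ((ρ ^ k) p)| = (η ^ k)⁻¹ * |be p| := by
    intro k p
    have hk : 0 < η ^ k := zpow_pos hη0 k
    rw [H2, abs_mul, abs_mul, abs_zpow, hκa, one_zpow, one_mul, abs_inv, abs_of_pos hk]
  have A3 : ∀ k : ℤ, (η ^ 2) ^ k = η ^ k * η ^ k := by
    intro k
    rw [pow_two, mul_zpow]
  -- the condition for the image
  have key : ∀ (k : ℤ) (q : ℤ × ℤ), (|al ((ρ ^ k) q)| ≤ |be ((ρ ^ k) q)| ∧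
      |be ((ρ ^ k) q)| < η ^ 2 * |al ((ρ ^ k) q)|) ↔
      ((η ^ 2) ^ k ≤ |be q| / |al q| ∧ |be q| / |al q| < (η ^ 2) ^ (k + 1)) := by
    intro k q
    have hk : 0 < η ^ k := zpow_pos hη0 k
    have ha : 0 < |al q| := abs_pos.2 (h0 q).1
    rw [A1, A2, le_div_iff₀ ha, div_lt_iff₀ ha, zpow_add_one₀ hU0.ne', A3, inv_mul_eq_div,
      le_div_iff₀ hk, div_lt_iff₀ hk]
    constructor
    · rintro ⟨h3, h4⟩
      constructor
      · linarith
      · linarith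
    · rintro ⟨h3, h4⟩
      constructor
      · linarith
      · linarith
  have hex : ∀ q : ℤ × ℤ, ∃ k : ℤ, (|al ((ρ ^ k) q)| ≤ |be ((ρ ^ k) q)| ∧
      |be ((ρ ^ k) q)| < η ^ 2 * |al ((ρ ^ k) q)|) := by
    intro q
    have ha : 0 < |al q| := abs_pos.2 (h0 q).1
    have hb : 0 < |be q| := abs_pos.2 (h0 q).2
    obtain ⟨k, hk⟩ := exists_mem_Ico_zpow (div_pos hb ha) hU
    exact ⟨k, (key k q).2 hk⟩
  have huniq : ∀ (q : ℤ × ℤ) (k l : ℤ), (|al ((ρ ^ k) q)| ≤ |be ((ρ ^ k) q)| ∧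
      |be ((ρ ^ k) q)| < η ^ 2 * |al ((ρ ^ k) q)|) → (|al ((ρ ^ l) q)| ≤ |be ((ρ ^ l) q)| ∧
      |be ((ρ ^ l) q)| < η ^ 2 * |al ((ρ ^ l) q)|) → k = l := by
    intro q k l hk hl
    rw [key] at hk hl
    have h3 : k < l + 1 := (zpow_lt_zpow_iff_right₀ hU).1 (lt_of_le_of_lt hk.1 hl.2)
    have h4 : l < k + 1 := (zpow_lt_zpow_iff_right₀ hU).1 (lt_of_le_of_lt hl.1 hk.2)
    omega
  let ψ : ({p : ℤ × ℤ // |al p| ≤ |be p| ∧ |be p| < η ^ 2 * |al p|} × ℤ) → ℤ × ℤ :=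
    fun x => (ρ ^ x.2) x.1.1
  have hψ : Function.Bijective ψ := by
    constructor
    · rintro ⟨⟨p, hp⟩, k⟩ ⟨⟨q, hq⟩, l⟩ hpq
      have hpq' : (ρ ^ k) p = (ρ ^ l) q := hpq
      have e1 : p = (ρ ^ (-k)) ((ρ ^ l) q) := by
        rw [← hpq', ← Equiv.Perm.mul_apply, ← zpow_add]
        simp
      have e2 : q = (ρ ^ (-l)) ((ρ ^ l) q) := by
        rw [← Equiv.Perm.mul_apply, ← zpow_add]
        simp
      have h3 : -k = -l := by
        apply huniq ((ρ ^ l) q)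
        · rw [← e1]; exact hp
        · rw [← e2]; exact hq
      have h4 : k = l := by linarith
      subst h4
      have h5 : p = q := (ρ ^ k).injective hpq'
      subst h5
      rfl
    · intro q
      obtain ⟨k, hk⟩ := hex q
      refine ⟨(⟨(ρ ^ k) q, hk⟩, -k), ?_⟩
      change (ρ ^ (-k)) ((ρ ^ k) q) = q
      rw [← Equiv.Perm.mul_apply, ← zpow_add]
      simp
  have h3 : HasSum (fun x : ({p : ℤ × ℤ // |al p| ≤ |be p| ∧ |be p| < η ^ 2 * |al p|} × ℤ) =>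
      ∫ u in (1 : ℝ)..(η ^ 2), fJ j (al (ψ x)) (be (ψ x)) s u) X :=
    ((Equiv.ofBijective ψ hψ).hasSum_iff).2 hX
  refine h3.prod_fiberwise fun p => ?_
  have h4 := hasSum_pieces hU (integrableOn_fJ (j := j) (h0 p.1).1 (h0 p.1).2 hs)
  convert h4 using 1
  funext k
  refine int_scale hη k (κ := κ ^ k) ?_ ?_ (H1 k p.1) (H2 k p.1)
  · rw [← zpow_natCast, zpow_comm, zpow_natCast, hκ, one_zpow]
  · rw [← zpow_natCast, zpow_comm, zpow_natCast, hκj, one_zpow]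

end Pool.Agent.HeckeRQ
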