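import Pool.Agent.HeckeRQ.BoundsC

/-!
# HQ05: the Mellin transform of `Phi` as a sum over the lattice

`r = s + j / 2`. `mellin (Phi) r = ∫_0^∞ ∫_1^U ∑_p β^j exp(-π t (u α² + β²/u)) u^(-j/2-1) du t^(r-1) dt`.
Exchange sum and integrals (`MeasureTheory.hasSum_integral_of_summable_integral_norm` on the product
measure of `Ioi 0` and `Ioc 1 U`, or in two steps): the norm of the term of `p` has the integral
`|β|^j Γ(σ') π^(-σ') ∫_1^U (u α² + β²/u)^(-σ') u^(-j/2-1) du` with `σ' = Re r > 1 + j/2`, which is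
`≤ C |β|^j (α² + β²)^(-σ') ≤ C (α² + β²)^(-(σ' - j/2))` (`u α² + β²/u ≥ (α² + β²)/U`,
`|β|^j ≤ (α² + β²)^(j/2)`), summable by `summable_rpow` since `σ' - j/2 = Re s > 1`. The integral over
`t`: `∫_0^∞ exp(-π t Q) t^(r-1) dt = Γ(r) (π Q)^(-r)`, `Q > 0` (`Complex.integral_cpow_mul_exp_neg_mul_Ioi`).
-/

set_option autoImplicit false

noncomputable section

open Set

namespace Pool.Agent.HeckeRQ

section unf

open MeasureTheory

variable {j : ℕ} {α β U : ℝ} {r : ℂ}

private def uF (j : ℕ) (α β : ℝ) (r : ℂ) (z : ℝ × ℝ) : ℂ :=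
  (z.1 : ℂ) ^ (r - 1) * (((β ^ j * Real.exp (-Real.pi *
    (z.1 * z.2 * α ^ 2 + z.1 / z.2 * β ^ 2)) : ℝ) : ℂ) * ((z.2 ^ (-(j : ℝ) / 2 - 1) : ℝ) : ℂ))

private def uG (j : ℕ) (α β U : ℝ) (r : ℂ) (t : ℝ) : ℝ :=
  |β| ^ j * (t ^ (r.re - 1) * Real.exp (-(Real.pi * (α ^ 2 + β ^ 2) / U * t)))

private lemma uF_le (hU : 1 < U) {t u : ℝ} (ht : 0 < t) (hu : 1 ≤ u) (hu' : u ≤ U) :
    ‖uF j α β r (t, u)‖ ≤ uG j α β U r t := by
  have hu0 : 0 < u := by linarith
  have hU0 : 0 < U := by linarith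
  unfold uF uG
  simp only
  rw [norm_mul, norm_mul, Complex.norm_cpow_eq_rpow_re_of_pos ht, Complex.sub_re, Complex.one_re,
    Complex.norm_real, Complex.norm_real, Real.norm_eq_abs, Real.norm_eq_abs, abs_mul, abs_pow,
    abs_of_pos (Real.exp_pos _), abs_of_pos (Real.rpow_pos_of_pos hu0 _)]
  have h1 : u ^ (-(j : ℝ) / 2 - 1) ≤ 1 := by
    apply Real.rpow_le_one_of_one_le_of_nonpos hu
    have : (0 : ℝ) ≤ j := Nat.cast_nonneg j
    linarith
  have h2 : Real.exp (-Real.pi * (t * u * α ^ 2 + t / u * β ^ 2)) ≤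
      Real.exp (-(Real.pi * (α ^ 2 + β ^ 2) / U * t)) := by
    apply Real.exp_le_exp.2
    have h3 : α ^ 2 / U ≤ u * α ^ 2 := by
      rw [div_le_iff₀ hU0]
      have : 1 ≤ u * U := by nlinarith
      nlinarith [sq_nonneg α]
    have h4 : β ^ 2 / U ≤ β ^ 2 / u := by gcongr
    have h5 : Real.pi * (α ^ 2 + β ^ 2) / U * t = (Real.pi * t) * (α ^ 2 / U + β ^ 2 / U) := by
      ring
    have h6 : -Real.pi * (t * u * α ^ 2 + t / u * β ^ 2) =
        -((Real.pi * t) * (u * α ^ 2 + β ^ 2 / u)) := by ring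
    rw [h5, h6]
    have h7 : 0 < Real.pi * t := mul_pos Real.pi_pos ht
    have h8 := mul_le_mul_of_nonneg_left (add_le_add h3 h4) h7.le
    linarith
  have h9 : 0 ≤ t ^ (r.re - 1) := Real.rpow_nonneg ht.le _
  have h10 : 0 ≤ |β| ^ j := pow_nonneg (abs_nonneg _) _
  calc t ^ (r.re - 1) * (|β| ^ j * Real.exp (-Real.pi * (t * u * α ^ 2 + t / u * β ^ 2)) *
        u ^ (-(j : ℝ) / 2 - 1))
      ≤ t ^ (r.re - 1) * (|β| ^ j * Real.exp (-(Real.pi * (α ^ 2 + β ^ 2) / U * t)) * 1) := by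
        gcongr
    _ = _ := by ring

private lemma uG_integral (hr : 0 < r.re) (hU : 0 < U) (hQ : 0 < α ^ 2 + β ^ 2) :
    ∫ t in Ioi (0 : ℝ), uG j α β U r t =
      |β| ^ j * ((1 / (Real.pi * (α ^ 2 + β ^ 2) / U)) ^ r.re * Real.Gamma r.re) := by
  unfold uG
  rw [MeasureTheory.integral_const_mul, Real.integral_rpow_mul_exp_neg_mul_Ioi hr]
  have := Real.pi_pos
  positivity

private lemma uG_integrable (hr : 0 < r.re) (hU : 0 < U) (hQ : 0 < α ^ 2 + β ^ 2) :
    Integrable (uG j α β U r) (volume.restrict (Ioi 0)) := by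
  unfold uG
  refine Integrable.const_mul ?_ _
  apply Integrable.of_integral_ne_zero
  have hR : 0 < Real.pi * (α ^ 2 + β ^ 2) / U := by
    have := Real.pi_pos
    positivity
  rw [Real.integral_rpow_mul_exp_neg_mul_Ioi hr hR]
  have h1 := Real.Gamma_pos_of_pos hr
  have h2 : 0 < (1 / (Real.pi * (α ^ 2 + β ^ 2) / U)) ^ r.re := by positivity
  exact (mul_pos h2 h1).ne'

private lemma uF_measurable : Measurable (uF j α β r) := by
  unfold uF
  refine Measurable.mul ?_ (Measurable.mul ?_ ?_)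
  · exact (Complex.measurable_ofReal.comp measurable_fst).pow_const _
  · fun_prop
  · fun_prop

private lemma uF_integrable (hr : 0 < r.re) (hU : 1 < U) (hQ : 0 < α ^ 2 + β ^ 2) :
    Integrable (uF j α β r)
      ((volume.restrict (Ioi (0 : ℝ))).prod (volume.restrict (Ioc (1 : ℝ) U))) := by
  have h1 : Integrable (fun z : ℝ × ℝ => uG j α β U r z.1 * 1)
      ((volume.restrict (Ioi (0 : ℝ))).prod (volume.restrict (Ioc (1 : ℝ) U))) :=
    Integrable.mul_prod (g := fun _ : ℝ => (1 : ℝ)) (uG_integrable hr (by linarith) hQ)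
      (integrable_const _)
  refine Integrable.mono' h1 uF_measurable.aestronglyMeasurable ?_
  rw [Measure.prod_restrict, ae_restrict_iff' (measurableSet_Ioi.prod measurableSet_Ioc)]
  refine Filter.Eventually.of_forall fun z hz => ?_
  rw [mul_one]
  exact uF_le hU hz.1 hz.2.1.le hz.2.2

private lemma uF_t (hr : 0 < r.re) (hQ : 0 < α ^ 2 + β ^ 2) {u : ℝ} (hu : 0 < u) :
    ∫ t in Ioi (0 : ℝ), uF j α β r (t, u) =
      ((Real.pi : ℂ) ^ (-r) * Complex.Gamma r) * (((u * α ^ 2 + β ^ 2 / u : ℝ) : ℂ) ^ (-r) *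
        ((β ^ j * u ^ (-(j : ℝ) / 2 - 1) : ℝ) : ℂ)) := by
  have hq : 0 < u * α ^ 2 + β ^ 2 / u := by
    rcases (sq_nonneg α).lt_or_eq with h | h
    · have : 0 ≤ β ^ 2 / u := by positivity
      nlinarith
    · have h1 : 0 < β ^ 2 := by linarith
      have h2 : 0 ≤ u * α ^ 2 := by positivity
      have : 0 < β ^ 2 / u := by positivity
      linarith
  have hR : 0 < Real.pi * (u * α ^ 2 + β ^ 2 / u) := mul_pos Real.pi_pos hq
  have h1 : ∀ t : ℝ, uF j α β r (t, u) = ((β ^ j * u ^ (-(j : ℝ) / 2 - 1) : ℝ) : ℂ) *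
      ((t : ℂ) ^ (r - 1) *
        Complex.exp (-(((Real.pi * (u * α ^ 2 + β ^ 2 / u) : ℝ) : ℂ) * t))) := by
    intro t
    unfold uF
    simp only
    have h2 : -Real.pi * (t * u * α ^ 2 + t / u * β ^ 2) =
      -(Real.pi * (u * α ^ 2 + β ^ 2 / u) * t) := by ring
    rw [h2]
    push_cast
    ring
  simp_rw [h1]
  rw [MeasureTheory.integral_const_mul, Complex.integral_cpow_mul_exp_neg_mul_Ioi hr hR]
  have h3 : (1 / ((Real.pi * (u * α ^ 2 + β ^ 2 / u) : ℝ) : ℂ)) ^ r =
      (Real.pi : ℂ) ^ (-r) * ((u * α ^ 2 + β ^ 2 / u : ℝ) : ℂ) ^ (-r) := by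
    rw [one_div, Complex.inv_cpow _ _ (by
      rw [Complex.arg_ofReal_of_nonneg hR.le]
      exact Real.pi_pos.ne), ← Complex.cpow_neg, Complex.ofReal_mul,
      Complex.mul_cpow_ofReal_nonneg Real.pi_pos.le hq.le]
  rw [h3]
  ring

end unf

section unf2

open MeasureTheory

private lemma uf_pos {L : Lat} {v w : ℝ} (h0 : ∀ p, L.fst p + v ≠ 0 ∨ L.snd p + w ≠ 0)
    (p : ℤ × ℤ) : 0 < (L.fst p + v) ^ 2 + (L.snd p + w) ^ 2 := by
  rcases h0 p with h | h
  · have h1 := pow_pos (abs_pos.2 h) 2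
    rw [sq_abs] at h1
    have h2 := sq_nonneg (L.snd p + w)
    linarith
  · have h1 := pow_pos (abs_pos.2 h) 2
    rw [sq_abs] at h1
    have h2 := sq_nonneg (L.fst p + v)
    linarith

/-- the sum over `p` for a fixed `t` -/
private lemma uf_tsum (L : Lat) {v w : ℝ} {j : ℕ} (hj : j ≤ 1) {U : ℝ} (hU : 1 < U) {r : ℂ}
    {t : ℝ} (ht : 0 < t) :
    ∑' p : ℤ × ℤ, ∫ u in Ioc (1 : ℝ) U, uF j (L.fst p + v) (L.snd p + w) r (t, u) =
      (t : ℂ) ^ (r - 1) • L.Phi j v w U t := by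
  have hU0 : 0 < U := by linarith
  have hfin : (volume.restrict (Ioc (1 : ℝ) U)) univ < ⊤ := by
    rw [Measure.restrict_apply_univ, Real.volume_Ioc]
    exact ENNReal.ofReal_lt_top
  have hle : ∀ p : ℤ × ℤ, ∀ᵐ u ∂(volume.restrict (Ioc (1 : ℝ) U)),
      ‖uF j (L.fst p + v) (L.snd p + w) r (t, u)‖ ≤
        uG j (L.fst p + v) (L.snd p + w) U r t := by
    intro p
    rw [ae_restrict_iff' measurableSet_Ioc]
    exact Filter.Eventually.of_forall fun u hu => uF_le hU ht hu.1.le hu.2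
  have hmeas : ∀ p : ℤ × ℤ, AEStronglyMeasurable
      (fun u : ℝ => uF j (L.fst p + v) (L.snd p + w) r (t, u))
      (volume.restrict (Ioc (1 : ℝ) U)) := fun p =>
    (uF_measurable.comp (measurable_const.prodMk measurable_id)).aestronglyMeasurable
  have hint : ∀ p : ℤ × ℤ, Integrable (fun u : ℝ => uF j (L.fst p + v) (L.snd p + w) r (t, u))
      (volume.restrict (Ioc (1 : ℝ) U)) := fun p =>
    Integrable.mono' (integrable_const (uG j (L.fst p + v) (L.snd p + w) U r t)) (hmeas p) (hle p)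
  have hsumG : Summable fun p : ℤ × ℤ =>
      (U - 1) * uG j (L.fst p + v) (L.snd p + w) U r t := by
    have h1 := (L.summable_gauss v w hj (c := Real.pi / U * t) (by
      have := Real.pi_pos
      positivity)).mul_left ((U - 1) * t ^ (r.re - 1))
    refine h1.congr fun p => ?_
    unfold uG
    have h2 : -(Real.pi / U * t) * ((L.fst p + v) ^ 2 + (L.snd p + w) ^ 2) =
      -(Real.pi * ((L.fst p + v) ^ 2 + (L.snd p + w) ^ 2) / U * t) := by ring
    rw [h2]
    ring
  have hsum : Summable fun p : ℤ × ℤ =>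
      ∫ u in Ioc (1 : ℝ) U, ‖uF j (L.fst p + v) (L.snd p + w) r (t, u)‖ := by
    refine Summable.of_nonneg_of_le (fun p => integral_nonneg fun u => norm_nonneg _) (fun p => ?_)
      hsumG
    calc ∫ u in Ioc (1 : ℝ) U, ‖uF j (L.fst p + v) (L.snd p + w) r (t, u)‖
        ≤ ∫ _ in Ioc (1 : ℝ) U, uG j (L.fst p + v) (L.snd p + w) U r t :=
          integral_mono_ae (hint p).norm (integrable_const _) (hle p)
      _ = (U - 1) * uG j (L.fst p + v) (L.snd p + w) U r t := by
          rw [setIntegral_const, Real.volume_real_Ioc_of_le hU.le, smul_eq_mul]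
  rw [integral_tsum_of_summable_integral_norm hint hsum]
  unfold Lat.Phi
  rw [intervalIntegral.integral_of_le hU.le, smul_eq_mul, ← MeasureTheory.integral_const_mul]
  refine integral_congr_ae (Filter.Eventually.of_forall fun u => ?_)
  simp only
  unfold uF Lat.thA
  simp only
  rw [tsum_mul_left, tsum_mul_right]

end unf2

theorem Lat.hasSum_mellin (L : Lat) {v w : ℝ} (h0 : ∀ p, L.fst p + v ≠ 0 ∨ L.snd p + w ≠ 0)
    {j : ℕ} (hj : j ≤ 1) {U : ℝ} (hU : 1 < U) {s : ℂ} (hs : 1 < s.re) :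
    HasSum (fun p : ℤ × ℤ => ∫ u in (1 : ℝ)..U, fJ j (L.fst p + v) (L.snd p + w) s u)
      (mellin (L.Phi j v w U) (s + (j : ℂ) / 2) * (Real.pi : ℂ) ^ (s + (j : ℂ) / 2) /
        Complex.Gamma (s + (j : ℂ) / 2)) := by
  open MeasureTheory in
  have hU0 : 0 < U := by linarith
  have hUm : 0 < U - 1 := by linarith
  have hpi := Real.pi_pos
  set r : ℂ := s + (j : ℂ) / 2 with hr
  have hrre : r.re = s.re + (j : ℝ) / 2 := by
    rw [hr, Complex.add_re]
    congr 1
    rw [show (j : ℂ) / 2 = (((j : ℝ) / 2 : ℝ) : ℂ) by push_cast; ring, Complex.ofReal_re]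
  have hr0 : 0 < r.re := by
    rw [hrre]
    have : (0 : ℝ) ≤ j := Nat.cast_nonneg j
    linarith
  have hQ := uf_pos h0
  have hInt := fun p : ℤ × ℤ => uF_integrable (j := j) hr0 hU (hQ p)
  -- the terms
  have hterm : ∀ p : ℤ × ℤ,
      ∫ t in Ioi (0 : ℝ), ∫ u in Ioc (1 : ℝ) U, uF j (L.fst p + v) (L.snd p + w) r (t, u) =
        ((Real.pi : ℂ) ^ (-r) * Complex.Gamma r) *
          ∫ u in (1 : ℝ)..U, fJ j (L.fst p + v) (L.snd p + w) s u := by
    intro p
    rw [← MeasureTheory.integral_prod _ (hInt p), MeasureTheory.integral_prod_symm _ (hInt p),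
      intervalIntegral.integral_of_le hU.le, ← MeasureTheory.integral_const_mul]
    refine MeasureTheory.setIntegral_congr_fun measurableSet_Ioc fun u hu => ?_
    have hu0 : 0 < u := by linarith [hu.1]
    exact uF_t hr0 (hQ p) hu0
  have hnorm : ∀ (p : ℤ × ℤ) (t : ℝ), 0 < t →
      ‖∫ u in Ioc (1 : ℝ) U, uF j (L.fst p + v) (L.snd p + w) r (t, u)‖ ≤
        (U - 1) * uG j (L.fst p + v) (L.snd p + w) U r t := by
    intro p t ht
    have h1 := MeasureTheory.norm_setIntegral_le_of_norm_le_const (μ := MeasureTheory.volume)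
      (s := Ioc (1 : ℝ) U) (by
        rw [Real.volume_Ioc]
        exact ENNReal.ofReal_lt_top)
      (f := fun u => uF j (L.fst p + v) (L.snd p + w) r (t, u))
      (C := uG j (L.fst p + v) (L.snd p + w) U r t)
      (fun u hu => uF_le hU ht hu.1.le hu.2)
    rw [Real.volume_real_Ioc_of_le hU.le] at h1
    linarith
  have hsum : Summable fun p : ℤ × ℤ => ∫ t in Ioi (0 : ℝ),
      ‖∫ u in Ioc (1 : ℝ) U, uF j (L.fst p + v) (L.snd p + w) r (t, u)‖ := by
    have h1 := (L.summable_rpow (v := v) (w := w) hs).mul_left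
      ((U - 1) * ((1 / (Real.pi / U)) ^ r.re * Real.Gamma r.re))
    refine Summable.of_nonneg_of_le (fun p => MeasureTheory.integral_nonneg fun t => norm_nonneg _)
      (fun p => ?_) h1
    have hGi := uG_integrable (j := j) (α := L.fst p + v) (β := L.snd p + w) hr0 hU0 (hQ p)
    calc ∫ t in Ioi (0 : ℝ),
          ‖∫ u in Ioc (1 : ℝ) U, uF j (L.fst p + v) (L.snd p + w) r (t, u)‖
        ≤ ∫ t in Ioi (0 : ℝ), (U - 1) * uG j (L.fst p + v) (L.snd p + w) U r t := by
          refine MeasureTheory.setIntegral_mono_on (hInt p).integral_prod_left.norm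
            (hGi.const_mul _) measurableSet_Ioi fun t ht => hnorm p t ht
      _ = (U - 1) * (|L.snd p + w| ^ j * ((1 / (Real.pi *
            ((L.fst p + v) ^ 2 + (L.snd p + w) ^ 2) / U)) ^ r.re * Real.Gamma r.re)) := by
          rw [MeasureTheory.integral_const_mul, uG_integral hr0 hU0 (hQ p)]
      _ ≤ _ := by
          set Q := (L.fst p + v) ^ 2 + (L.snd p + w) ^ 2 with hQd
          have hQ0 : 0 < Q := hQ p
          have h2 : (1 / (Real.pi * Q / U)) ^ r.re = (1 / (Real.pi / U)) ^ r.re * Q ^ (-r.re) := by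
            rw [show 1 / (Real.pi * Q / U) = (1 / (Real.pi / U)) * Q⁻¹ by
              field_simp, Real.mul_rpow (by positivity) (by positivity), Real.inv_rpow hQ0.le,
              Real.rpow_neg hQ0.le]
          have h3 : |L.snd p + w| ^ j ≤ Q ^ ((j : ℝ) / 2) := by
            have h4 : |L.snd p + w| ≤ Q ^ ((1 : ℝ) / 2) := by
              rw [← Real.sqrt_eq_rpow]
              apply Real.abs_le_sqrt
              rw [hQd]
              have := sq_nonneg (L.fst p + v)
              linarith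
            calc |L.snd p + w| ^ j ≤ (Q ^ ((1 : ℝ) / 2)) ^ j :=
                  pow_le_pow_left₀ (abs_nonneg _) h4 j
              _ = Q ^ ((j : ℝ) / 2) := by
                  rw [← Real.rpow_natCast, ← Real.rpow_mul hQ0.le]
                  congr 1
                  ring
          have h5 : Q ^ ((j : ℝ) / 2) * Q ^ (-r.re) = Q ^ (-s.re) := by
            rw [← Real.rpow_add hQ0]
            congr 1
            rw [hrre]
            ring
          have h6 := Real.Gamma_pos_of_pos hr0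
          have h7 : 0 ≤ Q ^ (-r.re) := by positivity
          rw [h2, ← h5]
          calc (U - 1) * (|L.snd p + w| ^ j * ((1 / (Real.pi / U)) ^ r.re * Q ^ (-r.re) *
                Real.Gamma r.re))
              ≤ (U - 1) * (Q ^ ((j : ℝ) / 2) * ((1 / (Real.pi / U)) ^ r.re * Q ^ (-r.re) *
                Real.Gamma r.re)) := by gcongr
            _ = _ := by ring
  have key := MeasureTheory.hasSum_integral_of_summable_integral_norm
    (fun p : ℤ × ℤ => (hInt p).integral_prod_left) hsum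
  have hmel : ∫ t in Ioi (0 : ℝ), ∑' p : ℤ × ℤ, ∫ u in Ioc (1 : ℝ) U,
      uF j (L.fst p + v) (L.snd p + w) r (t, u) = mellin (L.Phi j v w U) r := by
    unfold mellin
    refine MeasureTheory.setIntegral_congr_fun measurableSet_Ioi fun t ht => ?_
    exact uf_tsum L hj hU ht
  rw [hmel] at key
  simp only [hterm] at key
  have hpi0 : (Real.pi : ℂ) ≠ 0 := Complex.ofReal_ne_zero.2 hpi.ne'
  have hG0 : Complex.Gamma r ≠ 0 := Complex.Gamma_ne_zero_of_re_pos hr0
  have hp0 : (Real.pi : ℂ) ^ r ≠ 0 := by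
    rw [Complex.cpow_def_of_ne_zero hpi0]
    exact Complex.exp_ne_zero _
  have h8 := key.mul_left ((Real.pi : ℂ) ^ r / Complex.Gamma r)
  have h9 : (fun p : ℤ × ℤ => (Real.pi : ℂ) ^ r / Complex.Gamma r *
      (((Real.pi : ℂ) ^ (-r) * Complex.Gamma r) *
        ∫ u in (1 : ℝ)..U, fJ j (L.fst p + v) (L.snd p + w) s u)) =
      fun p : ℤ × ℤ => ∫ u in (1 : ℝ)..U, fJ j (L.fst p + v) (L.snd p + w) s u := by
    funext p
    rw [Complex.cpow_neg]
    field_simp
  rw [h9] at h8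
  have h10 : (Real.pi : ℂ) ^ r / Complex.Gamma r * mellin (L.Phi j v w U) r =
      mellin (L.Phi j v w U) r * (Real.pi : ℂ) ^ r / Complex.Gamma r := by ring
  rw [h10] at h8
  exact h8

end Pool.Agent.HeckeRQ
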