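import Mathlib

/-!
# HQ09a: the norm in a quadratic field with two real embeddings

`K` has degree 2, so it has two complex embeddings (`NumberField.Embeddings.card`), these are the two real ones
(`ι₁ ≠ ι₂`; compose with `Complex.ofRealHom`); `Algebra.norm_eq_prod_embeddings` (over `ℚ`, in `ℂ`),
`Ideal.absNorm_span_singleton`, `Algebra.coe_norm_int`.
-/

set_option autoImplicit false

noncomputable section

open NumberField Module

namespace Pool.Agent.HeckeRQ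

variable {K : Type} [Field K] [NumberField K]

theorem norm_eq (hK : finrank ℚ K = 2) {ι₁ ι₂ : K →+* ℝ} (hι : ι₁ ≠ ι₂) (α : 𝓞 K) :
    ((Ideal.absNorm (Ideal.span {α}) : ℕ) : ℝ) = |ι₁ (α : K) * ι₂ (α : K)| := by
  classical
  let e : (K →+* ℂ) ≃ (K →ₐ[ℚ] ℂ) := RingHom.equivRatAlgHom K ℂ
  let j₁ : K →ₐ[ℚ] ℂ := e (Complex.ofRealHom.comp ι₁)
  let j₂ : K →ₐ[ℚ] ℂ := e (Complex.ofRealHom.comp ι₂)
  have hj₁ : ∀ x : K, j₁ x = ((ι₁ x : ℝ) : ℂ) := fun x => rfl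
  have hj₂ : ∀ x : K, j₂ x = ((ι₂ x : ℝ) : ℂ) := fun x => rfl
  have hne : j₁ ≠ j₂ := by
    intro h
    apply hι
    ext x
    have h1 : j₁ x = j₂ x := by rw [h]
    rw [hj₁, hj₂] at h1
    exact_mod_cast h1
  have hcard : Fintype.card (K →ₐ[ℚ] ℂ) = 2 := by
    rw [AlgHom.card ℚ K ℂ, hK]
  have huniv : (Finset.univ : Finset (K →ₐ[ℚ] ℂ)) = {j₁, j₂} := by
    symm
    apply Finset.eq_univ_of_card
    rw [hcard, Finset.card_pair hne]
  have hn := Algebra.norm_eq_prod_embeddings ℚ ℂ (α : K)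
  rw [huniv, Finset.prod_pair hne, hj₁, hj₂, ← Algebra.coe_norm_int] at hn
  have hn' : ((Algebra.norm ℤ α : ℤ) : ℝ) = ι₁ (α : K) * ι₂ (α : K) := by
    have h2 : (((Algebra.norm ℤ α : ℤ) : ℝ) : ℂ) = ((ι₁ (α : K) * ι₂ (α : K) : ℝ) : ℂ) := by
      rw [Complex.ofReal_mul, ← hn]
      simp
    exact_mod_cast h2
  rw [Ideal.absNorm_span_singleton, ← hn', ← Int.cast_abs, Int.abs_eq_natAbs]
  simp

end Pool.Agent.HeckeRQ
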