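import Pool.Agent.HeckeRQ.Defs
import Pool.Agent.HeckeRQ.Bounds

/-!
# HQ01: the theta inversion formula in two variables

Put `A = x a₁² + y b₁²`, `B = x a₁ a₂ + y b₁ b₂`, `C = x a₂² + y b₂²`, so
`x (fst p)² + y (snd p)² = A m² + 2 B m n + C n²` and `A C - B² = x y det²`. With the shift:
`x (fst p + v)² + y (snd p + w)² = A m² + 2 B m n + C n² + 2 (β₁ m + β₂ n) + (x v² + y w²)`,
`β₁ = x a₁ v + y b₁ w`, `β₂ = x a₂ v + y b₂ w`. Sum over `m` for fixed `n` first
(`Complex.tsum_exp_neg_quadratic` with `a = A`, `b = -(B n + β₁)`), then, for fixed dual variable `k`, over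
`n` (again `Complex.tsum_exp_neg_quadratic`, now with `a = (A C - B²)/A` and complex `b`). All double
series are absolutely convergent.
-/

set_option autoImplicit false

noncomputable section

open Set

namespace Pool.Agent.HeckeRQ

open Complex in
private lemma poi_gauss {a : ℝ} (ha : 0 < a) (b : ℝ) :
    Summable fun n : ℤ => Real.exp (-Real.pi * a * n ^ 2 + 2 * Real.pi * b * n) := by
  have h := (summable_jacobiTheta₂_term_iff (-I * b) (I * a)).2 (by simpa using ha)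
  refine h.norm.congr fun n => ?_
  rw [norm_jacobiTheta₂_term]
  congr 1
  simp
  ring

open Complex in
private lemma poi_sqrt {a : ℝ} (ha : 0 < a) : (a : ℂ) ^ (1 / 2 : ℂ) = ((Real.sqrt a : ℝ) : ℂ) := by
  rw [Real.sqrt_eq_rpow, ofReal_cpow ha.le]
  push_cast
  rfl

open Complex in
/-- the intermediate series is absolutely summable -/
private lemma poi_mid {A B C b₁ b₂ : ℝ} (hA : 0 < A) (hΔ : 0 < A * C - B ^ 2) :
    Summable fun q : ℤ × ℤ => cexp (-Real.pi * C * q.1 ^ 2 + 2 * Real.pi * b₂ * q.1 +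
      -Real.pi / A * ((q.2 : ℂ) + I * (b₁ - B * q.1)) ^ 2) := by
  have h1 : Summable fun n : ℤ => Real.exp (-Real.pi * ((A * C - B ^ 2) / A) * n ^ 2 +
      2 * Real.pi * (b₂ - b₁ * B / A) * n) := poi_gauss (div_pos hΔ hA) _
  have h2 : Summable fun k : ℤ => Real.exp (-Real.pi * (1 / A) * k ^ 2 + 2 * Real.pi * 0 * k) :=
    poi_gauss (one_div_pos.2 hA) 0
  have h3 := (h1.mul_of_nonneg h2 (fun _ => (Real.exp_pos _).le) fun _ =>
    (Real.exp_pos _).le).mul_left (Real.exp (Real.pi * b₁ ^ 2 / A))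
  refine Summable.of_norm (h3.congr fun q => ?_)
  rw [Complex.norm_exp, ← Real.exp_add, ← Real.exp_add]
  congr 1
  have e1 : -(Real.pi : ℂ) * C * q.1 ^ 2 + 2 * Real.pi * b₂ * q.1 +
      -Real.pi / A * ((q.2 : ℂ) + I * (b₁ - B * q.1)) ^ 2 =
      ((-Real.pi * C * q.1 ^ 2 + 2 * Real.pi * b₂ * q.1 +
        -Real.pi / A * ((q.2 : ℝ) ^ 2 - (b₁ - B * q.1) ^ 2) : ℝ) : ℂ) +
      ((-Real.pi / A * (2 * q.2 * (b₁ - B * q.1)) : ℝ) : ℂ) * I := by
    push_cast
    linear_combination (-(Real.pi : ℂ) / A * (b₁ - B * q.1) ^ 2) * I_sq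
  rw [e1, add_re, ofReal_re, mul_I_re, ofReal_im, neg_zero, add_zero]
  field_simp
  ring

open Complex in
private lemma poi {A B C b₁ b₂ : ℝ} (hA : 0 < A) (hΔ : 0 < A * C - B ^ 2)
    (hL : Summable fun p : ℤ × ℤ => cexp (-Real.pi * (A * p.1 ^ 2 + 2 * B * p.1 * p.2 +
      C * p.2 ^ 2) + 2 * Real.pi * (b₁ * p.1 + b₂ * p.2)))
    (hR : Summable fun p : ℤ × ℤ => cexp (-Real.pi / (A * C - B ^ 2) *
      (C * (p.1 + I * b₁) ^ 2 - 2 * B * (p.1 + I * b₁) * (p.2 + I * b₂) +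
        A * (p.2 + I * b₂) ^ 2))) :
    (∑' p : ℤ × ℤ, cexp (-Real.pi * (A * p.1 ^ 2 + 2 * B * p.1 * p.2 +
      C * p.2 ^ 2) + 2 * Real.pi * (b₁ * p.1 + b₂ * p.2))) =
    ((1 / Real.sqrt (A * C - B ^ 2) : ℝ) : ℂ) * ∑' p : ℤ × ℤ, cexp (-Real.pi / (A * C - B ^ 2) *
      (C * (p.1 + I * b₁) ^ 2 - 2 * B * (p.1 + I * b₁) * (p.2 + I * b₂) +
        A * (p.2 + I * b₂) ^ 2)) := by
  have hA' : (A : ℂ) ≠ 0 := ofReal_ne_zero.2 hA.ne'
  have hΔ' : (A : ℂ) * C - B ^ 2 ≠ 0 := by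
    have : ((A * C - B ^ 2 : ℝ) : ℂ) ≠ 0 := ofReal_ne_zero.2 hΔ.ne'
    push_cast at this
    exact this
  have hmid := poi_mid (b₁ := b₁) (b₂ := b₂) hA hΔ
  -- first summation
  have s1 : ∀ n : ℤ, (∑' m : ℤ, cexp (-Real.pi * (A * m ^ 2 + 2 * B * m * n + C * n ^ 2) +
      2 * Real.pi * (b₁ * m + b₂ * n))) =
      ((1 / Real.sqrt A : ℝ) : ℂ) * ∑' k : ℤ, cexp (-Real.pi * C * n ^ 2 +
        2 * Real.pi * b₂ * n + -Real.pi / A * ((k : ℂ) + I * (b₁ - B * n)) ^ 2) := by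
    intro n
    have h1 : ∀ m : ℤ, cexp (-Real.pi * (A * m ^ 2 + 2 * B * m * n + C * n ^ 2) +
        2 * Real.pi * (b₁ * m + b₂ * n)) = cexp (-Real.pi * C * n ^ 2 + 2 * Real.pi * b₂ * n) *
        cexp (-Real.pi * A * m ^ 2 + 2 * Real.pi * (b₁ - B * n) * m) := by
      intro m
      rw [← Complex.exp_add]
      congr 1
      ring
    have h2 : ∀ k : ℤ, cexp (-Real.pi * C * n ^ 2 + 2 * Real.pi * b₂ * n +
        -Real.pi / A * ((k : ℂ) + I * (b₁ - B * n)) ^ 2) =
        cexp (-Real.pi * C * n ^ 2 + 2 * Real.pi * b₂ * n) *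
        cexp (-Real.pi / A * ((k : ℂ) + I * (b₁ - B * n)) ^ 2) := by
      intro k
      rw [← Complex.exp_add]
    simp only [h1, h2]
    rw [tsum_mul_left, tsum_mul_left, Complex.tsum_exp_neg_quadratic (by simpa using hA),
      poi_sqrt hA]
    push_cast
    ring
  -- second summation
  have s2 : ∀ k : ℤ, (∑' n : ℤ, cexp (-Real.pi * C * n ^ 2 +
        2 * Real.pi * b₂ * n + -Real.pi / A * ((k : ℂ) + I * (b₁ - B * n)) ^ 2)) =
      ((1 / Real.sqrt ((A * C - B ^ 2) / A) : ℝ) : ℂ) * ∑' l : ℤ,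
        cexp (-Real.pi / (A * C - B ^ 2) *
      (C * (k + I * b₁) ^ 2 - 2 * B * (k + I * b₁) * (l + I * b₂) +
        A * (l + I * b₂) ^ 2)) := by
    intro k
    have h1 : ∀ n : ℤ, cexp (-Real.pi * C * n ^ 2 +
        2 * Real.pi * b₂ * n + -Real.pi / A * ((k : ℂ) + I * (b₁ - B * n)) ^ 2) =
        cexp (-Real.pi / A * (k + I * b₁) ^ 2) *
        cexp (-Real.pi * (((A * C - B ^ 2) / A : ℝ) : ℂ) * n ^ 2 +
          2 * Real.pi * (b₂ + I * (B / A) * (k + I * b₁)) * n) := by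
      intro n
      rw [← Complex.exp_add]
      congr 1
      push_cast
      field_simp
      linear_combination (-(B : ℂ) ^ 2 * n ^ 2 + 2 * B * n * b₁ - 2 * B * n * b₁) * I_sq
    have h2 : ∀ l : ℤ, cexp (-Real.pi / (A * C - B ^ 2) *
      (C * (k + I * b₁) ^ 2 - 2 * B * (k + I * b₁) * (l + I * b₂) +
        A * (l + I * b₂) ^ 2)) = cexp (-Real.pi / A * (k + I * b₁) ^ 2) *
        cexp (-Real.pi / (((A * C - B ^ 2) / A : ℝ) : ℂ) *
          (l + I * (b₂ + I * (B / A) * (k + I * b₁))) ^ 2) := by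
      intro l
      rw [← Complex.exp_add]
      congr 1
      have e1 : (l : ℂ) + I * (b₂ + I * (B / A) * (k + I * b₁)) =
          (l + I * b₂) - (B / A) * (k + I * b₁) := by
        linear_combination ((B : ℂ) / A * (k + I * b₁)) * I_sq
      rw [e1]
      generalize (k : ℂ) + I * b₁ = z
      generalize (l : ℂ) + I * b₂ = z'
      push_cast
      field_simp
      ring
    simp only [h1, h2]
    rw [tsum_mul_left, tsum_mul_left, Complex.tsum_exp_neg_quadratic
      (by rw [ofReal_re]; exact div_pos hΔ hA), poi_sqrt (div_pos hΔ hA)]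
    push_cast
    ring
  rw [hL.tsum_prod, hR.tsum_prod]
  have hswap : (∑' (m : ℤ) (n : ℤ), cexp (-Real.pi * (A * m ^ 2 + 2 * B * m * n +
      C * n ^ 2) + 2 * Real.pi * (b₁ * m + b₂ * n))) = ∑' (n : ℤ) (m : ℤ),
      cexp (-Real.pi * (A * m ^ 2 + 2 * B * m * n + C * n ^ 2) +
        2 * Real.pi * (b₁ * m + b₂ * n)) :=
    (Summable.tsum_comm (f := fun (m n : ℤ) => cexp (-Real.pi * (A * m ^ 2 + 2 * B * m * n +
      C * n ^ 2) + 2 * Real.pi * (b₁ * m + b₂ * n))) hL).symm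
  rw [hswap]
  simp only [s1]
  rw [tsum_mul_left]
  rw [Summable.tsum_comm (f := fun (k n : ℤ) => cexp (-Real.pi * C * n ^ 2 +
        2 * Real.pi * b₂ * n + -Real.pi / A * ((k : ℂ) + I * (b₁ - B * n)) ^ 2)) ?_]
  · simp only [s2]
    rw [tsum_mul_left, ← mul_assoc]
    congr 1
    rw [← ofReal_mul]
    congr 1
    rw [Real.sqrt_div hΔ.le]
    have : Real.sqrt A ≠ 0 := (Real.sqrt_pos.2 hA).ne'
    have : Real.sqrt (A * C - B ^ 2) ≠ 0 := (Real.sqrt_pos.2 hΔ).ne'
    field_simp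
  · exact hmid.prod_symm

theorem Lat.thA_zero (L : Lat) (v w : ℝ) {x y : ℝ} (hx : 0 < x) (hy : 0 < y) :
    L.thA 0 v w x y =
      ((1 / (|L.det| * Real.sqrt x * Real.sqrt y) : ℝ) : ℂ) * L.dual.thB 0 v w (1 / x) (1 / y) := by
  have hdet := L.det_ne'
  have hdet2 : 0 < L.det ^ 2 := by positivity
  -- the quadratic form
  set A : ℝ := x * L.a₁ ^ 2 + y * L.b₁ ^ 2 with hA
  set B : ℝ := x * L.a₁ * L.a₂ + y * L.b₁ * L.b₂ with hB
  set C : ℝ := x * L.a₂ ^ 2 + y * L.b₂ ^ 2 with hC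
  set c₁ : ℝ := -(x * L.a₁ * v + y * L.b₁ * w) with hc₁
  set c₂ : ℝ := -(x * L.a₂ * v + y * L.b₂ * w) with hc₂
  have hdisc : A * C - B ^ 2 = x * y * L.det ^ 2 := by
    rw [hA, hB, hC]
    unfold Lat.det
    ring
  have hΔ : 0 < A * C - B ^ 2 := by
    rw [hdisc]
    positivity
  have hA0 : 0 < A := by
    have h1 : 0 ≤ A := by positivity
    rcases h1.lt_or_eq with h | h
    · exact h
    · exfalso
      rw [← h] at hΔ
      nlinarith [sq_nonneg B]
  -- the terms of the left side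
  have eL : ∀ p : ℤ × ℤ, (((L.snd p + w) ^ 0 *
      Real.exp (-Real.pi * (x * (L.fst p + v) ^ 2 + y * (L.snd p + w) ^ 2)) : ℝ) : ℂ) =
      Complex.exp (((-Real.pi * (x * v ^ 2 + y * w ^ 2) : ℝ) : ℂ)) *
      Complex.exp (-Real.pi * (A * p.1 ^ 2 + 2 * B * p.1 * p.2 +
      C * p.2 ^ 2) + 2 * Real.pi * (c₁ * p.1 + c₂ * p.2)) := by
    intro p
    rw [pow_zero, one_mul, Complex.ofReal_exp, ← Complex.exp_add]
    congr 1
    rw [hA, hB, hC, hc₁, hc₂]
    unfold Lat.fst Lat.snd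
    push_cast
    ring
  -- the terms of the right side
  have eR : ∀ p : ℤ × ℤ, Complex.exp (2 * Real.pi * Complex.I *
        ((L.dual.fst p * v + L.dual.snd p * w : ℝ) : ℂ)) *
      ((L.dual.snd p ^ 0 * Real.exp (-Real.pi * (1 / x * L.dual.fst p ^ 2 +
        1 / y * L.dual.snd p ^ 2)) : ℝ) : ℂ) =
      Complex.exp (((-Real.pi * (x * v ^ 2 + y * w ^ 2) : ℝ) : ℂ)) *
      Complex.exp (-Real.pi / (A * C - B ^ 2) *
      (C * (p.1 + Complex.I * c₁) ^ 2 - 2 * B * (p.1 + Complex.I * c₁) * (p.2 + Complex.I * c₂) +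
        A * (p.2 + Complex.I * c₂) ^ 2)) := by
    intro p
    have hdC : (L.det : ℂ) ≠ 0 := Complex.ofReal_ne_zero.2 hdet
    have hxC : (x : ℂ) ≠ 0 := Complex.ofReal_ne_zero.2 hx.ne'
    have hyC : (y : ℂ) ≠ 0 := Complex.ofReal_ne_zero.2 hy.ne'
    have e1 : (C * (p.1 + Complex.I * c₁) ^ 2 -
        2 * B * (p.1 + Complex.I * c₁) * (p.2 + Complex.I * c₂) +
        A * (p.2 + Complex.I * c₂) ^ 2 : ℂ) =
        x * (L.det * (L.dual.snd p - Complex.I * y * w)) ^ 2 +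
        y * (L.det * (L.dual.fst p - Complex.I * x * v)) ^ 2 := by
      have d1 : (L.det : ℂ) * (L.dual.snd p) = L.a₁ * p.2 - L.a₂ * p.1 := by
        have : L.det * L.dual.snd p = L.a₁ * p.2 - L.a₂ * p.1 := by
          unfold Lat.snd Lat.dual
          simp only
          field_simp
          ring
        exact_mod_cast congrArg (fun t : ℝ => (t : ℂ)) this
      have d2 : (L.det : ℂ) * (L.dual.fst p) = L.b₂ * p.1 - L.b₁ * p.2 := by
        have : L.det * L.dual.fst p = L.b₂ * p.1 - L.b₁ * p.2 := by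
          unfold Lat.fst Lat.dual
          simp only
          field_simp
          ring
        exact_mod_cast congrArg (fun t : ℝ => (t : ℂ)) this
      have d3 : (L.det : ℂ) = L.a₁ * L.b₂ - L.a₂ * L.b₁ := by
        unfold Lat.det
        push_cast
        ring
      rw [mul_sub, mul_sub, d1, d2, d3, hA, hB, hC, hc₁, hc₂]
      push_cast
      ring
    rw [e1, pow_zero, one_mul, Complex.ofReal_exp, ← Complex.exp_add, ← Complex.exp_add]
    congr 1
    have e2 : (A * C - B ^ 2 : ℂ) = x * y * L.det ^ 2 := by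
      have := congrArg (fun t : ℝ => (t : ℂ)) hdisc
      push_cast at this
      exact this
    rw [e2]
    push_cast
    field_simp
    generalize (L.dual.snd p : ℂ) = μ'
    generalize (L.dual.fst p : ℂ) = μ
    ring_nf
    rw [Complex.I_sq]
    ring
  -- summability
  have sL : Summable fun p : ℤ × ℤ => Complex.exp (-Real.pi * (A * p.1 ^ 2 +
      2 * B * p.1 * p.2 + C * p.2 ^ 2) + 2 * Real.pi * (c₁ * p.1 + c₂ * p.2)) := by
    have hm : 0 < min x y := lt_min hx hy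
    have h1 := L.summable_gauss v w (Nat.zero_le 1) (mul_pos Real.pi_pos hm)
    have h2 : Summable fun p : ℤ × ℤ => (((L.snd p + w) ^ 0 *
      Real.exp (-Real.pi * (x * (L.fst p + v) ^ 2 + y * (L.snd p + w) ^ 2)) : ℝ) : ℂ) := by
      refine Summable.of_norm_bounded h1 fun p => ?_
      rw [Complex.norm_real, pow_zero, one_mul, pow_zero, one_mul, Real.norm_eq_abs,
        abs_of_pos (Real.exp_pos _), Real.exp_le_exp]
      have h3 : min x y * (L.fst p + v) ^ 2 ≤ x * (L.fst p + v) ^ 2 :=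
        mul_le_mul_of_nonneg_right (min_le_left _ _) (sq_nonneg _)
      have h4 : min x y * (L.snd p + w) ^ 2 ≤ y * (L.snd p + w) ^ 2 :=
        mul_le_mul_of_nonneg_right (min_le_right _ _) (sq_nonneg _)
      have h5 := mul_le_mul_of_nonneg_left (add_le_add h3 h4) Real.pi_pos.le
      nlinarith [h5]
    simp only [eL] at h2
    exact (summable_mul_left_iff (Complex.exp_ne_zero _)).1 h2
  have sR : Summable fun p : ℤ × ℤ => Complex.exp (-Real.pi / (A * C - B ^ 2) *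
      (C * (p.1 + Complex.I * c₁) ^ 2 - 2 * B * (p.1 + Complex.I * c₁) * (p.2 + Complex.I * c₂) +
        A * (p.2 + Complex.I * c₂) ^ 2)) := by
    have hx' : 0 < 1 / x := one_div_pos.2 hx
    have hy' : 0 < 1 / y := one_div_pos.2 hy
    have hm : 0 < min (1 / x) (1 / y) := lt_min hx' hy'
    have h1 := L.dual.summable_gauss 0 0 (Nat.zero_le 1) (mul_pos Real.pi_pos hm)
    have h2 : Summable fun p : ℤ × ℤ => Complex.exp (2 * Real.pi * Complex.I *
        ((L.dual.fst p * v + L.dual.snd p * w : ℝ) : ℂ)) *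
      ((L.dual.snd p ^ 0 * Real.exp (-Real.pi * (1 / x * L.dual.fst p ^ 2 +
        1 / y * L.dual.snd p ^ 2)) : ℝ) : ℂ) := by
      refine Summable.of_norm_bounded h1 fun p => ?_
      have h0 : ‖Complex.exp (2 * Real.pi * Complex.I *
        ((L.dual.fst p * v + L.dual.snd p * w : ℝ) : ℂ))‖ = 1 := by
        have h6 : (2 * Real.pi * Complex.I * ((L.dual.fst p * v + L.dual.snd p * w : ℝ) : ℂ)) =
          ((2 * Real.pi * (L.dual.fst p * v + L.dual.snd p * w) : ℝ) : ℂ) * Complex.I := by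
          push_cast
          ring
        rw [h6, Complex.norm_exp_ofReal_mul_I]
      rw [norm_mul, h0, one_mul, Complex.norm_real, pow_zero, one_mul, pow_zero, one_mul,
        Real.norm_eq_abs, abs_of_pos (Real.exp_pos _), Real.exp_le_exp, add_zero, add_zero]
      have h3 : min (1 / x) (1 / y) * (L.dual.fst p) ^ 2 ≤ 1 / x * (L.dual.fst p) ^ 2 :=
        mul_le_mul_of_nonneg_right (min_le_left _ _) (sq_nonneg _)
      have h4 : min (1 / x) (1 / y) * (L.dual.snd p) ^ 2 ≤ 1 / y * (L.dual.snd p) ^ 2 :=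
        mul_le_mul_of_nonneg_right (min_le_right _ _) (sq_nonneg _)
      have h5 := mul_le_mul_of_nonneg_left (add_le_add h3 h4) Real.pi_pos.le
      nlinarith [h5]
    simp only [eR] at h2
    exact (summable_mul_left_iff (Complex.exp_ne_zero _)).1 h2
  unfold Lat.thA Lat.thB
  simp only [eL, eR]
  rw [tsum_mul_left, tsum_mul_left, poi hA0 hΔ sL sR]
  have h6 : Real.sqrt (A * C - B ^ 2) = |L.det| * Real.sqrt x * Real.sqrt y := by
    rw [hdisc, Real.sqrt_mul (by positivity), Real.sqrt_mul hx.le, Real.sqrt_sq_eq_abs]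
    ring
  rw [h6]
  ring

end Pool.Agent.HeckeRQ
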