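import Pool.Agent.HeckeRQ.Poisson

/-!
# HQ02: the theta inversion formula with the factor `β`

Differentiate `thA_zero` with respect to `w`: the derivative of the left side is
`-2 π y * thA 1 v w x y`, the one of `dual.thB 0 v w (1/x) (1/y)` is
`2 π i * dual.thB 1 v w (1/x) (1/y)` (the exponential `e(μ v + μ' w)` gives the factor `2 π i μ'`).
The series are differentiated term by term (`hasDerivAt_tsum_of_isPreconnected`).
-/

set_option autoImplicit false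

noncomputable section

open Set

namespace Pool.Agent.HeckeRQ

private theorem summable_gauss {c : ℝ} (hc : 0 < c) :
    Summable fun n : ℤ => Real.exp (-c * (n : ℝ) ^ 2) := by
  have him : 0 < (Complex.I * ((c / Real.pi : ℝ) : ℂ)).im := by
    rw [Complex.mul_im, Complex.I_re, Complex.I_im, Complex.ofReal_re, zero_mul, one_mul, zero_add]
    exact div_pos hc Real.pi_pos
  have h := ((summable_jacobiTheta₂_term_iff 0 _).mpr him).norm
  refine h.congr fun n => ?_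
  rw [norm_jacobiTheta₂_term, Complex.mul_im, Complex.I_re, Complex.I_im, Complex.ofReal_re,
    zero_mul, one_mul, zero_add, Complex.zero_im]
  congr 1
  have := Real.pi_ne_zero
  field_simp
  ring

private theorem summable_gauss2 {c : ℝ} (hc : 0 < c) (C : ℝ) :
    Summable fun p : ℤ × ℤ =>
      C * (Real.exp (-c * (p.1 : ℝ) ^ 2) * Real.exp (-c * (p.2 : ℝ) ^ 2)) :=
  (Summable.mul_of_nonneg (summable_gauss hc) (summable_gauss hc)
    (fun _ => (Real.exp_pos _).le) (fun _ => (Real.exp_pos _).le)).mul_left C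

private theorem le_exp_sq {a : ℝ} (ha : 0 < a) (t : ℝ) :
    |t| ≤ (1 + 1 / a) * Real.exp (a * t ^ 2) := by
  have h1 : 1 + a * t ^ 2 ≤ Real.exp (a * t ^ 2) := by
    have := Real.add_one_le_exp (a * t ^ 2)
    linarith
  have h2 : |t| ≤ 1 + t ^ 2 := by
    have h := sq_nonneg (|t| - 1)
    have h' : |t| ^ 2 = t ^ 2 := sq_abs t
    nlinarith
  have h3 : 0 < 1 / a := one_div_pos.mpr ha
  have h4 : 1 + t ^ 2 ≤ (1 + 1 / a) * (1 + a * t ^ 2) := by
    have h5 : (1 + 1 / a) * (1 + a * t ^ 2) = 1 + t ^ 2 + 1 / a + a * t ^ 2 := by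
      field_simp
      ring
    rw [h5]
    have := mul_nonneg ha.le (sq_nonneg t)
    linarith
  exact h2.trans (h4.trans (mul_le_mul_of_nonneg_left h1 (by linarith)))

private theorem exists_bound (L : Lat) (v W : ℝ) {x y : ℝ} (hx : 0 < x) (hy : 0 < y) :
    ∃ c C : ℝ, 0 < c ∧ ∀ w : ℝ, |w| ≤ W → ∀ p : ℤ × ℤ,
      Real.exp (-Real.pi * (x * (L.fst p + v) ^ 2 + y * (L.snd p + w) ^ 2)) ≤
        C * (Real.exp (-c * (p.1 : ℝ) ^ 2) * Real.exp (-c * (p.2 : ℝ) ^ 2)) ∧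
      |L.snd p + w| * Real.exp (-Real.pi * (x * (L.fst p + v) ^ 2 + y * (L.snd p + w) ^ 2)) ≤
        C * (Real.exp (-c * (p.1 : ℝ) ^ 2) * Real.exp (-c * (p.2 : ℝ) ^ 2)) := by
  have hpi := Real.pi_pos
  set a : ℝ := Real.pi / 2 * y with ha_def
  have ha : 0 < a := by positivity
  set K : ℝ := 1 + 2 * (L.a₁ ^ 2 + L.a₂ ^ 2 + L.b₁ ^ 2 + L.b₂ ^ 2) / L.det ^ 2 with hK_def
  have hK : 0 < K := by
    have : 0 ≤ 2 * (L.a₁ ^ 2 + L.a₂ ^ 2 + L.b₁ ^ 2 + L.b₂ ^ 2) / L.det ^ 2 := by positivity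
    linarith
  set μ : ℝ := min x y with hμ_def
  have hμ : 0 < μ := lt_min hx hy
  refine ⟨Real.pi / 2 * μ / (2 * K),
    (1 + (1 + 1 / a)) * Real.exp (Real.pi / 2 * μ * (v ^ 2 + W ^ 2)), by positivity, ?_⟩
  intro w hw p
  set s : ℝ := L.fst p + v with hs
  set t : ℝ := L.snd p + w with ht
  have hw2 : w ^ 2 ≤ W ^ 2 := by
    rw [← sq_abs w]
    exact pow_le_pow_left₀ (abs_nonneg w) hw 2
  -- the quadratic form is bounded below
  have hdet : L.det ≠ 0 := L.det_ne'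
  have hm : (p.1 : ℝ) * L.det = L.b₂ * L.fst p - L.a₂ * L.snd p := by
    unfold Lat.det Lat.fst Lat.snd
    ring
  have hn : (p.2 : ℝ) * L.det = L.a₁ * L.snd p - L.b₁ * L.fst p := by
    unfold Lat.det Lat.fst Lat.snd
    ring
  have hmn : ((p.1 : ℝ) ^ 2 + (p.2 : ℝ) ^ 2) ≤ K * (L.fst p ^ 2 + L.snd p ^ 2) := by
    have h1 : ((p.1 : ℝ) ^ 2 + (p.2 : ℝ) ^ 2) * L.det ^ 2 ≤
        2 * (L.a₁ ^ 2 + L.a₂ ^ 2 + L.b₁ ^ 2 + L.b₂ ^ 2) * (L.fst p ^ 2 + L.snd p ^ 2) := by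
      have e : ((p.1 : ℝ) ^ 2 + (p.2 : ℝ) ^ 2) * L.det ^ 2 =
          ((p.1 : ℝ) * L.det) ^ 2 + ((p.2 : ℝ) * L.det) ^ 2 := by ring
      rw [e, hm, hn]
      nlinarith [sq_nonneg (L.b₂ * L.fst p + L.a₂ * L.snd p),
        sq_nonneg (L.a₁ * L.snd p + L.b₁ * L.fst p), mul_nonneg (sq_nonneg L.a₁)
        (sq_nonneg (L.fst p)), mul_nonneg (sq_nonneg L.a₂) (sq_nonneg (L.fst p)),
        mul_nonneg (sq_nonneg L.b₁) (sq_nonneg (L.snd p)), mul_nonneg (sq_nonneg L.b₂)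
        (sq_nonneg (L.snd p))]
    have h2 : (p.1 : ℝ) ^ 2 + (p.2 : ℝ) ^ 2 ≤
        2 * (L.a₁ ^ 2 + L.a₂ ^ 2 + L.b₁ ^ 2 + L.b₂ ^ 2) / L.det ^ 2 *
          (L.fst p ^ 2 + L.snd p ^ 2) := by
      rw [div_mul_eq_mul_div, le_div_iff₀ (by positivity)]
      exact h1
    have h3 : 0 ≤ L.fst p ^ 2 + L.snd p ^ 2 := by positivity
    rw [hK_def, add_mul, one_mul]
    linarith
  have hfs : L.fst p ^ 2 + L.snd p ^ 2 ≤ 2 * (s ^ 2 + t ^ 2) + 2 * (v ^ 2 + W ^ 2) := by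
    have e1 : L.fst p = s - v := by rw [hs]; ring
    have e2 : L.snd p = t - w := by rw [ht]; ring
    rw [e1, e2]
    nlinarith [sq_nonneg (s + v), sq_nonneg (t + w)]
  have hq : μ * (s ^ 2 + t ^ 2) ≤ x * s ^ 2 + y * t ^ 2 := by
    have h1 : μ * s ^ 2 ≤ x * s ^ 2 := mul_le_mul_of_nonneg_right (min_le_left _ _) (sq_nonneg s)
    have h2 : μ * t ^ 2 ≤ y * t ^ 2 := mul_le_mul_of_nonneg_right (min_le_right _ _) (sq_nonneg t)
    linarith
  have hlow : μ * (((p.1 : ℝ) ^ 2 + (p.2 : ℝ) ^ 2) / (2 * K) - (v ^ 2 + W ^ 2)) ≤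
      x * s ^ 2 + y * t ^ 2 := by
    refine le_trans ?_ hq
    refine mul_le_mul_of_nonneg_left ?_ hμ.le
    have h1 : ((p.1 : ℝ) ^ 2 + (p.2 : ℝ) ^ 2) / (2 * K) ≤
        (L.fst p ^ 2 + L.snd p ^ 2) / 2 := by
      rw [div_le_div_iff₀ (by positivity) (by norm_num)]
      nlinarith
    linarith
  have hmain : Real.exp (-(Real.pi / 2) * (x * s ^ 2 + y * t ^ 2)) ≤
      Real.exp (Real.pi / 2 * μ * (v ^ 2 + W ^ 2)) *
        (Real.exp (-(Real.pi / 2 * μ / (2 * K)) * (p.1 : ℝ) ^ 2) *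
          Real.exp (-(Real.pi / 2 * μ / (2 * K)) * (p.2 : ℝ) ^ 2)) := by
    rw [← Real.exp_add, ← Real.exp_add]
    apply Real.exp_le_exp.mpr
    have h1 := mul_le_mul_of_nonneg_left hlow (by positivity : (0 : ℝ) ≤ Real.pi / 2)
    have h2 : Real.pi / 2 * (μ * (((p.1 : ℝ) ^ 2 + (p.2 : ℝ) ^ 2) / (2 * K) - (v ^ 2 + W ^ 2))) =
        Real.pi / 2 * μ / (2 * K) * (p.1 : ℝ) ^ 2 + Real.pi / 2 * μ / (2 * K) * (p.2 : ℝ) ^ 2 -
          Real.pi / 2 * μ * (v ^ 2 + W ^ 2) := by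
      field_simp
    rw [h2] at h1
    linarith
  have hpos : 0 ≤ x * s ^ 2 + y * t ^ 2 := by positivity
  have hE : 0 < Real.exp (-(Real.pi / 2) * (x * s ^ 2 + y * t ^ 2)) := Real.exp_pos _
  have ha1 : 0 < 1 / a := one_div_pos.mpr ha
  constructor
  · have h1 : Real.exp (-Real.pi * (x * s ^ 2 + y * t ^ 2)) ≤
        Real.exp (-(Real.pi / 2) * (x * s ^ 2 + y * t ^ 2)) := by
      apply Real.exp_le_exp.mpr
      nlinarith
    refine h1.trans (hmain.trans ?_)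
    rw [mul_assoc (1 + (1 + 1 / a))]
    exact le_mul_of_one_le_left (by positivity) (by linarith)
  · have h1 : |t| * Real.exp (-Real.pi * (x * s ^ 2 + y * t ^ 2)) ≤
        (1 + 1 / a) * Real.exp (-(Real.pi / 2) * (x * s ^ 2 + y * t ^ 2)) := by
      have h2 := mul_le_mul_of_nonneg_right (le_exp_sq ha t)
        (Real.exp_pos (-Real.pi * (x * s ^ 2 + y * t ^ 2))).le
      refine h2.trans ?_
      rw [mul_assoc, ← Real.exp_add]
      refine mul_le_mul_of_nonneg_left ?_ (by linarith)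
      apply Real.exp_le_exp.mpr
      have h3 : 0 ≤ Real.pi / 2 * (x * s ^ 2) := by positivity
      rw [ha_def]
      nlinarith
    refine h1.trans ?_
    have h2 := mul_le_mul_of_nonneg_left hmain (by linarith : (0 : ℝ) ≤ 1 + 1 / a)
    refine h2.trans ?_
    rw [mul_assoc (1 + (1 + 1 / a))]
    refine mul_le_mul_of_nonneg_right (by linarith) (by positivity)

private theorem deriv_thA (L : Lat) (v w : ℝ) {x y : ℝ} (hx : 0 < x) (hy : 0 < y) :
    HasDerivAt (fun z : ℝ => L.thA 0 v z x y)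
      (((-2 * Real.pi * y : ℝ) : ℂ) * L.thA 1 v w x y) w := by
  obtain ⟨c, C, hc, hb⟩ := exists_bound L v (|w| + 1) hx hy
  have hin : ∀ z ∈ Ioo (w - 1) (w + 1), |z| ≤ |w| + 1 := by
    intro z hz
    have h1 : |z - w| ≤ 1 := by
      rw [abs_le]
      constructor <;> linarith [hz.1, hz.2]
    have h2 := abs_add_le (z - w) w
    rw [sub_add_cancel] at h2
    linarith
  have key := hasDerivAt_tsum_of_isPreconnected
    (g := fun (p : ℤ × ℤ) (z : ℝ) =>
      (((L.snd p + z) ^ 0 *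
        Real.exp (-Real.pi * (x * (L.fst p + v) ^ 2 + y * (L.snd p + z) ^ 2)) : ℝ) : ℂ))
    (g' := fun (p : ℤ × ℤ) (z : ℝ) =>
      ((-2 * Real.pi * y : ℝ) : ℂ) * (((L.snd p + z) ^ 1 *
        Real.exp (-Real.pi * (x * (L.fst p + v) ^ 2 + y * (L.snd p + z) ^ 2)) : ℝ) : ℂ))
    (t := Ioo (w - 1) (w + 1)) (y₀ := w) (y := w)
    (summable_gauss2 hc (2 * Real.pi * y * C)) isOpen_Ioo isPreconnected_Ioo
    ?_ ?_ ⟨by linarith, by linarith⟩ ?_ ⟨by linarith, by linarith⟩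
  · rw [tsum_mul_left] at key
    exact key
  · intro p z _
    have h1 : HasDerivAt (fun z : ℝ => -Real.pi * (x * (L.fst p + v) ^ 2 + y * (L.snd p + z) ^ 2))
        (-Real.pi * (y * (2 * (L.snd p + z)))) z := by
      have h2 : HasDerivAt (fun z : ℝ => L.snd p + z) 1 z := (hasDerivAt_id z).const_add _
      have h3 := (((h2.pow 2).const_mul y).const_add (x * (L.fst p + v) ^ 2)).const_mul
        (-Real.pi)
      simpa using h3
    have h4 := h1.exp
    have h5 := h4.ofReal_comp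
    simp only [pow_zero, one_mul, pow_one]
    refine h5.congr_deriv ?_
    push_cast
    ring
  · intro p z hz
    have h := (hb z (hin z hz) p).2
    have h1 : |(-2 * Real.pi * y : ℝ)| = 2 * Real.pi * y := by
      rw [show (-2 * Real.pi * y : ℝ) = -(2 * Real.pi * y) by ring, abs_neg,
        abs_of_pos (by positivity)]
    rw [norm_mul, Complex.norm_real, Complex.norm_real, Real.norm_eq_abs, Real.norm_eq_abs,
      h1, pow_one, abs_mul, abs_of_pos (Real.exp_pos _), mul_assoc (2 * Real.pi * y)]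
    exact mul_le_mul_of_nonneg_left h (by positivity)
  · refine Summable.of_norm_bounded (summable_gauss2 hc C) fun p => ?_
    have h := (hb w (by linarith) p).1
    rw [Complex.norm_real, Real.norm_eq_abs, pow_zero, one_mul, abs_of_pos (Real.exp_pos _)]
    exact h

private theorem deriv_thB (L : Lat) (v w : ℝ) {x y : ℝ} (hx : 0 < x) (hy : 0 < y) :
    HasDerivAt (fun z : ℝ => L.thB 0 v z x y)
      (2 * Real.pi * Complex.I * L.thB 1 v w x y) w := by
  obtain ⟨c, C, hc, hb⟩ := exists_bound L 0 0 hx hy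
  have hb' : ∀ p : ℤ × ℤ, Real.exp (-Real.pi * (x * L.fst p ^ 2 + y * L.snd p ^ 2)) ≤
      C * (Real.exp (-c * (p.1 : ℝ) ^ 2) * Real.exp (-c * (p.2 : ℝ) ^ 2)) ∧
      |L.snd p| * Real.exp (-Real.pi * (x * L.fst p ^ 2 + y * L.snd p ^ 2)) ≤
        C * (Real.exp (-c * (p.1 : ℝ) ^ 2) * Real.exp (-c * (p.2 : ℝ) ^ 2)) := by
    intro p
    have := hb 0 (by simp) p
    simpa only [add_zero] using this
  have hnorm : ∀ r : ℝ, ‖Complex.exp (2 * Real.pi * Complex.I * (r : ℂ))‖ = 1 := by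
    intro r
    rw [show 2 * (Real.pi : ℂ) * Complex.I * (r : ℂ) = ((2 * Real.pi * r : ℝ) : ℂ) * Complex.I by
      push_cast; ring]
    exact Complex.norm_exp_ofReal_mul_I _
  have key := hasDerivAt_tsum_of_isPreconnected
    (g := fun (p : ℤ × ℤ) (z : ℝ) =>
      Complex.exp (2 * Real.pi * Complex.I * ((L.fst p * v + L.snd p * z : ℝ) : ℂ)) *
        ((L.snd p ^ 0 * Real.exp (-Real.pi * (x * L.fst p ^ 2 + y * L.snd p ^ 2)) : ℝ) : ℂ))
    (g' := fun (p : ℤ × ℤ) (z : ℝ) =>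
      (2 * Real.pi * Complex.I) *
        (Complex.exp (2 * Real.pi * Complex.I * ((L.fst p * v + L.snd p * z : ℝ) : ℂ)) *
        ((L.snd p ^ 1 * Real.exp (-Real.pi * (x * L.fst p ^ 2 + y * L.snd p ^ 2)) : ℝ) : ℂ)))
    (t := Ioo (w - 1) (w + 1)) (y₀ := w) (y := w)
    (summable_gauss2 hc (2 * Real.pi * C)) isOpen_Ioo isPreconnected_Ioo
    ?_ ?_ ⟨by linarith, by linarith⟩ ?_ ⟨by linarith, by linarith⟩
  · rw [tsum_mul_left] at key
    exact key
  · intro p z _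
    have h1 : HasDerivAt (fun z : ℝ => L.fst p * v + L.snd p * z) (L.snd p) z := by
      have h2 := ((hasDerivAt_id z).const_mul (L.snd p)).const_add (L.fst p * v)
      simpa using h2
    have h3 := (h1.ofReal_comp.const_mul (2 * (Real.pi : ℂ) * Complex.I)).cexp.mul_const
      ((L.snd p ^ 0 * Real.exp (-Real.pi * (x * L.fst p ^ 2 + y * L.snd p ^ 2)) : ℝ) : ℂ)
    refine h3.congr_deriv ?_
    push_cast
    ring
  · intro p z _
    have h := (hb' p).2
    have h1 : ‖(2 * Real.pi * Complex.I : ℂ)‖ = 2 * Real.pi := by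
      rw [norm_mul, Complex.norm_I, mul_one, show (2 * (Real.pi : ℂ)) = ((2 * Real.pi : ℝ) : ℂ) by
        push_cast; ring, Complex.norm_real, Real.norm_eq_abs, abs_of_pos (by positivity)]
    rw [norm_mul, h1, norm_mul, hnorm, one_mul, Complex.norm_real, Real.norm_eq_abs,
      pow_one, abs_mul, abs_of_pos (Real.exp_pos _), mul_assoc (2 * Real.pi)]
    exact mul_le_mul_of_nonneg_left h (by positivity)
  · refine Summable.of_norm_bounded (summable_gauss2 hc C) fun p => ?_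
    have h := (hb' p).1
    rw [norm_mul, hnorm, one_mul, Complex.norm_real, Real.norm_eq_abs, pow_zero, one_mul,
      abs_of_pos (Real.exp_pos _)]
    exact h

theorem Lat.thA_one (L : Lat) (v w : ℝ) {x y : ℝ} (hx : 0 < x) (hy : 0 < y) :
    L.thA 1 v w x y =
      -Complex.I * ((1 / (|L.det| * Real.sqrt x * (y * Real.sqrt y)) : ℝ) : ℂ) *
        L.dual.thB 1 v w (1 / x) (1 / y) := by
  have h1 := deriv_thA L v w hx hy
  have h2 := (deriv_thB L.dual v w (one_div_pos.mpr hx) (one_div_pos.mpr hy)).const_mul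
    (((1 / (|L.det| * Real.sqrt x * Real.sqrt y) : ℝ) : ℂ))
  have h3 : (fun z : ℝ => L.thA 0 v z x y) = fun z : ℝ =>
      ((1 / (|L.det| * Real.sqrt x * Real.sqrt y) : ℝ) : ℂ) *
        L.dual.thB 0 v z (1 / x) (1 / y) := by
    funext z
    exact L.thA_zero v z hx hy
  rw [h3] at h1
  have h4 := h1.unique h2
  have hpi : (Real.pi : ℂ) ≠ 0 := Complex.ofReal_ne_zero.mpr Real.pi_ne_zero
  have hy' : (y : ℂ) ≠ 0 := Complex.ofReal_ne_zero.mpr hy.ne'
  have h5 : ((-2 * Real.pi * y : ℝ) : ℂ) ≠ 0 := by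
    rw [Complex.ofReal_ne_zero]
    have := Real.pi_pos
    have : 0 < 2 * Real.pi * y := by positivity
    linarith
  apply mul_left_cancel₀ h5
  rw [h4]
  have hd : ((|L.det| : ℝ) : ℂ) ≠ 0 := Complex.ofReal_ne_zero.mpr (abs_ne_zero.mpr L.det_ne')
  have hsx : ((Real.sqrt x : ℝ) : ℂ) ≠ 0 :=
    Complex.ofReal_ne_zero.mpr (Real.sqrt_pos.mpr hx).ne'
  have hsy : ((Real.sqrt y : ℝ) : ℂ) ≠ 0 :=
    Complex.ofReal_ne_zero.mpr (Real.sqrt_pos.mpr hy).ne'
  push_cast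
  field_simp

end Pool.Agent.HeckeRQ
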