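import Mathlib

/-!
# HQ18: the transfer from `G` to a subgroup of index 2

`V x = π x * π (t x t⁻¹)` for `x ∈ A`, `π : A →* C` with `C` commutative, is the transfer of `π`
(`MonoidHom.transfer`, a homomorphism `G →* C`, so it kills the commutator subgroup) evaluated at `x ∈ A`: use the
left transversal `{1, t}` or `{1, t⁻¹}` (`MonoidHom.transfer_def`, `Subgroup.IsComplement`) or
`MonoidHom.transfer_eq_prod_quotient_orbitRel_zpowers_quot`. Alternative without Mathlib's transfer: define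
`W : G → C` by `W x = π x * π (t x t⁻¹)` for `x ∈ A` and `W x = π (x t⁻¹) * π (t x)` (both `x t⁻¹`, `t x` are in
`A`) for `x ∉ A`; check `W (x y) = W x * W y` in the four cases (`C` is commutative,
`π (a b a⁻¹) = π b`): for instance for `x, y ∉ A`: `π (x y) π (t x y t⁻¹)` and
`W x W y = π (x t⁻¹) π (t x) π (y t⁻¹) π (t y)`; `(x t⁻¹) (t y) = x y` and `(t x) (y t⁻¹) = t x y t⁻¹`. For `x ∈ A`,
`y ∉ A`: `W (x y) = π (x y t⁻¹) π (t x y)` and `x y t⁻¹ = x (y t⁻¹)`, `t x y = (t x t⁻¹) (t y)`. For `x ∉ A`, `y ∈ A`: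
`x y t⁻¹ = (x t⁻¹) (t y t⁻¹)`, `t x y = (t x) y`. A homomorphism to a commutative group is `1` on the commutator
subgroup (`Abelianization.commutator_subset_ker`).
-/

set_option autoImplicit false

noncomputable section

namespace Pool.Agent.HeckeRQ

theorem transfer_two {G C : Type*} [Group G] [CommGroup C] (A : Subgroup G) (hA : A.index = 2)
    (π : A →* C) {t : G} (ht : t ∉ A) {x y : G} (hx : x ∈ A) (hy : y ∈ A)
    (hx' : t * x * t⁻¹ ∈ A) (hy' : t * y * t⁻¹ ∈ A) (h : x * y⁻¹ ∈ commutator G) :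
    π ⟨x, hx⟩ * π ⟨t * x * t⁻¹, hx'⟩ = π ⟨y, hy⟩ * π ⟨t * y * t⁻¹, hy'⟩ := by
  classical
  have hn : A.Normal := Subgroup.normal_of_index_eq_two hA
  have hmul : ∀ a b : G, a * b ∈ A ↔ (a ∈ A ↔ b ∈ A) := fun a b =>
    Subgroup.mul_mem_iff_of_index_two hA
  have ht' : t⁻¹ ∉ A := fun h' => ht (by simpa using A.inv_mem h')
  let P : G → C := fun g => if h : g ∈ A then π ⟨g, h⟩ else 1
  have hP : ∀ g (h : g ∈ A), P g = π ⟨g, h⟩ := fun g h => dif_pos h
  have hPm : ∀ a b, a ∈ A → b ∈ A → P (a * b) = P a * P b := by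
    intro a b ha hb
    rw [hP _ ha, hP _ hb, hP _ (A.mul_mem ha hb), ← map_mul]
    rfl
  have hc : ∀ a, a ∈ A → t * a * t⁻¹ ∈ A := fun a ha => hn.conj_mem a ha t
  have hr : ∀ a, a ∉ A → a * t⁻¹ ∈ A := fun a ha => (hmul a t⁻¹).2 (by simp [ha, ht'])
  have hl : ∀ a, a ∉ A → t * a ∈ A := fun a ha => (hmul t a).2 (by simp [ha, ht])
  let W : G → C := fun g => if g ∈ A then P g * P (t * g * t⁻¹) else P (g * t⁻¹) * P (t * g)
  have hW1 : ∀ g, g ∈ A → W g = P g * P (t * g * t⁻¹) := fun g h => if_pos h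
  have hW2 : ∀ g, g ∉ A → W g = P (g * t⁻¹) * P (t * g) := fun g h => if_neg h
  have hWm : ∀ a b, W (a * b) = W a * W b := by
    intro a b
    by_cases ha : a ∈ A <;> by_cases hb : b ∈ A
    · have hab : a * b ∈ A := A.mul_mem ha hb
      rw [hW1 _ hab, hW1 _ ha, hW1 _ hb, hPm a b ha hb,
        show t * (a * b) * t⁻¹ = (t * a * t⁻¹) * (t * b * t⁻¹) by group,
        hPm _ _ (hc a ha) (hc b hb)]
      exact mul_mul_mul_comm _ _ _ _
    · have hab : a * b ∉ A := fun h' => hb (((hmul a b).1 h').1 ha)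
      rw [hW2 _ hab, hW1 _ ha, hW2 _ hb,
        show a * b * t⁻¹ = a * (b * t⁻¹) by group,
        show t * (a * b) = (t * a * t⁻¹) * (t * b) by group,
        hPm _ _ ha (hr b hb), hPm _ _ (hc a ha) (hl b hb)]
      exact mul_mul_mul_comm _ _ _ _
    · have hab : a * b ∉ A := fun h' => ha (((hmul a b).1 h').2 hb)
      rw [hW2 _ hab, hW2 _ ha, hW1 _ hb,
        show a * b * t⁻¹ = (a * t⁻¹) * (t * b * t⁻¹) by group,
        show t * (a * b) = (t * a) * b by group,
        hPm _ _ (hr a ha) (hc b hb), hPm _ _ (hl a ha) hb,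
        mul_comm (P b) (P (t * b * t⁻¹))]
      exact mul_mul_mul_comm _ _ _ _
    · have hab : a * b ∈ A := (hmul a b).2 (by simp [ha, hb])
      have e1 : P (a * b) = P (a * t⁻¹) * P (t * b) := by
        rw [← hPm _ _ (hr a ha) (hl b hb)]
        congr 1
        group
      have e2 : P (t * (a * b) * t⁻¹) = P (t * a) * P (b * t⁻¹) := by
        rw [← hPm _ _ (hl a ha) (hr b hb)]
        congr 1
        group
      rw [hW1 _ hab, hW2 _ ha, hW2 _ hb, e1, e2, mul_comm (P (b * t⁻¹)) (P (t * b))]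
      exact mul_mul_mul_comm _ _ _ _
  let V : G →* C := MonoidHom.mk' W hWm
  have hk : V (x * y⁻¹) = 1 := by
    have := Abelianization.commutator_subset_ker V h
    exact this
  have hV : V x = V y := by
    rw [map_mul, map_inv, mul_inv_eq_one] at hk
    exact hk
  have h1 : V x = π ⟨x, hx⟩ * π ⟨t * x * t⁻¹, hx'⟩ := by
    change W x = _
    rw [hW1 x hx, hP x hx, hP _ hx']
  have h2 : V y = π ⟨y, hy⟩ * π ⟨t * y * t⁻¹, hy'⟩ := by
    change W y = _
    rw [hW1 y hy, hP y hy, hP _ hy']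
  rw [← h1, ← h2, hV]

end Pool.Agent.HeckeRQ
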