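import Pool.Agent.HeckeRQ.NormEq

/-!
# HQ09b: units of a real quadratic field congruent to `1` modulo `N`

Unit rank `1`
(`NumberField.Units.rank`, both infinite places are real: `finrank = r₁ + 2 r₂`, at least the two distinct
real places given by `ι₁`, `ι₂`): every unit is `ζ u₀^k`
(`NumberField.Units.exist_unique_eq_mul_prod`) with `ζ = ±1` (a root of unity has `|ι₁ ζ| = 1`, real). The
units congruent to `1` modulo `N` form a subgroup of finite index (`𝓞 K / N` is finite, its unit group is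
finite; the kernel of `Units.map`), it does not contain `-1` (`N ≥ 3` does not divide `2` in `𝓞 K`),
so it is torsion-free, embedded in the cyclic group `(units)/±1 ≅ ℤ` as a nontrivial subgroup: infinite
cyclic, generated by some `ε`. `|ι₁ ε| ≠ 1` (an element with `|ι₁ ε| = |ι₂ ε| = 1` satisfies `ι₁ ε = ±1`, so
`ε = ±1`); replace `ε` by `ε⁻¹` if necessary. `|ι₁ ε| |ι₂ ε| = 1` from `norm_eq`.
-/

set_option autoImplicit false

noncomputable section

open NumberField Module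

namespace Pool.Agent.HeckeRQ

variable {K : Type} [Field K] [NumberField K]

private theorem ug_rank (hK : finrank ℚ K = 2) {ι₁ ι₂ : K →+* ℝ} (hι : ι₁ ≠ ι₂) :
    Units.rank K = 1 := by
  classical
  have h1 := InfinitePlace.card_add_two_mul_card_eq_rank K
  rw [hK] at h1
  have h2 : 2 ≤ InfinitePlace.nrRealPlaces K := by
    rw [← InfinitePlace.card_real_embeddings]
    have hr : ∀ ι : K →+* ℝ, ComplexEmbedding.IsReal (Complex.ofRealHom.comp ι) := by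
      intro ι
      rw [ComplexEmbedding.isReal_iff]
      ext x
      simp [ComplexEmbedding.conjugate_coe_eq]
    let φ₁ : {φ : K →+* ℂ // ComplexEmbedding.IsReal φ} := ⟨_, hr ι₁⟩
    let φ₂ : {φ : K →+* ℂ // ComplexEmbedding.IsReal φ} := ⟨_, hr ι₂⟩
    have hne : φ₁ ≠ φ₂ := by
      intro h
      apply hι
      ext x
      have h3 := congrArg (fun φ : {φ : K →+* ℂ // ComplexEmbedding.IsReal φ} => φ.1 x) h
      simp only [φ₁, φ₂, RingHom.comp_apply, Complex.ofRealHom_eq_coe] at h3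
      exact_mod_cast h3
    exact Fintype.one_lt_card_iff.2 ⟨φ₁, φ₂, hne⟩
  have h3 := InfinitePlace.card_eq_nrRealPlaces_add_nrComplexPlaces K
  unfold Units.rank
  rw [h3]
  omega

private theorem ug_abs {ι : K →+* ℝ} {u : (𝓞 K)ˣ} (h : |ι ((u : 𝓞 K) : K)| = 1) :
    u = 1 ∨ u = -1 := by
  rcases (abs_eq zero_le_one).1 h with h | h
  · left
    apply Units.coe_injective K
    apply ι.injective
    change ι ((u : 𝓞 K) : K) = ι (((1 : (𝓞 K)ˣ) : 𝓞 K) : K)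
    rw [h]
    simp
  · right
    apply Units.coe_injective K
    apply ι.injective
    change ι ((u : 𝓞 K) : K) = ι (((-1 : (𝓞 K)ˣ) : 𝓞 K) : K)
    rw [h]
    simp

private theorem ug_not_dvd (hK : finrank ℚ K = 2) {ι₁ ι₂ : K →+* ℝ} (hι : ι₁ ≠ ι₂) {N : ℕ}
    (hN : 3 ≤ N) : ¬ (N : 𝓞 K) ∣ (-1 : 𝓞 K) - 1 := by
  rintro ⟨x, hx⟩
  have hx' : ∀ ι : K →+* ℝ, -2 = (N : ℝ) * ι (x : K) := by
    intro ι
    have h1 := congrArg (fun y : 𝓞 K => ι (y : K)) hx
    simp only [map_sub, map_neg, map_one, map_mul, map_natCast] at h1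
    linarith
  have h1 := norm_eq hK hι x
  have hN' : (3 : ℝ) ≤ N := by exact_mod_cast hN
  have h2 : |ι₁ (x : K) * ι₂ (x : K)| * (N : ℝ) ^ 2 = 4 := by
    have h3 : |ι₁ (x : K) * ι₂ (x : K)| * (N : ℝ) ^ 2 =
        |((N : ℝ) * ι₁ (x : K)) * ((N : ℝ) * ι₂ (x : K))| := by
      rw [abs_mul, abs_mul, abs_mul, abs_mul, Nat.abs_cast]
      ring
    rw [h3, ← hx' ι₁, ← hx' ι₂]
    norm_num
  rw [← h1] at h2
  have h4 : (Ideal.absNorm (Ideal.span {x}) : ℕ) * N ^ 2 = 4 := by exact_mod_cast h2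
  have h5 : Ideal.absNorm (Ideal.span {x}) ≠ 0 := by
    intro h
    rw [h] at h4
    omega
  have h6 : 1 ≤ Ideal.absNorm (Ideal.span {x}) := Nat.one_le_iff_ne_zero.2 h5
  nlinarith

theorem exists_unit_gen (hK : finrank ℚ K = 2) {ι₁ ι₂ : K →+* ℝ} (hι : ι₁ ≠ ι₂) {N : ℕ}
    (hN : 3 ≤ N) : ∃ ε : (𝓞 K)ˣ, (N : 𝓞 K) ∣ (ε : 𝓞 K) - 1 ∧ 1 < |ι₁ ((ε : 𝓞 K) : K)| ∧
      |ι₂ ((ε : 𝓞 K) : K)| = |ι₁ ((ε : 𝓞 K) : K)|⁻¹ ∧
      ∀ u : (𝓞 K)ˣ, (N : 𝓞 K) ∣ (u : 𝓞 K) - 1 → ∃ k : ℤ, u = ε ^ k := by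
  classical
  have hr := ug_rank hK hι
  -- the exponent
  let i₀ : Fin (Units.rank K) := ⟨0, by omega⟩
  have hi₀ : ∀ i : Fin (Units.rank K), i = i₀ := by
    intro i
    apply Fin.ext
    have := i.2
    change i.val = 0
    omega
  have hprod : ∀ f : Fin (Units.rank K) → ℤ,
      ∏ i, Units.fundSystem K i ^ f i = Units.fundSystem K i₀ ^ f i₀ := by
    intro f
    exact Finset.prod_eq_single i₀ (fun i _ h => absurd (hi₀ i) h)
      fun h => absurd (Finset.mem_univ _) h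
  have hex : ∀ u : (𝓞 K)ˣ, ∃ k : ℤ, ∃ ζ ∈ Units.torsion K,
      u = ζ * Units.fundSystem K i₀ ^ k := by
    intro u
    obtain ⟨⟨ζ, f⟩, hf, -⟩ := Units.exist_unique_eq_mul_prod K u
    exact ⟨f i₀, ζ, ζ.2, by rw [← hprod]; exact hf⟩
  have huniq : ∀ ζ ∈ Units.torsion K, ∀ ζ' ∈ Units.torsion K, ∀ k k' : ℤ,
      ζ * Units.fundSystem K i₀ ^ k = ζ' * Units.fundSystem K i₀ ^ k' → k = k' := by
    intro ζ hζ ζ' hζ' k k' h
    obtain ⟨z, -, hz⟩ := Units.exist_unique_eq_mul_prod K (ζ * Units.fundSystem K i₀ ^ k)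
    have h1 := hz (⟨ζ, hζ⟩, fun _ => k) (by simp only [hprod])
    have h2 := hz (⟨ζ', hζ'⟩, fun _ => k') (by simp only [hprod, h])
    have h3 := congrArg (fun y => y.2 i₀) (h1.trans h2.symm)
    exact h3
  choose k hk using hex
  choose ζ hζ hkζ using hk
  let e : (𝓞 K)ˣ →* Multiplicative ℤ := MonoidHom.mk' (fun u => Multiplicative.ofAdd (k u))
    (fun u v => by
      rw [← ofAdd_add]
      congr 1
      apply huniq (ζ (u * v)) (hζ _) (ζ u * ζ v) (mul_mem (hζ u) (hζ v))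
      rw [← hkζ (u * v)]
      conv_lhs => rw [hkζ u, hkζ v]
      rw [zpow_add]
      exact mul_mul_mul_comm _ _ _ _)
  have he0 : ∀ u, e u = 1 → u ∈ Units.torsion K := by
    intro u hu
    have h1 : k u = 0 := by
      have := congrArg Multiplicative.toAdd hu
      simpa [e] using this
    rw [hkζ u, h1, zpow_zero, mul_one]
    exact hζ u
  have heu : e (Units.fundSystem K i₀) = Multiplicative.ofAdd 1 := by
    change Multiplicative.ofAdd (k (Units.fundSystem K i₀)) = _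
    congr 1
    apply huniq _ (hζ (Units.fundSystem K i₀)) 1 (one_mem _)
    rw [← hkζ, zpow_one, one_mul]
  -- the subgroup
  let I : Ideal (𝓞 K) := Ideal.span {(N : 𝓞 K)}
  let q : (𝓞 K)ˣ →* (𝓞 K ⧸ I)ˣ := _root_.Units.map (Ideal.Quotient.mk I).toMonoidHom
  have hq : ∀ u : (𝓞 K)ˣ, u ∈ q.ker ↔ (N : 𝓞 K) ∣ (u : 𝓞 K) - 1 := by
    intro u
    rw [MonoidHom.mem_ker, ← Ideal.mem_span_singleton, ← Ideal.Quotient.eq_zero_iff_mem, map_sub,
      map_one, sub_eq_zero, _root_.Units.ext_iff]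
    rfl
  have hI : I ≠ ⊥ := by
    intro h
    rw [Ideal.span_singleton_eq_bot] at h
    have : N = 0 := by exact_mod_cast h
    omega
  have : Finite (𝓞 K ⧸ I) := Ideal.finiteQuotientOfFreeOfNeBot I hI
  have htor : ∀ u ∈ Units.torsion K, u = 1 ∨ u = -1 := by
    intro u hu
    rw [Units.torsion, CommGroup.mem_torsion, isOfFinOrder_iff_pow_eq_one] at hu
    obtain ⟨m, hm, h⟩ := hu
    apply ug_abs (ι := ι₁)
    have h1 : |ι₁ ((u : 𝓞 K) : K)| ^ m = 1 := by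
      rw [← abs_pow, ← map_pow, ← map_pow, ← _root_.Units.val_pow_eq_pow_val, h]
      simp
    exact (pow_eq_one_iff_of_nonneg (abs_nonneg _) hm.ne').1 h1
  have hinj : Function.Injective (e.comp q.ker.subtype) := by
    rw [injective_iff_map_eq_one]
    rintro ⟨u, hu⟩ h
    have h1 := htor u (he0 u h)
    rcases h1 with rfl | rfl
    · rfl
    · exfalso
      have h2 := (hq _).1 hu
      rw [_root_.Units.val_neg, _root_.Units.val_one] at h2
      exact ug_not_dvd hK hι hN h2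
  have : IsCyclic q.ker := isCyclic_of_injective (e.comp q.ker.subtype) hinj
  obtain ⟨⟨ε, hε⟩, hgen⟩ := IsCyclic.exists_generator (α := q.ker)
  have hgen' : ∀ u : (𝓞 K)ˣ, (N : 𝓞 K) ∣ (u : 𝓞 K) - 1 → ∃ k : ℤ, u = ε ^ k := by
    intro u hu
    obtain ⟨k, hk⟩ := Subgroup.mem_zpowers_iff.1 (hgen ⟨u, (hq u).2 hu⟩)
    refine ⟨k, ?_⟩
    have := congrArg Subtype.val hk
    simpa using this.symm
  have hne : |ι₁ ((ε : 𝓞 K) : K)| ≠ 1 := by
    intro h
    have h1 : ε ^ 2 = 1 := by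
      rcases ug_abs h with h | h <;> rw [h] <;> simp
    have h2 : Units.fundSystem K i₀ ^ Nat.card (𝓞 K ⧸ I)ˣ ∈ q.ker := by
      rw [MonoidHom.mem_ker, map_pow, pow_card_eq_one']
    obtain ⟨k, hk⟩ := hgen' _ ((hq _).1 h2)
    have h3 : e ((Units.fundSystem K i₀ ^ Nat.card (𝓞 K ⧸ I)ˣ) ^ 2) = e ((ε ^ k) ^ 2) := by
      rw [hk]
    have h4 : (ε ^ k) ^ 2 = 1 := by
      rw [← zpow_natCast, ← zpow_mul, mul_comm, zpow_mul, zpow_natCast, h1, one_zpow]
    rw [h4, map_one, map_pow, map_pow, heu] at h3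
    have h5 : (2 : ℤ) * ((Nat.card (𝓞 K ⧸ I)ˣ : ℤ) * 1) = 0 := by
      have := congrArg Multiplicative.toAdd h3
      simpa using this
    have h6 : (Nat.card (𝓞 K ⧸ I)ˣ : ℤ) ≠ 0 := by
      exact_mod_cast Nat.card_pos.ne'
    omega
  have hnorm : ∀ u : (𝓞 K)ˣ, |ι₂ ((u : 𝓞 K) : K)| = |ι₁ ((u : 𝓞 K) : K)|⁻¹ := by
    intro u
    have h1 := norm_eq hK hι (u : 𝓞 K)
    rw [Ideal.span_singleton_eq_top.2 u.isUnit, Ideal.absNorm_top, Nat.cast_one, abs_mul] at h1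
    rw [eq_comm, inv_eq_iff_eq_inv, eq_comm]
    exact inv_eq_of_mul_eq_one_left h1.symm
  rcases lt_or_gt_of_ne hne with hlt | hgt
  · refine ⟨ε⁻¹, ?_, ?_, hnorm _, ?_⟩
    · exact (hq _).1 (inv_mem hε)
    · have h1 : ((((ε⁻¹ : (𝓞 K)ˣ) : 𝓞 K) : K)) = (((ε : 𝓞 K) : K))⁻¹ := by
        apply eq_inv_of_mul_eq_one_left
        rw [← map_mul, ← _root_.Units.val_mul, inv_mul_cancel]
        simp
      rw [h1, map_inv₀, abs_inv]
      refine (one_lt_inv₀ ?_).2 hlt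
      rw [abs_pos, map_ne_zero]
      exact Units.coe_ne_zero ε
    · intro u hu
      obtain ⟨k, hk⟩ := hgen' u hu
      exact ⟨-k, by rw [hk, inv_zpow', neg_neg]⟩
  · exact ⟨ε, (hq _).1 hε, hgt, hnorm _, hgen'⟩

end Pool.Agent.HeckeRQ
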